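import Pool.Agent.Work.MP_9999b5_mf.Interface
import Pool.Agent.Work.MP_9999b5_mr.B_FIN

/-!
Block ALL of `mmf_blocks` (MP_9999b5_co): the strong induction.
-/

set_option autoImplicit false

namespace Pool.Agent.Work.MP_9999b5_mf

open Finset

theorem ALL_W4 (y : ℕ) (hy : 1 ≤ y) : Pool.Agent.Work.MaxSums.W y (4 * y) (1 / 4) := by
  have h := Pool.Agent.Work.MaxSums.helper84Div.mul
    Pool.Agent.Work.MaxSums.helper93Recursion.holds y hy 4 le_rfl
  norm_num at h
  norm_num
  exact h

theorem p_ALL : Stmt_MUP → Stmt_STP → Stmt_ALL := by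
  intro hM hS y
  induction y using Nat.strong_induction_on with
  | _ y ih =>
    intro hy
    have hI : ∀ z : ℕ, 1 ≤ z → z < y → Inv z := fun z hz hzy => ih z hzy hz
    refine hM y hy ?_ ?_ ?_ (ALL_W4 y hy)
    · intro T hT h1 h2
      exact (hS y hI T h1 hT).1 h2
    · intro T hT h2
      exact (hS y hI T (by omega) hT).2.1
    · intro T hT h1
      exact (hS y hI T h1 hT).2.2

end Pool.Agent.Work.MP_9999b5_mf
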