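import Pool.Agent.Work.MP_9999b5_mf.Interface

/-!
MP_9999b5_co, block AP2 of `MP_9999b5_mf/Interface.lean` (helper31): halvings of a `2k`-set.
-/

set_option autoImplicit false

namespace Pool.Agent.Work.MP_9999b5_mf

open Finset
open Pool.Agent.Work.MP_9999b5_mr (prs bad hvy al)
open Pool.Agent.Work.MP_9999b5_sp (pp)
open Pool.Agent.Work.MaxSums (W pos)

theorem AP2_card {ι : Type} [DecidableEq ι] (U : Finset ι) (x : ι → ℝ) (k : ℕ)
    (hU : U.card = 2 * k) :
    ((U.powersetCard k).filter (fun B => 0 < ∑ i ∈ U \ B, x i)).card =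
      ((U.powersetCard k).filter (fun B => 0 < ∑ i ∈ B, x i)).card := by
  refine card_nbij' (fun B => U \ B) (fun B => U \ B) ?_ ?_ ?_ ?_
  · intro B hB
    simp only [coe_filter, mem_powersetCard, Set.mem_ofPred_eq] at hB ⊢
    refine ⟨⟨sdiff_subset, ?_⟩, hB.2⟩
    rw [card_sdiff_of_subset hB.1.1, hU, hB.1.2]
    omega
  · intro B hB
    simp only [coe_filter, mem_powersetCard, Set.mem_ofPred_eq] at hB ⊢
    refine ⟨⟨sdiff_subset, ?_⟩, ?_⟩
    · rw [card_sdiff_of_subset hB.1.1, hU, hB.1.2]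
      omega
    · rw [Finset.sdiff_sdiff_eq_self hB.1.1]
      exact hB.2
  · intro B hB
    simp only [coe_filter, mem_powersetCard, Set.mem_ofPred_eq] at hB
    exact Finset.sdiff_sdiff_eq_self hB.1.1
  · intro B hB
    simp only [coe_filter, mem_powersetCard, Set.mem_ofPred_eq] at hB
    exact Finset.sdiff_sdiff_eq_self hB.1.1

theorem p_AP2 : Stmt_AP2 := by
  intro ι _ U x k hU
  have hs : ∀ B ∈ U.powersetCard k, ∑ i ∈ U \ B, x i + ∑ i ∈ B, x i = ∑ i ∈ U, x i :=
    fun B hB => sum_sdiff (mem_powersetCard.1 hB).1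
  have hX : (U.powersetCard k).card = (2 * k).choose k := by rw [card_powersetCard, hU]
  have h2 := AP2_card U x k hU
  have hal : al x k U = ((U.powersetCard k).filter (fun B =>
      ¬ (0 < ∑ i ∈ B, x i ∨ 0 < ∑ i ∈ U \ B, x i))).card := by
    unfold al
    congr 1
    apply filter_congr
    intro B _
    rw [not_or, not_lt, not_lt]
  have hor : ((U.powersetCard k).filter (fun B =>
      (0 < ∑ i ∈ B, x i ∨ 0 < ∑ i ∈ U \ B, x i))).card + ap x k U = 2 * pos x U k := by
    have h3 := card_union_add_card_inter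
      ((U.powersetCard k).filter (fun B => 0 < ∑ i ∈ B, x i))
      ((U.powersetCard k).filter (fun B => 0 < ∑ i ∈ U \ B, x i))
    rw [← filter_or, ← filter_and, h2] at h3
    unfold ap pos
    omega
  have hno := card_filter_add_card_filter_not (s := U.powersetCard k) (fun B =>
      (0 < ∑ i ∈ B, x i ∨ 0 < ∑ i ∈ U \ B, x i))
  rw [hX, ← hal] at hno
  refine ⟨?_, ?_, ?_, ?_⟩
  · intro hx
    unfold ap
    rw [card_eq_zero, filter_eq_empty_iff]
    rintro B hB ⟨h3, h4⟩
    have h5 := hs B hB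
    linarith
  · intro hx
    unfold al
    rw [card_eq_zero, filter_eq_empty_iff]
    rintro B hB ⟨h3, h4⟩
    have h5 := hs B hB
    linarith
  · have h6 : ap x k U ≤ ((U.powersetCard k).filter (fun B =>
        (0 < ∑ i ∈ B, x i ∨ 0 < ∑ i ∈ U \ B, x i))).card := by
      unfold ap
      apply card_le_card
      intro B hB
      rw [mem_filter] at hB ⊢
      exact ⟨hB.1, Or.inl hB.2.1⟩
    omega
  · omega

end Pool.Agent.Work.MP_9999b5_mf
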