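import Pool.Agent.Work.MP_9999b5_mf.Interface
import Pool.Agent.Work.MP_9999b5_ms_helper84.Transfer4

/-!
Block FUL of `mmf_blocks` (MP_9999b5_co): the whole question, from the invariant `Inv` (its last part).
-/

set_option autoImplicit false

namespace Pool.Agent.Work.MP_9999b5_mf

open Finset

/-- `k / n * C(n, k) = C(n - 1, k - 1)` -/
theorem FUL_choose (k n : ℕ) (hk : 1 ≤ k) (hn : 1 ≤ n) :
    (k : ℝ) / (n : ℝ) * (n.choose k : ℝ) = ((n - 1).choose (k - 1) : ℝ) := by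
  obtain ⟨l, rfl⟩ : ∃ l, k = l + 1 := ⟨k - 1, by omega⟩
  obtain ⟨M, rfl⟩ : ∃ M, n = M + 1 := ⟨n - 1, by omega⟩
  simp only [Nat.add_sub_cancel]
  have h3 := Nat.add_one_mul_choose_eq M l
  have h4 : (((M + 1 : ℕ) : ℝ)) * (M.choose l : ℝ)
      = ((M + 1).choose (l + 1) : ℝ) * ((l + 1 : ℕ) : ℝ) := by exact_mod_cast h3
  have h5 : (0 : ℝ) < ((M + 1 : ℕ) : ℝ) := by positivity
  rw [div_mul_eq_mul_div, div_eq_iff h5.ne', mul_comm ((l + 1 : ℕ) : ℝ), ← h4, mul_comm]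

/-- the number of positive sets -/
theorem FUL_pos (h : Stmt_ALL) (k n : ℕ) (hk : 1 ≤ k) (hn : 4 * k ≤ n) (ι : Type) [DecidableEq ι]
    (A : Finset ι) (x : ι → ℝ) (hA : A.card = n) (hinj : Set.InjOn x A)
    (hs : 0 ≤ ∑ i ∈ A, x i) :
    (n - 1).choose (k - 1) ≤ Pool.Agent.Work.MaxSums.pos x A k := by
  have h1 := (h k hk).2.2.2.2 n hn ι A x hA hinj hs
  rw [FUL_choose k n hk (by omega)] at h1
  exact_mod_cast h1

theorem p_FUL : Stmt_ALL → Stmt_FUL := by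
  intro h k n hk hn
  have hG : IsGreatest (Pool.Agent.Work.MaxSums.values k n) ((n - 1).choose k) := by
    refine Pool.Agent.Work.MaxSums.isGreatest_of k n hk (by omega) (fun A hA hs => ?_)
    exact FUL_pos h k n hk hn ℝ A (fun a => -a) hA
      (fun a _ b _ h => neg_injective h) (by rw [Finset.sum_neg_distrib, hs, neg_zero])
  exact ⟨hG, Pool.Agent.Work.MaxSums.Transfer.MMS_of_greatest hk (by omega) hG⟩

end Pool.Agent.Work.MP_9999b5_mf
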