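import Pool.Agent.Work.MP_9999b5_mf.Interface

set_option autoImplicit false

namespace Pool.Agent.Work.MP_9999b5_mf

open Finset
open Pool.Agent.Work.MaxSums (W pos)

theorem H2_key {ι : Type} [DecidableEq ι] (A : Finset ι) (x : ι → ℝ) (y : ℕ)
    (hA : A.card = 2 * y) (hsum : 0 ≤ ∑ i ∈ A, x i) :
    (2 * y).choose y ≤ 2 * pos x A y +
      ((A.powersetCard y).filter (fun S => ∑ i ∈ S, x i = 0)).card := by
  have hcard : (A.powersetCard y).card = (2 * y).choose y := by rw [card_powersetCard, hA]
  have h1 : ((A.powersetCard y).filter (fun S => ¬ 0 < ∑ i ∈ S, x i)).card ≤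
      pos x A y + ((A.powersetCard y).filter (fun S => ∑ i ∈ S, x i = 0)).card := by
    have hsub : (A.powersetCard y).filter (fun S => ¬ 0 < ∑ i ∈ S, x i) ⊆
        ((A.powersetCard y).filter (fun S => 0 < ∑ i ∈ A \ S, x i)) ∪
          (A.powersetCard y).filter (fun S => ∑ i ∈ S, x i = 0) := by
      intro S hS
      rw [mem_filter] at hS
      rw [mem_union, mem_filter, mem_filter]
      have hSA : S ⊆ A := (mem_powersetCard.1 hS.1).1
      have hs := Finset.sum_sdiff (f := x) hSA
      by_cases h : 0 < ∑ i ∈ A \ S, x i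
      · exact Or.inl ⟨hS.1, h⟩
      · refine Or.inr ⟨hS.1, ?_⟩
        have h2 := hS.2
        rw [not_lt] at h2 h
        linarith
    have hinj : ((A.powersetCard y).filter (fun S => 0 < ∑ i ∈ A \ S, x i)).card ≤ pos x A y := by
      unfold pos
      refine card_le_card_of_injOn (fun S => A \ S) ?_ ?_
      · intro S hS
        have hS' := mem_filter.1 (mem_coe.1 hS)
        have hSA := mem_powersetCard.1 hS'.1
        apply mem_coe.2
        refine mem_filter.2 ⟨mem_powersetCard.2 ⟨sdiff_subset, ?_⟩, hS'.2⟩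
        rw [card_sdiff_of_subset hSA.1, hA, hSA.2]
        omega
      · intro S hS S' hS' he
        have h1 := (mem_powersetCard.1 (mem_filter.1 (mem_coe.1 hS)).1).1
        have h2 := (mem_powersetCard.1 (mem_filter.1 (mem_coe.1 hS')).1).1
        have he' : A \ S = A \ S' := he
        rw [← Finset.sdiff_sdiff_eq_self h1, ← Finset.sdiff_sdiff_eq_self h2, he']
    calc ((A.powersetCard y).filter (fun S => ¬ 0 < ∑ i ∈ S, x i)).card
        ≤ (((A.powersetCard y).filter (fun S => 0 < ∑ i ∈ A \ S, x i)) ∪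
          (A.powersetCard y).filter (fun S => ∑ i ∈ S, x i = 0)).card := card_le_card hsub
      _ ≤ _ := card_union_le _ _
      _ ≤ _ := Nat.add_le_add_right hinj _
  have h2 : pos x A y + ((A.powersetCard y).filter (fun S => ¬ 0 < ∑ i ∈ S, x i)).card =
      (A.powersetCard y).card := by
    unfold pos
    exact Finset.card_filter_add_card_filter_not _
  omega

theorem p_H2 : Stmt_ZS → Stmt_H2 := by
  intro hZS y hy ι _ A x hA hinj hsum
  have hz := hZS ι A x y hinj hy (by omega)
  rw [hA] at hz
  have key := H2_key A x y hA hsum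
  set Z := ((A.powersetCard y).filter (fun S => ∑ i ∈ S, x i = 0)).card with hZ
  have h2 : 2 * Z ≤ (2 * y).choose y := by
    have h3 : 2 ≤ 2 * y - y + 1 := by omega
    calc 2 * Z ≤ (2 * y - y + 1) * Z := Nat.mul_le_mul_right _ h3
      _ ≤ _ := hz
  have h4 : (2 * y).choose y ≤ 4 * pos x A y := by omega
  have h5 : ((2 * y).choose y : ℝ) ≤ 4 * pos x A y := by exact_mod_cast h4
  linarith

end Pool.Agent.Work.MP_9999b5_mf
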