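import Pool.Agent.Work.MP_9999b5_mf.Interface

set_option autoImplicit false

namespace Pool.Agent.Work.MP_9999b5_mf

open Finset
open Pool.Agent.Work.MP_9999b5_mr (prs bad hvy al)

theorem LC1_hb (hPAC : Pool.Agent.Work.MP_9999b5_mr.Stmt_PAC) (hAP2 : Stmt_AP2)
    {ι : Type} [DecidableEq ι] (C : Finset ι) (x : ι → ℝ) (k : ℕ) :
    (hvy C x k : ℝ) - bad C x k = ∑ Z ∈ C.powersetCard (2 * k), be x k Z := by
  obtain ⟨_, h2, h3⟩ := hPAC ι C x k
  rw [h2, h3, Finset.card_filter]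
  push_cast
  rw [Finset.mul_sum, ← Finset.sum_sub_distrib]
  refine Finset.sum_congr rfl (fun Z hZ => ?_)
  have hc := (Finset.mem_powersetCard.mp hZ).2
  obtain ⟨_, a2, _, _⟩ := hAP2 ι Z x k hc
  unfold be
  by_cases h : ∑ i ∈ Z, x i ≤ 0
  · rw [if_pos h, if_pos h, mul_one]
  · rw [if_neg h, if_neg h, a2 (not_le.mp h)]
    simp

theorem LC1_loc (hPAC : Pool.Agent.Work.MP_9999b5_mr.Stmt_PAC) (hAP2 : Stmt_AP2)
    (k T : ℕ) (L : ℝ) (hQL : QL k T L)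
    {ι : Type} [DecidableEq ι] (C : Finset ι) (x : ι → ℝ) (hC : C.card = 2 * k + T)
    (hinj : Set.InjOn x C) (h0 : 0 ≤ ∑ i ∈ C, x i) :
    (2 * (k : ℝ) + T) * (∑ Z ∈ C.powersetCard (2 * k), (al x k Z : ℝ)) -
        T * (∑ Z ∈ C.powersetCard (2 * k), ((2 * k).choose k : ℝ)) ≤
      L * (2 * (k : ℝ) + T) * ∑ Z ∈ C.powersetCard (2 * k), be x k Z := by
  have h := hQL ι C x hC hinj h0
  rw [LC1_hb hPAC hAP2 C x k] at h
  obtain ⟨h1, h2, _⟩ := hPAC ι C x k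
  rw [h1, h2] at h
  push_cast at h
  rw [Finset.sum_const, Finset.card_powersetCard, nsmul_eq_mul]
  have h5 : ((C.card.choose (2 * k) : ℕ) : ℝ) * ((2 * k).choose k : ℝ) =
      ((2 * k).choose k : ℝ) * ((C.card.choose (2 * k) : ℕ) : ℝ) := mul_comm _ _
  rw [h5]
  exact h

theorem p_LC1 : Pool.Agent.Work.MP_9999b5_mr.Stmt_PAC → Stmt_AP2 → Stmt_SSC → Stmt_LC1 := by
  intro hPAC hAP2 hSSC k T L _ hQL ι _ V x hV hinj h0
  rw [(hSSC ι V k (fun U => (al x k U : ℝ)) (fun U => (al x k U : ℝ))).1,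
    (hSSC ι V k (fun U => (al x k U : ℝ)) (fun _ => ((2 * k).choose k : ℝ))).1,
    (hSSC ι V k (fun U => (al x k U : ℝ)) (be x k)).1,
    Finset.mul_sum, Finset.mul_sum, Finset.mul_sum, ← Finset.sum_sub_distrib]
  refine Finset.sum_le_sum (fun U hU => ?_)
  obtain ⟨hUV, hUc⟩ := Finset.mem_powersetCard.mp hU
  obtain ⟨_, a2, _, _⟩ := hAP2 ι U x k hUc
  by_cases h : ∑ i ∈ U, x i ≤ 0
  · have hc : (V \ U).card = 2 * k + T := by
      rw [Finset.card_sdiff_of_subset hUV, hV, hUc]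
      omega
    have hi : Set.InjOn x (V \ U : Finset ι) := by
      intro a ha b hb hab
      exact hinj (Finset.mem_sdiff.mp ha).1 (Finset.mem_sdiff.mp hb).1 hab
    have hs : 0 ≤ ∑ i ∈ V \ U, x i := by
      have h1 := Finset.sum_sdiff (f := x) hUV
      linarith
    have h2 := LC1_loc hPAC hAP2 k T L hQL (V \ U) x hc hi hs
    have h3 : (0 : ℝ) ≤ (al x k U : ℝ) := Nat.cast_nonneg _
    have h4 := mul_le_mul_of_nonneg_left h2 h3
    have e1 : (2 * (k : ℝ) + T) * ((al x k U : ℝ) *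
          ∑ Z ∈ (V \ U).powersetCard (2 * k), (al x k Z : ℝ)) -
        (T : ℝ) * ((al x k U : ℝ) *
          ∑ Z ∈ (V \ U).powersetCard (2 * k), ((2 * k).choose k : ℝ)) =
        (al x k U : ℝ) * ((2 * (k : ℝ) + T) *
          (∑ Z ∈ (V \ U).powersetCard (2 * k), (al x k Z : ℝ)) -
        T * (∑ Z ∈ (V \ U).powersetCard (2 * k), ((2 * k).choose k : ℝ))) := by ring
    have e2 : L * (2 * (k : ℝ) + T) * ((al x k U : ℝ) *
          ∑ Z ∈ (V \ U).powersetCard (2 * k), be x k Z) =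
        (al x k U : ℝ) * (L * (2 * (k : ℝ) + T) *
          ∑ Z ∈ (V \ U).powersetCard (2 * k), be x k Z) := by ring
    rw [e1, e2]
    exact h4
  · rw [a2 (not_le.mp h)]
    simp

end Pool.Agent.Work.MP_9999b5_mf
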