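import Pool.Agent.Work.MP_9999b5_mf.Interface

set_option autoImplicit false

namespace Pool.Agent.Work.MP_9999b5_mf

open Finset
open Pool.Agent.Work.MP_9999b5_mr (prs bad hvy al)

theorem LC2_ga (hPAC : MP_9999b5_mr.Stmt_PAC) (hAP2 : Stmt_AP2) {ι : Type} [DecidableEq ι]
    (C : Finset ι) (x : ι → ℝ) (k : ℕ) :
    ∑ U ∈ C.powersetCard (2 * k), ga x k U =
      2 * ((prs C k).card : ℝ) - hvy C x k - bad C x k := by
  obtain ⟨h1, h2, h3⟩ := hPAC ι C x k
  rw [h1, h2, h3]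
  push_cast
  have e1 : ∑ U ∈ C.powersetCard (2 * k), ga x k U =
      ∑ U ∈ C.powersetCard (2 * k), (2 * ((2 * k).choose k : ℝ) -
        ((2 * k).choose k : ℝ) * (if ∑ i ∈ U, x i ≤ 0 then 1 else 0) - al x k U) := by
    refine Finset.sum_congr rfl (fun U hU => ?_)
    have hc := (Finset.mem_powersetCard.mp hU).2
    obtain ⟨_, a2, _, _⟩ := hAP2 ι U x k hc
    unfold ga
    split_ifs with h
    · ring
    · rw [a2 (not_le.mp h)]
      simp
  have e2 : ∑ U ∈ C.powersetCard (2 * k), ((2 * k).choose k : ℝ) *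
      (if ∑ i ∈ U, x i ≤ 0 then (1 : ℝ) else 0) = ((2 * k).choose k : ℝ) *
      (((C.powersetCard (2 * k)).filter (fun U => ∑ i ∈ U, x i ≤ 0)).card : ℝ) := by
    rw [← Finset.mul_sum, Finset.sum_boole]
  rw [e1, Finset.sum_sub_distrib, Finset.sum_sub_distrib, e2,
    Finset.sum_const, Finset.card_powersetCard, nsmul_eq_mul]
  ring

theorem p_LC2 : MP_9999b5_mr.Stmt_PAC → Stmt_AP2 → Stmt_SSC → Stmt_LC2 := by
  intro hPAC hAP2 hSSC k T L hk hHL ι _ V x hV hinj hsum
  rw [(hSSC ι V k (fun U => (al x k U : ℝ)) (be x k)).2.1, (hSSC ι V k (ga x k) (be x k)).2.1,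
    Finset.mul_sum, Finset.mul_sum]
  refine Finset.sum_le_sum (fun Z hZ => ?_)
  obtain ⟨hZV, hZc⟩ := Finset.mem_powersetCard.mp hZ
  by_cases hz : ∑ i ∈ Z, x i ≤ 0
  · have hcard : (V \ Z).card = 2 * k + T := by
      rw [Finset.card_sdiff_of_subset hZV, hV, hZc]
      omega
    have hs : 0 ≤ ∑ i ∈ V \ Z, x i := by
      have := Finset.sum_sdiff (f := x) hZV
      linarith
    have hH := hHL ι (V \ Z) x hcard (hinj.mono (by
      intro a ha
      exact (Finset.mem_sdiff.mp (Finset.mem_coe.mp ha)).1)) hs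
    rw [← LC2_ga hPAC hAP2] at hH
    have hb : (bad (V \ Z) x k : ℝ) = ∑ U ∈ (V \ Z).powersetCard (2 * k), (al x k U : ℝ) := by
      rw [(hPAC ι (V \ Z) x k).2.1]
      push_cast
      rfl
    rw [hb] at hH
    have hbe : 0 ≤ be x k Z := by
      obtain ⟨_, _, a3, _⟩ := hAP2 ι Z x k hZc
      unfold be
      rw [if_pos hz]
      have : (al x k Z : ℝ) ≤ ((2 * k).choose k : ℝ) := by
        exact_mod_cast (by omega : al x k Z ≤ (2 * k).choose k)
      linarith
    have := mul_le_mul_of_nonneg_left hH hbe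
    nlinarith [this]
  · have hbe : be x k Z = 0 := by
      unfold be
      rw [if_neg hz]
    rw [hbe]
    simp

end Pool.Agent.Work.MP_9999b5_mf
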