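import Pool.Agent.Work.MP_9999b5_mf.Interface

/-!
LC3 (MP_9999b5_co): comparison of the double sums (typed by helper43).
-/

set_option autoImplicit false

namespace Pool.Agent.Work.MP_9999b5_mf

open Finset
open Pool.Agent.Work.MP_9999b5_mr (prs bad hvy al)
open Pool.Agent.Work.MP_9999b5_sp (pp)
open Pool.Agent.Work.MaxSums (W pos)

/-- the mixed halvings on the sets with sum `≤ 0` -/
noncomputable def LC3_f {ι : Type} [DecidableEq ι] (x : ι → ℝ) (k : ℕ) (U : Finset ι) : ℝ :=
  if ∑ i ∈ U, x i ≤ 0 then mx x k U else 0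

/-- the mixed halvings on the sets with positive sum -/
noncomputable def LC3_g {ι : Type} [DecidableEq ι] (x : ι → ℝ) (k : ℕ) (U : Finset ι) : ℝ :=
  if ∑ i ∈ U, x i ≤ 0 then 0 else mx x k U

theorem LC3_mem {ι : Type} [DecidableEq ι] {V : Finset ι} {k : ℕ} {p : Finset ι × Finset ι}
    (hp : p ∈ prs V k) : p.1.card = k ∧ p.2.card = k := by
  unfold MP_9999b5_mr.prs at hp
  rw [mem_filter, mem_product, mem_powersetCard, mem_powersetCard] at hp
  exact ⟨hp.1.1.2, hp.1.2.2⟩

theorem p_LC3 : Stmt_AP2 → Stmt_SSC → Stmt_LC3 := by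
  intro hAP hSSC ι _ V x k
  have hmx : ∀ U : Finset ι, U.card = 2 * k → 0 ≤ mx x k U := by
    intro U hU
    have h := (hAP ι U x k hU).2.2.1
    have h' : (al x k U : ℝ) + (ap x k U : ℝ) ≤ ((2 * k).choose k : ℝ) := by exact_mod_cast h
    unfold mx
    linarith
  have hdec : ∀ U : Finset ι, mx x k U = LC3_f x k U + LC3_g x k U := by
    intro U
    unfold LC3_f LC3_g
    split_ifs <;> ring
  have hbe : ∀ U : Finset ι, U.card = 2 * k → be x k U = LC3_f x k U := by
    intro U hU
    unfold be LC3_f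
    split_ifs with h
    · have h0 := (hAP ι U x k hU).1 h
      unfold mx
      rw [h0]
      push_cast
      ring
    · rfl
  have hga : ∀ U : Finset ι, U.card = 2 * k →
      ga x k U = LC3_f x k U + 2 * LC3_g x k U + 2 * (ap x k U : ℝ) := by
    intro U hU
    unfold ga LC3_f LC3_g
    split_ifs with h
    · have h0 := (hAP ι U x k hU).1 h
      unfold mx
      rw [h0]
      push_cast
      ring
    · have h0 := (hAP ι U x k hU).2.1 (not_le.1 h)
      unfold mx
      rw [h0]
      push_cast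
      ring
  have hg0 : ∀ U : Finset ι, U.card = 2 * k → 0 ≤ LC3_g x k U := by
    intro U hU
    unfold LC3_g
    split_ifs
    · exact le_refl _
    · exact hmx U hU
  have e1 : SS V k (ga x k) (be x k) = SS V k (LC3_f x k) (LC3_f x k) +
      2 * SS V k (LC3_g x k) (LC3_f x k) +
      2 * SS V k (fun U => (ap x k U : ℝ)) (LC3_f x k) := by
    unfold SS
    rw [Finset.mul_sum, Finset.mul_sum, ← Finset.sum_add_distrib, ← Finset.sum_add_distrib]
    apply Finset.sum_congr rfl
    intro p hp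
    obtain ⟨h1, h2⟩ := LC3_mem hp
    rw [hga p.1 h1, hbe p.2 h2]
    ring
  have e2 : SS V k (mx x k) (mx x k) = SS V k (LC3_f x k) (LC3_f x k) +
      SS V k (LC3_f x k) (LC3_g x k) + SS V k (LC3_g x k) (LC3_f x k) +
      SS V k (LC3_g x k) (LC3_g x k) := by
    unfold SS
    rw [← Finset.sum_add_distrib, ← Finset.sum_add_distrib, ← Finset.sum_add_distrib]
    apply Finset.sum_congr rfl
    intro p _
    rw [hdec p.1, hdec p.2]
    ring
  have e3 : SS V k (fun U => (ap x k U : ℝ)) (mx x k) =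
      SS V k (fun U => (ap x k U : ℝ)) (LC3_f x k) +
      SS V k (fun U => (ap x k U : ℝ)) (LC3_g x k) := by
    unfold SS
    rw [← Finset.sum_add_distrib]
    apply Finset.sum_congr rfl
    intro p _
    rw [hdec p.2]
    ring
  have e4 : SS V k (LC3_f x k) (LC3_g x k) = SS V k (LC3_g x k) (LC3_f x k) :=
    (hSSC ι V k (LC3_f x k) (LC3_g x k)).2.2
  have e5 : 0 ≤ SS V k (LC3_g x k) (LC3_g x k) := by
    unfold SS
    apply Finset.sum_nonneg
    intro p hp
    obtain ⟨h1, h2⟩ := LC3_mem hp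
    exact mul_nonneg (hg0 p.1 h1) (hg0 p.2 h2)
  have e6 : 0 ≤ SS V k (fun U => (ap x k U : ℝ)) (LC3_g x k) := by
    unfold SS
    apply Finset.sum_nonneg
    intro p hp
    obtain ⟨h1, h2⟩ := LC3_mem hp
    exact mul_nonneg (Nat.cast_nonneg _) (hg0 p.2 h2)
  rw [e1, e2, e3, e4]
  linarith

end Pool.Agent.Work.MP_9999b5_mf
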