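import Pool.Agent.Work.MP_9999b5_mf.Interface

set_option autoImplicit false

/-!
# Block LSA of MP_9999b5: the loss term `T / ((k + T - 1) (2k + 1))`
-/

namespace Pool.Agent.Work.MP_9999b5_mf

open Finset

/-- The first inequality, with `k = T + 1 + j`. -/
theorem LSA_one (a j : ℝ) (ha : 1 ≤ a) (hj : 0 ≤ j) :
    a / ((a + 1 + j + a - 1) * (2 * (a + 1 + j) + 1)) ≤
      (a + 1 + j - a) / (2 * (3 * (a + 1 + j) - a)) := by
  have h0 : 0 ≤ a := by linarith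
  have h1 : 0 < (a + 1 + j + a - 1) * (2 * (a + 1 + j) + 1) := by
    apply mul_pos <;> linarith
  have h2 : 0 < 2 * (3 * (a + 1 + j) - a) := by linarith
  rw [div_le_div_iff₀ h1 h2]
  have e : (a + 1 + j - a) * ((a + 1 + j + a - 1) * (2 * (a + 1 + j) + 1))
      - a * (2 * (3 * (a + 1 + j) - a))
      = 2 * j ^ 3 + (6 * a + 5) * j ^ 2 + (4 * a ^ 2 + 6 * a + 3) * j := by
    ring
  have e2 : 0 ≤ 2 * j ^ 3 + (6 * a + 5) * j ^ 2 + (4 * a ^ 2 + 6 * a + 3) * j := by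
    positivity
  linarith

/-- The second inequality, with `k = T + 2 + j`. -/
theorem LSA_two (a j : ℝ) (ha : 1 ≤ a) (hj : 0 ≤ j) :
    a / ((a + 2 + j + a - 1) * (2 * (a + 2 + j) + 1)) ≤
      2 * a * (a + 2 + j - a) / ((a + 2 + j + 3 * a) * (5 * (a + 2 + j) - a)) := by
  have h0 : 0 ≤ a := by linarith
  have h1 : 0 < (a + 2 + j + a - 1) * (2 * (a + 2 + j) + 1) := by
    apply mul_pos <;> linarith
  have h2 : 0 < (a + 2 + j + 3 * a) * (5 * (a + 2 + j) - a) := by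
    apply mul_pos <;> linarith
  rw [div_le_div_iff₀ h1 h2]
  have e : 2 * a * (a + 2 + j - a) * ((a + 2 + j + a - 1) * (2 * (a + 2 + j) + 1))
      - a * ((a + 2 + j + 3 * a) * (5 * (a + 2 + j) - a))
      = a * (4 * j ^ 3 + (12 * a + 17) * j ^ 2 + (8 * a ^ 2 + 24 * a + 18) * j) := by
    ring
  have e2 : 0 ≤ a * (4 * j ^ 3 + (12 * a + 17) * j ^ 2 + (8 * a ^ 2 + 24 * a + 18) * j) := by
    positivity
  linarith

theorem p_LSA : Stmt_LSA := by
  intro k T hT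
  have ha : (1 : ℝ) ≤ (T : ℝ) := by exact_mod_cast hT
  refine ⟨fun h => ?_, fun h => ?_⟩
  · obtain ⟨j, rfl⟩ := Nat.exists_eq_add_of_le h
    have := LSA_one (T : ℝ) (j : ℝ) ha (Nat.cast_nonneg j)
    push_cast
    exact this
  · obtain ⟨j, rfl⟩ := Nat.exists_eq_add_of_le h
    have := LSA_two (T : ℝ) (j : ℝ) ha (Nat.cast_nonneg j)
    push_cast
    exact this

end Pool.Agent.Work.MP_9999b5_mf
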