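import Pool.Agent.Work.MP_9999b5_mf.Interface

/-! # Block MM4 (helper67): products of the numbers of mixed halvings -/

set_option autoImplicit false

namespace Pool.Agent.Work.MP_9999b5_mf

open Finset
open Pool.Agent.Work.MP_9999b5_mr (prs bad hvy al)
open Pool.Agent.Work.MaxSums (W pos)

/-- indicator of `(+,-)` -/
noncomputable def MM4_f {ι : Type} [DecidableEq ι] (x : ι → ℝ) (A B : Finset ι) : ℝ :=
  if 0 < ∑ i ∈ A, x i ∧ ∑ i ∈ B, x i ≤ 0 then 1 else 0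

/-- indicator of `(+,+)` -/
noncomputable def MM4_p {ι : Type} [DecidableEq ι] (x : ι → ℝ) (A B : Finset ι) : ℝ :=
  if 0 < ∑ i ∈ A, x i ∧ 0 < ∑ i ∈ B, x i then 1 else 0

/-- indicator of `(-,-)` -/
noncomputable def MM4_n {ι : Type} [DecidableEq ι] (x : ι → ℝ) (A B : Finset ι) : ℝ :=
  if ∑ i ∈ A, x i ≤ 0 ∧ ∑ i ∈ B, x i ≤ 0 then 1 else 0

theorem MM4_ap {ι : Type} [DecidableEq ι] (x : ι → ℝ) (k : ℕ) (U : Finset ι) :
    (ap x k U : ℝ) = ∑ B ∈ U.powersetCard k, MM4_p x B (U \ B) := by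
  unfold ap MM4_p
  rw [← Finset.sum_filter, Finset.sum_const, nsmul_eq_mul, mul_one]

theorem MM4_al {ι : Type} [DecidableEq ι] (x : ι → ℝ) (k : ℕ) (U : Finset ι) :
    (al x k U : ℝ) = ∑ B ∈ U.powersetCard k, MM4_n x B (U \ B) := by
  unfold MP_9999b5_mr.al MM4_n
  rw [← Finset.sum_filter, Finset.sum_const, nsmul_eq_mul, mul_one]

theorem MM4_pos {ι : Type} [DecidableEq ι] (x : ι → ℝ) (k : ℕ) (U : Finset ι) :
    (pos x U k : ℝ) = ap x k U + ∑ B ∈ U.powersetCard k, MM4_f x B (U \ B) := by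
  rw [MM4_ap, ← Finset.sum_add_distrib]
  unfold pos
  rw [Finset.card_filter, Nat.cast_sum]
  refine Finset.sum_congr rfl (fun B _ => ?_)
  unfold MM4_p MM4_f
  by_cases h1 : 0 < ∑ i ∈ B, x i
  · by_cases h2 : 0 < ∑ i ∈ U \ B, x i
    · rw [if_pos h1, if_pos ⟨h1, h2⟩, if_neg (fun h => absurd h.2 (not_le.2 h2))]
      simp
    · rw [if_pos h1, if_neg (fun h => h2 h.2), if_pos ⟨h1, not_lt.1 h2⟩]
      simp
  · rw [if_neg h1, if_neg (fun h => h1 h.1), if_neg (fun h => h1 h.1)]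
    simp

theorem MM4_mx (hAP2 : Stmt_AP2) {ι : Type} [DecidableEq ι] (x : ι → ℝ) (k : ℕ) (U : Finset ι)
    (hU : U.card = 2 * k) :
    mx x k U = 2 * ∑ B ∈ U.powersetCard k, MM4_f x B (U \ B) := by
  have h1 := (hAP2 ι U x k hU).2.2.2
  have h2 : (((2 * k).choose k : ℕ) : ℝ) + ap x k U = al x k U + 2 * (pos x U k : ℝ) := by
    exact_mod_cast h1
  rw [MM4_pos] at h2
  unfold mx
  linarith

theorem MM4_mem {ι : Type} [DecidableEq ι] {C : Finset ι} {k : ℕ} {p : Finset ι × Finset ι}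
    (h : p ∈ prs C k) : p.1.card = k ∧ p.2.card = k := by
  unfold MP_9999b5_mr.prs at h
  have h1 := Finset.mem_product.1 (Finset.mem_filter.1 h).1
  exact ⟨(Finset.mem_powersetCard.1 h1.1).2, (Finset.mem_powersetCard.1 h1.2).2⟩

/-- MM4. -/
theorem p_MM4 : Stmt_AP2 → Stmt_SSC → Stmt_QSW → Stmt_QUD → Stmt_MM4 := by
  intro hAP2 hSSC hQSW hQUD ι _ V x k
  have e1 : SS V k (mx x k) (mx x k) =
      4 * SS V k (fun U => ∑ B ∈ U.powersetCard k, MM4_f x B (U \ B))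
        (fun U => ∑ B ∈ U.powersetCard k, MM4_f x B (U \ B)) := by
    unfold SS
    rw [Finset.mul_sum]
    refine Finset.sum_congr rfl (fun p hp => ?_)
    obtain ⟨h1, h2⟩ := MM4_mem hp
    rw [MM4_mx hAP2 x k p.1 h1, MM4_mx hAP2 x k p.2 h2]
    ring
  have e2 : SS V k (fun U => (ap x k U : ℝ)) (fun U => (al x k U : ℝ)) =
      SS V k (fun U => ∑ B ∈ U.powersetCard k, MM4_p x B (U \ B))
        (fun U => ∑ B ∈ U.powersetCard k, MM4_n x B (U \ B)) := by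
    unfold SS
    refine Finset.sum_congr rfl (fun p _ => ?_)
    beta_reduce
    rw [MM4_ap, MM4_al]
  rw [e1, (hSSC ι V k (fun U => (al x k U : ℝ)) (fun U => (ap x k U : ℝ))).2.2, e2,
    hQUD ι V k (MM4_f x) (MM4_f x), hQUD ι V k (MM4_p x) (MM4_n x)]
  congr 1
  rw [hQSW ι V k (fun a b c d => MM4_f x a b * MM4_f x c d)]
  refine Finset.sum_congr rfl (fun p _ => Finset.sum_congr rfl (fun z _ => ?_))
  unfold MM4_f MM4_p MM4_n
  by_cases h1 : 0 < ∑ i ∈ p.1, x i <;> by_cases h2 : 0 < ∑ i ∈ p.2, x i <;>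
    by_cases h3 : ∑ i ∈ z.1, x i ≤ 0 <;> by_cases h4 : ∑ i ∈ z.2, x i ≤ 0 <;>
    simp [h1, h2, h3, h4]

end Pool.Agent.Work.MP_9999b5_mf
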