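import Pool.Agent.Work.MP_9999b5_mf.Interface
import Pool.Agent.Work.MP_9999b5_ms_helper93.Recursion

set_option autoImplicit false

namespace Pool.Agent.Work.MP_9999b5_mf

open Finset
open Pool.Agent.Work.MP_9999b5_mr (prs bad hvy al)
open Pool.Agent.Work.MP_9999b5_sp (pp)
open Pool.Agent.Work.MaxSums (W pos)

theorem MUP_mono (k n : ℕ) (φ ψ : ℝ) (h : ψ ≤ φ) (hW : W k n φ) : W k n ψ := by
  intro ι _ A x hA hx h0
  exact le_trans (mul_le_mul_of_nonneg_right h (Nat.cast_nonneg _)) (hW ι A x hA hx h0)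

theorem p_MUP : Stmt_H2 → Stmt_MUP := by
  intro hH2 y hy h1 h2 h3 h4
  have hRec := Pool.Agent.Work.MaxSums.helper93Recursion.holds
  have a1 : ∀ N : ℕ, 2 * y ≤ N → 2 * N < 5 * y → W y N (236 / 1000) := by
    intro N hN1 hN2
    obtain ⟨T, rfl⟩ : ∃ T, N = 2 * y + T := ⟨N - 2 * y, by omega⟩
    rcases Nat.eq_zero_or_pos T with hT | hT
    · subst hT
      exact MUP_mono _ _ _ _ (by norm_num) (hH2 y hy)
    · exact h1 T (by omega) hT (by omega)
  have a2 : ∀ N : ℕ, 5 * y ≤ 2 * N → N < 3 * y → W y N (217 / 1000) := by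
    intro N hN1 hN2
    obtain ⟨T, rfl⟩ : ∃ T, N = 2 * y + T := ⟨N - 2 * y, by omega⟩
    exact h2 T (by omega) (by omega)
  refine ⟨a1, a2, ?_, ?_, ?_⟩
  · intro N hN1 hN2
    obtain ⟨N', rfl⟩ : ∃ N', N = N' + y := ⟨N - y, by omega⟩
    have h := hRec y N' (236 / 1000) (by omega) (by norm_num) (a1 N' (by omega) (by omega))
    have e : (236 / 1000 : ℝ) / (1 + 236 / 1000) = 236 / 1236 := by norm_num
    rw [e] at h
    exact h
  · intro N hN1 hN2
    obtain ⟨N', rfl⟩ : ∃ N', N = N' + y := ⟨N - y, by omega⟩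
    have h := hRec y N' (217 / 1000) (by omega) (by norm_num) (a2 N' (by omega) (by omega))
    have e : (217 / 1000 : ℝ) / (1 + 217 / 1000) = 217 / 1217 := by norm_num
    rw [e] at h
    exact h
  · intro N
    induction N using Nat.strong_induction_on with
    | _ N ih =>
      intro hN
      have hyR : (0 : ℝ) < (y : ℝ) := by exact_mod_cast hy
      rcases Nat.lt_or_ge N (5 * y) with hlt | hge
      · obtain ⟨T, rfl⟩ : ∃ T, N = 4 * y + T := ⟨N - 4 * y, by omega⟩
        rcases Nat.eq_zero_or_pos T with hT | hT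
        · subst hT
          have e : ((y : ℝ) / ((4 * y + 0 : ℕ) : ℝ)) = 1 / 4 := by
            push_cast
            field_simp
            norm_num
          rw [e]
          exact h4
        · have h := h3 T (by omega) hT
          have e : ((4 * y + T : ℕ) : ℝ) = 4 * (y : ℝ) + T := by push_cast; ring
          rw [e]
          exact h
      · obtain ⟨N', rfl⟩ : ∃ N', N = N' + y := ⟨N - y, by omega⟩
        have hN'0 : (0 : ℝ) < (N' : ℝ) := by
          have : 0 < N' := by omega
          exact_mod_cast this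
        have h := hRec y N' ((y : ℝ) / N') (by omega) (by positivity)
          (ih N' (by omega) (by omega))
        have e : ((y : ℝ) / N') / (1 + (y : ℝ) / N') = (y : ℝ) / ((N' + y : ℕ) : ℝ) := by
          push_cast
          field_simp
        rw [e] at h
        exact h

end Pool.Agent.Work.MP_9999b5_mf
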