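import Pool.Agent.Work.MP_9999b5_mf.Interface

/-! # Block QA1 (helper35) -/

set_option autoImplicit false

namespace Pool.Agent.Work.MP_9999b5_mf

open Finset

lemma QA1_prs_pos (k T : ℕ) {ι : Type} [DecidableEq ι] (C : Finset ι) (hC : C.card = 2 * k + T) :
    (0 : ℝ) < ((MP_9999b5_mr.prs C k).card : ℝ) := by
  have : 0 < (MP_9999b5_mr.prs C k).card := by
    apply card_pos.2
    obtain ⟨A, hA, hA2⟩ := exists_subset_card_eq (s := C) (n := k) (by omega)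
    obtain ⟨B, hB, hB2⟩ := exists_subset_card_eq (s := C \ A) (n := k) (by
      rw [card_sdiff_of_subset hA]
      omega)
    refine ⟨(A, B), ?_⟩
    unfold MP_9999b5_mr.prs
    rw [mem_filter, mem_product, mem_powersetCard, mem_powersetCard]
    exact ⟨⟨⟨hA, hA2⟩, hB.trans sdiff_subset, hB2⟩, (disjoint_of_subset_left hB
      sdiff_disjoint).symm⟩
  exact_mod_cast this

lemma QA1_core (hNR2 : MP_9999b5_sp.Stmt_NR2) (hRBZ : MP_9999b5_sp.Stmt_RBZ)
    (hEXG : MP_9999b5_sp.Stmt_EXG) (hSC1 : Stmt_SC1)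
    (k T : ℕ) (ψ : ℝ) (hT : 1 ≤ T) (hTk : 2 * T ≤ k)
    (hW : Pool.Agent.Work.MaxSums.W T k ψ)
    (hcase : (7 * T ≤ 2 * k ∧ 217 / 1217 ≤ ψ) ∨ (3 * T ≤ k ∧ 236 / 1236 ≤ ψ) ∨
      (5 * T ≤ 2 * k ∧ 217 / 1000 ≤ ψ) ∨ 236 / 1000 ≤ ψ)
    {ι : Type} [DecidableEq ι] (C : Finset ι)
    (x : ι → ℝ) (hC : C.card = 2 * k + T) (hx : Set.InjOn x C) (hc : 0 ≤ ∑ i ∈ C, x i) :
    ∃ q w : ℝ, 0 ≤ q ∧
      (MP_9999b5_mr.bad C x k : ℝ) = q * ((MP_9999b5_mr.prs C k).card : ℝ) ∧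
      (MP_9999b5_mr.hvy C x k : ℝ) = w * ((MP_9999b5_mr.prs C k).card : ℝ) ∧
      2 * (217 / 1217) * q ≤ 1 - w ∧ q ≤ 66 / 125 := by
  have hk : 1 ≤ k := by omega
  obtain ⟨w, q, r, hq, hqw, hw, hr, hrw, e1, e2, e3, h⟩ := hNR2 ι C x k T hk hC
  have hk0 : (1 : ℝ) ≤ k := by exact_mod_cast hk
  have hT0 : (1 : ℝ) ≤ T := by exact_mod_cast hT
  have hM : (0 : ℝ) < 2 * k + T := by linarith
  obtain ⟨t, ht⟩ : ∃ t : ℝ, t = (T : ℝ) / (2 * k + T) := ⟨_, rfl⟩
  have ht0 : 0 < t := by rw [ht]; positivity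
  have ht1 : t < 1 := by
    rw [ht, div_lt_one hM]
    linarith
  have f1 : t / (2 * (1 + t)) = (T : ℝ) / (4 * (k + T)) := by
    rw [ht]
    field_simp
    ring
  have f2 : t / (2 * (1 - t)) = (T : ℝ) / (4 * k) := by
    have h1t : 1 - t = 2 * k / (2 * k + T) := by
      rw [ht]
      field_simp
      ring
    rw [h1t, ht]
    field_simp
    ring
  have h1 := hRBZ t w q r ht0 ht1 hq hqw hw hr hrw (by rw [f1, f2]; exact h)
  have hN0 := QA1_prs_pos k T C hC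
  have h2 := hEXG k T ψ hk (by omega) hW ι C x hC hx hc
  rw [e1, e2, e3] at h2
  have h3 : 2 * ψ * q + r + w ≤ 1 := by
    have h4 : (2 * ψ * q + r + w) * ((MP_9999b5_mr.prs C k).card : ℝ) ≤
        1 * ((MP_9999b5_mr.prs C k).card : ℝ) := by
      rw [one_mul]
      have a1 : (2 * ψ * q + r + w) * ((MP_9999b5_mr.prs C k).card : ℝ) =
          2 * ψ * (q * ((MP_9999b5_mr.prs C k).card : ℝ)) +
            r * ((MP_9999b5_mr.prs C k).card : ℝ) + w * ((MP_9999b5_mr.prs C k).card : ℝ) := by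
        ring
      rw [a1]
      exact h2
    exact le_of_mul_le_mul_right h4 hN0
  have hψ : 217 / 1217 ≤ ψ := by
    rcases hcase with ⟨_, h⟩ | ⟨_, h⟩ | ⟨_, h⟩ | h
    · exact h
    · exact le_trans (by norm_num) h
    · exact le_trans (by norm_num) h
    · exact le_trans (by norm_num) h
  have h5 : 2 * ψ * q ≤ 1 - w := by linarith
  refine ⟨q, w, hq, e1, e2, ?_, ?_⟩
  · have h6 : 0 ≤ (ψ - 217 / 1217) * q := mul_nonneg (by linarith) hq
    linarith
  · apply hSC1 t ψ q (1 - w) ht0 hq (hqw.trans hw) h5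
    · nlinarith
    · rcases hcase with ⟨g, h⟩ | ⟨g, h⟩ | ⟨g, h⟩ | h
      · refine Or.inl ⟨?_, h⟩
        have g' : (7 : ℝ) * T ≤ 2 * k := by exact_mod_cast g
        rw [ht, div_le_div_iff₀ hM (by norm_num)]
        linarith
      · refine Or.inr (Or.inl ⟨?_, h⟩)
        have g' : (3 : ℝ) * T ≤ k := by exact_mod_cast g
        rw [ht, div_le_div_iff₀ hM (by norm_num)]
        linarith
      · refine Or.inr (Or.inr (Or.inl ⟨?_, h⟩))
        have g' : (5 : ℝ) * T ≤ 2 * k := by exact_mod_cast g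
        rw [ht, div_le_div_iff₀ hM (by norm_num)]
        linarith
      · refine Or.inr (Or.inr (Or.inr ⟨?_, h⟩))
        have g' : (2 : ℝ) * T ≤ k := by exact_mod_cast hTk
        rw [ht, div_le_div_iff₀ hM (by norm_num)]
        linarith

/-- QA1. -/
theorem p_QA1 : MP_9999b5_sp.Stmt_NR2 → MP_9999b5_sp.Stmt_RBZ → MP_9999b5_sp.Stmt_EXG →
    Stmt_SC1 → Stmt_QA1 := by
  intro hNR2 hRBZ hEXG hSC1 k T ψ hT hTk hW hcase
  have hk0 : (1 : ℝ) ≤ k := by
    have : 1 ≤ k := by omega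
    exact_mod_cast this
  have hT0 : (1 : ℝ) ≤ T := by exact_mod_cast hT
  have hTk' : (2 : ℝ) * T ≤ k := by exact_mod_cast hTk
  constructor
  · intro ι _ C x hC hx hc
    obtain ⟨q, w, h0, h1, h2, h3, h4⟩ :=
      QA1_core hNR2 hRBZ hEXG hSC1 k T ψ hT hTk hW hcase C x hC hx hc
    rw [h1]
    exact mul_le_mul_of_nonneg_right h4 (Nat.cast_nonneg _)
  · intro ι _ C x hC hx hc
    obtain ⟨q, w, h0, h1, h2, h3, h4⟩ :=
      QA1_core hNR2 hRBZ hEXG hSC1 k T ψ hT hTk hW hcase C x hC hx hc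
    rw [h1, h2]
    have h5 : 4 * (2 * (k : ℝ) + T) * (17 / 10) * q ≤
        (12 * (k : ℝ) + 5 * T) * (2 - w - q) := by
      have h6 : (12 * (k : ℝ) + 5 * T) * (1 + 2 * (217 / 1217) * q - q) ≤
          (12 * (k : ℝ) + 5 * T) * (2 - w - q) := by
        apply mul_le_mul_of_nonneg_left _ (by positivity)
        linarith
      have h7 : (4 * (2 * (k : ℝ) + T) * (17 / 10) +
          (12 * (k : ℝ) + 5 * T) * (1 - 2 * (217 / 1217))) * q ≤
          (4 * (2 * (k : ℝ) + T) * (17 / 10) +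
          (12 * (k : ℝ) + 5 * T) * (1 - 2 * (217 / 1217))) * (66 / 125) := by
        apply mul_le_mul_of_nonneg_left h4
        have : (0 : ℝ) ≤ 1 - 2 * (217 / 1217) := by norm_num
        positivity
      have h8 : (4 * (2 * (k : ℝ) + T) * (17 / 10) +
          (12 * (k : ℝ) + 5 * T) * (1 - 2 * (217 / 1217))) * (66 / 125) ≤
          12 * (k : ℝ) + 5 * T := by
        linarith
      linarith
    have h9 := mul_le_mul_of_nonneg_right h5
      (Nat.cast_nonneg (MP_9999b5_mr.prs C k).card : (0 : ℝ) ≤ _)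
    linarith

end Pool.Agent.Work.MP_9999b5_mf
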