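import Pool.Agent.Work.MP_9999b5_mf.Interface

/-! # Block QA2 (helper21) -/

set_option autoImplicit false

namespace Pool.Agent.Work.MP_9999b5_mf

open Finset

lemma QA2_core (hNR2 : MP_9999b5_sp.Stmt_NR2) (hRBZ : MP_9999b5_sp.Stmt_RBZ) (hRST : Stmt_RST)
    (k T : ℕ) (φ : ℝ) (hk : 1 ≤ k) (hT : 1 ≤ T) (hφ0 : 0 ≤ φ) (hφ1 : φ ≤ 1)
    (hW : Pool.Agent.Work.MaxSums.W T (k + T) φ) {ι : Type} [DecidableEq ι] (C : Finset ι)
    (x : ι → ℝ) (hC : C.card = 2 * k + T) (hx : Set.InjOn x C) (hc : 0 ≤ ∑ i ∈ C, x i) :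
    ∃ q l : ℝ, 0 ≤ q ∧ q ≤ 1 ∧
      (MP_9999b5_mr.bad C x k : ℝ) = q * ((MP_9999b5_mr.prs C k).card : ℝ) ∧
      (MP_9999b5_mr.hvy C x k : ℝ) = (1 - l) * ((MP_9999b5_mr.prs C k).card : ℝ) ∧
      lowR k T φ q ≤ l ∧
      ((2 * (k : ℝ) + T) ^ 2 * q ^ 2 - T * (2 * k + 2 * T) * q + T * (2 * k + T)) * l ≤
        T * (1 - q) * ((2 * k + T) - T * q) := by
  obtain ⟨w, q, r, hq, hqw, hw, hr, hrw, e1, e2, e3, h⟩ := hNR2 ι C x k T hk hC
  have hk0 : (1 : ℝ) ≤ k := by exact_mod_cast hk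
  have hT0 : (1 : ℝ) ≤ T := by exact_mod_cast hT
  have hm : (0 : ℝ) < k + T - 1 := by linarith
  have hkT : (0 : ℝ) < k + T := by linarith
  have h2k : (0 : ℝ) < 2 * k + 1 := by linarith
  have hM : (0 : ℝ) < 2 * k + T := by linarith
  obtain ⟨t, ht⟩ : ∃ t : ℝ, t = (T : ℝ) / (2 * k + T) := ⟨_, rfl⟩
  have ht0 : 0 < t := by rw [ht]; positivity
  have ht1 : t < 1 := by
    rw [ht, div_lt_one hM]
    linarith
  have htM : t * (2 * k + T) = T := by rw [ht]; field_simp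
  have f1 : t / (2 * (1 + t)) = (T : ℝ) / (4 * (k + T)) := by
    rw [ht]
    field_simp
    ring
  have f2 : t / (2 * (1 - t)) = (T : ℝ) / (4 * k) := by
    have h1t : 1 - t = 2 * k / (2 * k + T) := by
      rw [ht]
      field_simp
      ring
    rw [h1t, ht]
    field_simp
    ring
  have h1 := hRBZ t w q r ht0 ht1 hq hqw hw hr hrw (by rw [f1, f2]; exact h)
  have hN0 : (0 : ℝ) < ((MP_9999b5_mr.prs C k).card : ℝ) := by
    have : 0 < (MP_9999b5_mr.prs C k).card := by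
      apply card_pos.2
      obtain ⟨A, hA, hA2⟩ := exists_subset_card_eq (s := C) (n := k) (by omega)
      obtain ⟨B, hB, hB2⟩ := exists_subset_card_eq (s := C \ A) (n := k) (by
        rw [card_sdiff_of_subset hA]
        omega)
      refine ⟨(A, B), ?_⟩
      unfold MP_9999b5_mr.prs
      rw [mem_filter, mem_product, mem_powersetCard, mem_powersetCard]
      exact ⟨⟨⟨hA, hA2⟩, hB.trans sdiff_subset, hB2⟩, (disjoint_of_subset_left hB
        sdiff_disjoint).symm⟩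
    exact_mod_cast this
  have h2 := hRST k T φ hk hT hφ0 hW ι C x hC hx hc
  rw [e1, e2, e3] at h2
  obtain ⟨N, hN⟩ : ∃ N : ℝ, N = ((MP_9999b5_mr.prs C k).card : ℝ) := ⟨_, rfl⟩
  rw [← hN] at h2 hN0
  have h3 : φ * (1 + q - r) ≤ (1 - w - r) + (T : ℝ) / (k + T) * (w - q) +
      (T : ℝ) * k / ((k + T) * (k + T - 1) * (2 * k + 1)) := by
    have h4 : φ * (1 + q - r) * N ≤ ((1 - w - r) + (T : ℝ) / (k + T) * (w - q) +
      (T : ℝ) * k / ((k + T) * (k + T - 1) * (2 * k + 1))) * N := by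
      have a1 : φ * (1 + q - r) * N = φ * (N + q * N - r * N) := by ring
      have a2 : ((1 - w - r) + (T : ℝ) / (k + T) * (w - q) +
        (T : ℝ) * k / ((k + T) * (k + T - 1) * (2 * k + 1))) * N =
        N - w * N - r * N + (T : ℝ) / (k + T) * (w * N - q * N) +
        (T : ℝ) * k / ((k + T) * (k + T - 1) * (2 * k + 1)) * N := by ring
      rw [a1, a2]
      exact h2
    exact le_of_mul_le_mul_right h4 hN0
  refine ⟨q, 1 - w, hq, hqw.trans hw, e1, by rw [e2]; ring, ?_, ?_⟩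
  · unfold lowR
    -- multiply by `k / (k + T)`
    have h5 : φ * (1 + q) ≤ (1 - w) + (T : ℝ) / (k + T) * (w - q) +
        (T : ℝ) * k / ((k + T) * (k + T - 1) * (2 * k + 1)) := by
      nlinarith [mul_nonneg hr (sub_nonneg.2 hφ1)]
    have h6 : (1 + (T : ℝ) / k) * φ * (1 + q) - (T : ℝ) / k * (1 - q) -
        (T : ℝ) / ((k + T - 1) * (2 * k + 1)) =
        ((k + T) * (φ * (1 + q)) - T * (1 - q) -
          (T : ℝ) * k / ((k + T - 1) * (2 * k + 1))) / k := by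
      field_simp
    rw [h6, div_le_iff₀ (by linarith)]
    have h7 := mul_le_mul_of_nonneg_left h5 hkT.le
    have h8 : (k + T : ℝ) * ((1 - w) + (T : ℝ) / (k + T) * (w - q) +
        (T : ℝ) * k / ((k + T) * (k + T - 1) * (2 * k + 1))) =
        (k + T) * (1 - w) + T * (w - q) + (T : ℝ) * k / ((k + T - 1) * (2 * k + 1)) := by
      field_simp
    rw [h8] at h7
    linarith
  · have h9 : (q ^ 2 - t * (1 + t) * q + t) * (1 - w) ≤ t * (1 - q) * (1 - t * q) := by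
      nlinarith
    have h10 := mul_le_mul_of_nonneg_left h9 (by positivity : (0 : ℝ) ≤ (2 * (k : ℝ) + T) ^ 2)
    have g1 : (2 * (k : ℝ) + T) ^ 2 * ((q ^ 2 - t * (1 + t) * q + t) * (1 - w)) =
        ((2 * (k : ℝ) + T) ^ 2 * q ^ 2 - T * (2 * k + 2 * T) * q + T * (2 * k + T)) *
          (1 - w) := by
      have g2 : (2 * (k : ℝ) + T) ^ 2 * (t * (1 + t)) =
          (t * (2 * k + T)) * ((2 * k + T) + t * (2 * k + T)) := by ring
      have g3 : (2 * (k : ℝ) + T) ^ 2 * t = (t * (2 * k + T)) * (2 * k + T) := by ring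
      rw [htM] at g2 g3
      linear_combination (-(q * (1 - w))) * g2 + (1 - w) * g3
    have g4 : (2 * (k : ℝ) + T) ^ 2 * (t * (1 - q) * (1 - t * q)) =
        T * (1 - q) * ((2 * k + T) - T * q) := by
      have g5 : (2 * (k : ℝ) + T) ^ 2 * (t * (1 - q) * (1 - t * q)) =
        (t * (2 * k + T)) * (1 - q) * ((2 * k + T) - (t * (2 * k + T)) * q) := by ring
      rw [g5, htM]
    rw [g1, g4] at h10
    exact h10

/-- QA2. -/
theorem p_QA2 : MP_9999b5_sp.Stmt_NR2 → MP_9999b5_sp.Stmt_RBZ → Stmt_RST → Stmt_SC2 →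
    Stmt_SC3 → Stmt_SC4 → Stmt_QA2 := by
  intro hNR2 hRBZ hRST hSC2 hSC3 hSC4 k T φ hkT hTk hW hcase
  have hk : 1 ≤ k := by omega
  have hT : 1 ≤ T := by omega
  have hmono : ∀ ψ : ℝ, ψ ≤ φ → Pool.Agent.Work.MaxSums.W T (k + T) ψ := by
    intro ψ hψ ι _ A x hA hx hs
    exact (mul_le_mul_of_nonneg_right hψ (Nat.cast_nonneg _)).trans (hW ι A x hA hx hs)
  have main : ∀ (ι : Type) [DecidableEq ι] (C : Finset ι) (x : ι → ℝ),
      C.card = 2 * k + T → Set.InjOn x C → 0 ≤ ∑ i ∈ C, x i →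
      ∃ q l : ℝ, (MP_9999b5_mr.bad C x k : ℝ) = q * ((MP_9999b5_mr.prs C k).card : ℝ) ∧
      (MP_9999b5_mr.hvy C x k : ℝ) = (1 - l) * ((MP_9999b5_mr.prs C k).card : ℝ) ∧
      q ≤ 283 / 500 ∧ 4 * (2 * (k : ℝ) + T) * (17 / 10) * q ≤
        (12 * (k : ℝ) + 5 * T) * (1 + l - q) := by
    intro ι _ C x hC hx hc
    rcases hcase with ⟨c1, c2, c3⟩ | ⟨c1, c2⟩ | ⟨c1, c2, c3⟩
    · obtain ⟨q, l, h1, h2, h3, h4, h5, h6⟩ := QA2_core hNR2 hRBZ hRST k T (217 / 1000) hk hT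
        (by norm_num) (by norm_num) (hmono _ c2) C x hC hx hc
      exact ⟨q, l, h3, h4, hSC2 k T q l c3 hkT c1 h1 h2 h5 h6⟩
    · obtain ⟨q, l, h1, h2, h3, h4, h5, h6⟩ := QA2_core hNR2 hRBZ hRST k T (236 / 1000) hk hT
        (by norm_num) (by norm_num) (hmono _ c2) C x hC hx hc
      exact ⟨q, l, h3, h4, hSC3 k T q l (by omega) c1 h1 h2 h5 h6⟩
    · obtain ⟨q, l, h1, h2, h3, h4, h5, h6⟩ := QA2_core hNR2 hRBZ hRST k T (1 / 4) hk hT
        (by norm_num) (by norm_num) (hmono _ c3) C x hC hx hc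
      subst c1 c2
      obtain ⟨h7, h8⟩ := hSC4 q l h1 h2 h5 (by
        push_cast at h6
        linarith)
      refine ⟨q, l, h3, h4, h7, ?_⟩
      push_cast
      linarith
  constructor
  · intro ι _ C x hC hx hc
    obtain ⟨q, l, h1, h2, h3, h4⟩ := main ι C x hC hx hc
    rw [h1]
    exact mul_le_mul_of_nonneg_right h3 (Nat.cast_nonneg _)
  · intro ι _ C x hC hx hc
    obtain ⟨q, l, h1, h2, h3, h4⟩ := main ι C x hC hx hc
    rw [h1, h2]
    have h5 := mul_le_mul_of_nonneg_right h4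
      (Nat.cast_nonneg (MP_9999b5_mr.prs C k).card : (0 : ℝ) ≤ _)
    linarith

end Pool.Agent.Work.MP_9999b5_mf

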