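import Pool.Agent.Work.MP_9999b5_mf.Interface

set_option autoImplicit false

namespace Pool.Agent.Work.MP_9999b5_mf

open Finset
open Pool.Agent.Work.MP_9999b5_mr (prs bad hvy al)
open Pool.Agent.Work.MP_9999b5_sp (pp)
open Pool.Agent.Work.MaxSums (W pos)

theorem QBW_mem {ι : Type} [DecidableEq ι] (C : Finset ι) (k : ℕ) (p : Finset ι × Finset ι) :
    p ∈ prs C k ↔ (p.1 ⊆ C ∧ p.1.card = k) ∧ (p.2 ⊆ C ∧ p.2.card = k) ∧ Disjoint p.1 p.2 := by
  unfold Pool.Agent.Work.MP_9999b5_mr.prs
  rw [Finset.mem_filter, Finset.mem_product, Finset.mem_powersetCard, Finset.mem_powersetCard,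
    and_assoc]

theorem QBW_count {ι : Type} [DecidableEq ι] (C : Finset ι) (k : ℕ) (P : Finset ι → Prop)
    [DecidablePred P] :
    ((prs C k).filter (fun p => P p.2)).card =
      ((C.powersetCard k).filter P).card * (C.card - k).choose k := by
  have hmap : ∀ p ∈ (prs C k).filter (fun p => P p.2), p.2 ∈ (C.powersetCard k).filter P := by
    intro p hp
    rw [Finset.mem_filter, QBW_mem] at hp
    rw [Finset.mem_filter, Finset.mem_powersetCard]
    exact ⟨hp.1.2.1, hp.2⟩
  rw [Finset.card_eq_sum_card_fiberwise (f := Prod.snd) (t := (C.powersetCard k).filter P) hmap]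
  apply Finset.sum_const_nat
  intro B hB
  rw [Finset.mem_filter, Finset.mem_powersetCard] at hB
  have h1 : (C \ B).card = C.card - k := by
    rw [Finset.card_sdiff_of_subset hB.1.1, hB.1.2]
  rw [← h1, ← Finset.card_powersetCard]
  refine Finset.card_bij' (fun p _ => p.1) (fun A _ => (A, B)) ?_ ?_ ?_ ?_
  · intro p hp
    rw [Finset.mem_filter, Finset.mem_filter, QBW_mem] at hp
    obtain ⟨⟨⟨h2, h3, h4⟩, _⟩, h6⟩ := hp
    rw [Finset.mem_powersetCard, Finset.subset_sdiff]
    rw [h6] at h4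
    exact ⟨⟨h2.1, h4⟩, h2.2⟩
  · intro A hA
    rw [Finset.mem_powersetCard, Finset.subset_sdiff] at hA
    rw [Finset.mem_filter, Finset.mem_filter, QBW_mem]
    exact ⟨⟨⟨⟨hA.1.1, hA.2⟩, hB.1, hA.1.2⟩, hB.2⟩, rfl⟩
  · intro p hp
    rw [Finset.mem_filter] at hp
    exact Prod.ext rfl hp.2.symm
  · intro A _
    rfl

theorem p_QBW : Stmt_SYM → Stmt_QBW := by
  intro hSYM k T Q hk hQB ι _ A x hA hinj hx
  have h1 := (hSYM ι A x k).1
  have h2 := hQB ι A x hA hinj hx
  have h3 : ((prs A k).filter (fun p => ∑ i ∈ p.2, x i ≤ 0)).card =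
      ((A.powersetCard k).filter (fun B => ∑ i ∈ B, x i ≤ 0)).card * (A.card - k).choose k :=
    QBW_count A k (fun B => ∑ i ∈ B, x i ≤ 0)
  have h4 : (prs A k).card = A.card.choose k * (A.card - k).choose k := by
    have h5 := QBW_count A k (fun _ => True)
    rw [Finset.filter_true_of_mem (fun _ _ => trivial),
      Finset.filter_true_of_mem (fun _ _ => trivial), Finset.card_powersetCard] at h5
    exact h5
  have h5 : pos x A k + ((A.powersetCard k).filter (fun B => ∑ i ∈ B, x i ≤ 0)).card =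
      A.card.choose k := by
    unfold Pool.Agent.Work.MaxSums.pos
    rw [← Finset.card_powersetCard, ← Finset.card_filter_add_card_filter_not
      (s := A.powersetCard k) (fun S => 0 < ∑ i ∈ S, x i)]
    congr 1
    apply congrArg
    apply Finset.filter_congr
    intro S _
    exact not_lt.symm
  have hX : 0 < (A.card - k).choose k := Nat.choose_pos (by omega)
  have hX' : (0 : ℝ) < ((A.card - k).choose k : ℝ) := by exact_mod_cast hX
  have h1' : 2 * (((A.powersetCard k).filter (fun B => ∑ i ∈ B, x i ≤ 0)).card : ℝ) *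
      ((A.card - k).choose k : ℝ) + (pp A x k : ℝ) = ((prs A k).card : ℝ) + (bad A x k : ℝ) := by
    have h6 : 2 * (((A.powersetCard k).filter (fun B => ∑ i ∈ B, x i ≤ 0)).card *
        (A.card - k).choose k) + pp A x k = (prs A k).card + bad A x k := by
      rw [← h3]
      exact h1
    have h7 := congrArg (fun n : ℕ => (n : ℝ)) h6
    push_cast at h7
    linarith
  have h4' : ((prs A k).card : ℝ) = (A.card.choose k : ℝ) * ((A.card - k).choose k : ℝ) := by
    rw [h4]
    push_cast
    ring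
  have h5' : (pos x A k : ℝ) + (((A.powersetCard k).filter (fun B => ∑ i ∈ B, x i ≤ 0)).card : ℝ) =
      (A.card.choose k : ℝ) := by
    exact_mod_cast h5
  have hpp : (0 : ℝ) ≤ (pp A x k : ℝ) := Nat.cast_nonneg _
  have hA' : ((2 * k + T).choose k : ℝ) = (A.card.choose k : ℝ) := by rw [hA]
  rw [hA']
  have h8 : ((A.card - k).choose k : ℝ) * (2 *
      (((A.powersetCard k).filter (fun B => ∑ i ∈ B, x i ≤ 0)).card : ℝ)) ≤
      ((A.card - k).choose k : ℝ) * ((1 + Q) * (A.card.choose k : ℝ)) := by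
    rw [h4'] at h1' h2
    nlinarith
  have h9 := le_of_mul_le_mul_left h8 hX'
  have h10 : (((A.powersetCard k).filter (fun B => ∑ i ∈ B, x i ≤ 0)).card : ℝ) =
      (A.card.choose k : ℝ) - (pos x A k : ℝ) := by linarith
  rw [h10] at h9
  linarith

end Pool.Agent.Work.MP_9999b5_mf
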