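import Pool.Agent.Work.MP_9999b5_mf.Interface

/-!
MP_9999b5_co (Manickam-Miklos-Singhi), full conjecture, block QLB: (QL) with the factor `17/10` from the bound `q ≤ 283/500`.
-/

set_option autoImplicit false

namespace Pool.Agent.Work.MP_9999b5_mf

open Finset
open Pool.Agent.Work.MP_9999b5_mr (prs bad hvy al)
open Pool.Agent.Work.MP_9999b5_sp (pp)

theorem p_QLB : MP_9999b5_sp.Stmt_NR2 → MP_9999b5_sp.Stmt_RBZ → Stmt_SC5 → Stmt_QLB := by
  intro hNR hRB hSC k T hT hTk hQ ι _ C x hC hx hc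
  obtain ⟨w, q, r, hq0, hqw, hw1, hr0, hrw, eb, eh, ep, ineq⟩ := hNR ι C x k T (by omega) hC
  have hb := hQ ι C x hC hx hc
  have hk : (0 : ℝ) < k := by exact_mod_cast (by omega : 0 < k)
  have hT0 : (0 : ℝ) < T := by exact_mod_cast hT
  have hTk' : (T : ℝ) ≤ k := by exact_mod_cast hTk
  have hN0 : (0 : ℝ) ≤ ((prs C k).card : ℝ) := Nat.cast_nonneg _
  rw [eb] at hb
  rw [eb, eh]
  generalize ((prs C k).card : ℝ) = N at hb hN0 ⊢
  rcases hN0.lt_or_eq with hN | hN
  · have hm : (0 : ℝ) < 2 * (k : ℝ) + T := by positivity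
    have hqQ : q ≤ 283 / 500 := le_of_mul_le_mul_right hb hN
    have h1 : (0 : ℝ) < (T : ℝ) / (2 * k + T) := by positivity
    have h2 : (T : ℝ) / (2 * k + T) ≤ 1 / 3 := by
      rw [div_le_div_iff₀ hm (by norm_num)]
      linarith
    have e1 : (T : ℝ) / (2 * k + T) / (2 * (1 + (T : ℝ) / (2 * k + T))) =
        (T : ℝ) / (4 * (k + T)) := by
      have h3 : 1 + (T : ℝ) / (2 * k + T) = 2 * (k + T) / (2 * k + T) := by
        field_simp
        ring
      rw [h3]
      field_simp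
      ring
    have e2 : (T : ℝ) / (2 * k + T) / (2 * (1 - (T : ℝ) / (2 * k + T))) = (T : ℝ) / (4 * k) := by
      have h3 : 1 - (T : ℝ) / (2 * k + T) = 2 * k / (2 * k + T) := by
        field_simp
        ring
      rw [h3]
      field_simp
      ring
    have h3 := hRB ((T : ℝ) / (2 * k + T)) w q r h1 (by linarith) hq0 hqw hw1 hr0 hrw
      (by rw [e1, e2]; exact ineq)
    have h4 := hSC ((T : ℝ) / (2 * k + T)) w q h1 h2 hq0 hqw hw1 hqQ h3
    have h5 : (2 * (k : ℝ) + T) * ((T : ℝ) / (2 * k + T)) = T := by field_simp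
    have h6 : 0 ≤ (2 * (k : ℝ) + T) * N := by positivity
    have h7 := mul_le_mul_of_nonneg_right h4 h6
    linear_combination (1 / 10) * h7 + N * h5
  · rw [← hN]
    simp

end Pool.Agent.Work.MP_9999b5_mf
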