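import Pool.Agent.Work.MP_9999b5_mf.Interface

set_option autoImplicit false

namespace Pool.Agent.Work.MP_9999b5_mf

open Finset
open Pool.Agent.Work.MP_9999b5_mr (prs)

theorem QSW_mem {ι : Type} [DecidableEq ι] (V : Finset ι) (k : ℕ) (a b c d : Finset ι) :
    ((a, b) ∈ prs V k ∧ (c, d) ∈ prs (V \ (a ∪ b)) k) ↔
      ((a ⊆ V ∧ b ⊆ V ∧ c ⊆ V ∧ d ⊆ V) ∧ (a.card = k ∧ b.card = k ∧ c.card = k ∧ d.card = k) ∧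
        (Disjoint a b ∧ Disjoint a c ∧ Disjoint a d ∧ Disjoint b c ∧ Disjoint b d ∧
          Disjoint c d)) := by
  unfold prs
  simp only [mem_filter, mem_product, mem_powersetCard, subset_sdiff, disjoint_union_right]
  constructor
  · rintro ⟨⟨⟨⟨h1, h2⟩, h3, h4⟩, h5⟩, ⟨⟨⟨h6, h7, h8⟩, h9⟩, ⟨h10, h11, h12⟩, h13⟩, h14⟩
    exact ⟨⟨h1, h3, h6, h10⟩, ⟨h2, h4, h9, h13⟩, h5, h7.symm, h11.symm, h8.symm, h12.symm, h14⟩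
  · rintro ⟨⟨h1, h3, h6, h10⟩, ⟨h2, h4, h9, h13⟩, h5, h7, h11, h8, h12, h14⟩
    exact ⟨⟨⟨⟨h1, h2⟩, h3, h4⟩, h5⟩, ⟨⟨⟨h6, h7.symm, h8.symm⟩, h9⟩, ⟨h10, h11.symm, h12.symm⟩, h13⟩,
      h14⟩

theorem QSW_swap {ι : Type} [DecidableEq ι] (V : Finset ι) (k : ℕ) (a b c d : Finset ι)
    (h : (a, b) ∈ prs V k ∧ (c, d) ∈ prs (V \ (a ∪ b)) k) :
    (a, c) ∈ prs V k ∧ (b, d) ∈ prs (V \ (a ∪ c)) k := by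
  rw [QSW_mem] at h ⊢
  obtain ⟨⟨h1, h3, h6, h10⟩, ⟨h2, h4, h9, h13⟩, h5, h7, h11, h8, h12, h14⟩ := h
  exact ⟨⟨h1, h6, h3, h10⟩, ⟨h2, h9, h4, h13⟩, h7, h5, h11, h8.symm, h14, h12⟩

theorem p_QSW : Stmt_QSW := by
  intro ι _ V k F
  rw [Finset.sum_sigma', Finset.sum_sigma']
  refine Finset.sum_nbij'
    (fun s => (⟨(s.1.1, s.2.1), (s.1.2, s.2.2)⟩ : (_ : Finset ι × Finset ι) × (Finset ι × Finset ι)))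
    (fun s => (⟨(s.1.1, s.2.1), (s.1.2, s.2.2)⟩ : (_ : Finset ι × Finset ι) × (Finset ι × Finset ι)))
    ?_ ?_ ?_ ?_ ?_
  · rintro ⟨⟨a, b⟩, ⟨c, d⟩⟩ hs
    rw [Finset.mem_sigma] at hs ⊢
    exact QSW_swap V k a b c d hs
  · rintro ⟨⟨a, b⟩, ⟨c, d⟩⟩ hs
    rw [Finset.mem_sigma] at hs ⊢
    exact QSW_swap V k a b c d hs
  · rintro ⟨⟨a, b⟩, ⟨c, d⟩⟩ hs
    rfl
  · rintro ⟨⟨a, b⟩, ⟨c, d⟩⟩ hs
    rfl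
  · rintro ⟨⟨a, b⟩, ⟨c, d⟩⟩ hs
    rfl

end Pool.Agent.Work.MP_9999b5_mf
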