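import Pool.Agent.Work.MP_9999b5_mf.Interface

/-! Block QUD of `mmf_blocks` (helper5): products of numbers of halvings as sums over 4-tuples. -/

set_option autoImplicit false

namespace Pool.Agent.Work.MP_9999b5_mf

open Finset
open Pool.Agent.Work.MP_9999b5_mr (prs bad hvy al)

theorem p_QUD : Stmt_PAR → Stmt_SSC → Stmt_QUD := by
  intro hPAR hSSC ι _ V k f g
  rw [(hSSC ι V k _ _).1]
  have h1 : ∑ p ∈ prs V k, ∑ z ∈ prs (V \ (p.1 ∪ p.2)) k, f p.1 p.2 * g z.1 z.2 =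
      ∑ U ∈ V.powersetCard (2 * k), ∑ B ∈ U.powersetCard k,
        ∑ z ∈ prs (V \ (B ∪ (U \ B))) k, f B (U \ B) * g z.1 z.2 :=
    hPAR ι V k (fun B B' => ∑ z ∈ prs (V \ (B ∪ B')) k, f B B' * g z.1 z.2)
  rw [h1]
  refine Finset.sum_congr rfl fun U _ => ?_
  rw [Finset.sum_mul]
  refine Finset.sum_congr rfl fun B hB => ?_
  have hBU : B ⊆ U := (Finset.mem_powersetCard.1 hB).1
  have hu : B ∪ (U \ B) = U := Finset.union_sdiff_of_subset hBU
  rw [hu, ← Finset.mul_sum]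
  congr 1
  exact (hPAR ι (V \ U) k g).symm

end Pool.Agent.Work.MP_9999b5_mf
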