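import Pool.Agent.Work.MP_9999b5_mf.Interface

/-!
RDL (MP_9999b5_co, typed by helper53): the reduction with a factor `L`.
-/

set_option autoImplicit false

namespace Pool.Agent.Work.MP_9999b5_mf

open Finset
open Pool.Agent.Work.MP_9999b5_mr (prs bad hvy al)
open Pool.Agent.Work.MP_9999b5_sp (pp)
open Pool.Agent.Work.MaxSums (W pos)

lemma RDL_sup {ι : Type} [DecidableEq ι] (V B : Finset ι) (k : ℕ) (hB : B ⊆ V)
    (hBk : B.card = k) :
    ((V.powersetCard (2 * k)).filter (fun U => B ⊆ U)).card = (V.card - k).choose k := by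
  have h1 : (V.card - k).choose k = ((V \ B).powersetCard k).card := by
    rw [card_powersetCard, card_sdiff_of_subset hB, hBk]
  rw [h1]
  refine card_nbij' (fun U => U \ B) (fun D => B ∪ D) ?_ ?_ ?_ ?_
  · intro U hU
    obtain ⟨h2, h3⟩ := mem_filter.1 (mem_coe.1 hU)
    obtain ⟨h4, h5⟩ := mem_powersetCard.1 h2
    refine mem_coe.2 (mem_powersetCard.2 ⟨sdiff_subset_sdiff h4 subset_rfl, ?_⟩)
    rw [card_sdiff_of_subset h3]
    omega
  · intro D hD
    obtain ⟨h2, h3⟩ := mem_powersetCard.1 (mem_coe.1 hD)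
    obtain ⟨h4, h5⟩ := subset_sdiff.1 h2
    refine mem_coe.2 (mem_filter.2 ⟨mem_powersetCard.2 ⟨union_subset hB h4, ?_⟩,
      subset_union_left⟩)
    rw [card_union_of_disjoint h5.symm]
    omega
  · intro U hU
    obtain ⟨h2, h3⟩ := mem_filter.1 (mem_coe.1 hU)
    exact union_sdiff_of_subset h3
  · intro D hD
    obtain ⟨h2, h3⟩ := mem_powersetCard.1 (mem_coe.1 hD)
    obtain ⟨h4, h5⟩ := subset_sdiff.1 h2
    exact union_sdiff_cancel_left h5.symm

lemma RDL_pos {ι : Type} [DecidableEq ι] (V : Finset ι) (x : ι → ℝ) (k : ℕ) :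
    ∑ U ∈ V.powersetCard (2 * k), pos x U k = pos x V k * (V.card - k).choose k := by
  unfold pos
  have h1 : ∀ U ∈ V.powersetCard (2 * k),
      ((U.powersetCard k).filter (fun B => 0 < ∑ i ∈ B, x i)).card =
        ∑ B ∈ (U.powersetCard k).filter (fun B => 0 < ∑ i ∈ B, x i), 1 := by
    intro U _
    rw [card_eq_sum_ones]
  rw [sum_congr rfl h1]
  rw [sum_comm' (t' := (V.powersetCard k).filter (fun B => 0 < ∑ i ∈ B, x i))
    (s' := fun B => (V.powersetCard (2 * k)).filter (fun U => B ⊆ U))]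
  · have h2 : ∀ B ∈ (V.powersetCard k).filter (fun B => 0 < ∑ i ∈ B, x i),
        ∑ _U ∈ (V.powersetCard (2 * k)).filter (fun U => B ⊆ U), 1 = (V.card - k).choose k := by
      intro B hB
      obtain ⟨h3, _⟩ := mem_filter.1 hB
      obtain ⟨h4, h5⟩ := mem_powersetCard.1 h3
      rw [← card_eq_sum_ones, RDL_sup V B k h4 h5]
    rw [sum_congr rfl h2, sum_const, smul_eq_mul]
  · intro U B
    simp only [mem_powersetCard, mem_filter]
    constructor
    · rintro ⟨⟨h2, h3⟩, ⟨h4, h5⟩, h6⟩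
      exact ⟨⟨⟨h2, h3⟩, h4⟩, ⟨h4.trans h2, h5⟩, h6⟩
    · rintro ⟨⟨⟨h2, h3⟩, h4⟩, ⟨_, h5⟩, h6⟩
      exact ⟨⟨h2, h3⟩, ⟨h4, h5⟩, h6⟩

lemma RDL_arith (k T L aa aM ab Mb bb abe gb : ℝ) (hk : 0 ≤ k) (hT : 0 ≤ T) (hMb : 0 ≤ Mb)
    (hbb : 0 ≤ bb)
    (h1 : (2 * k + T) * aa - T * (aa + aM + ab) ≤ L * (2 * k + T) * abe)
    (h2 : 4 * (2 * k + T) * L * abe ≤ (12 * k + 5 * T) * gb)
    (h3 : gb ≤ 4 * ab + 2 * Mb) :
    4 * k * (aa + 2 * aM + 2 * ab + 4 * ab + 2 * Mb + bb) ≤
      (4 * k + T) * (2 * (aM + 4 * ab + Mb + 2 * ab + 2 * Mb + 2 * bb)) := by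
  have h4 : (12 * k + 5 * T) * gb ≤ (12 * k + 5 * T) * (4 * ab + 2 * Mb) :=
    mul_le_mul_of_nonneg_left h3 (by positivity)
  have e1 := mul_nonneg hk hMb
  have e2 := mul_nonneg hT hMb
  have e3 := mul_nonneg hk hbb
  have e4 := mul_nonneg hT hbb
  nlinarith

theorem p_RDL : Stmt_AP2 → Stmt_SSC → Stmt_MM4 → Stmt_LC1 → Stmt_LC2 → Stmt_LC3 → Stmt_RDL := by
  intro hA2 hS hM4 hL1 hL2 hL3 k T L hk hL hQ hH ι _ V x hV hinj hsum
  have l1 := hL1 k T L hk hQ ι V x hV hinj hsum
  have l2 := hL2 k T L hk hH ι V x hV hinj hsum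
  have l3 := hL3 ι V x k
  have l4 := hM4 ι V x k
  set X : ℝ := ((2 * k).choose k : ℝ) with hX
  set a : Finset ι → ℝ := fun U => (al x k U : ℝ) with ha
  set b : Finset ι → ℝ := fun U => (ap x k U : ℝ) with hb
  have hprs : ∀ p ∈ prs V (2 * k), p.1.card = 2 * k ∧ p.2.card = 2 * k := by
    intro p hp
    unfold MP_9999b5_mr.prs at hp
    rw [mem_filter, mem_product] at hp
    exact ⟨(mem_powersetCard.mp hp.1.1).2, (mem_powersetCard.mp hp.1.2).2⟩
  -- the expansions
  have e1 : SS V k a (fun _ => X) = SS V k a a + SS V k a (mx x k) + SS V k a b := by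
    unfold SS
    rw [← sum_add_distrib, ← sum_add_distrib]
    refine sum_congr rfl ?_
    intro p _
    have : mx x k p.2 = X - a p.2 - b p.2 := rfl
    rw [this]
    ring
  have s1 : SS V k (mx x k) a = SS V k a (mx x k) := (hS ι V k _ _).2.2
  have s2 : SS V k b a = SS V k a b := (hS ι V k _ _).2.2
  have s3 : SS V k b (mx x k) = SS V k (mx x k) b := (hS ι V k _ _).2.2
  have e2 : SS V k (fun _ => X) (fun _ => X) = SS V k a a + 2 * SS V k a (mx x k) +
      2 * SS V k a b + SS V k (mx x k) (mx x k) + 2 * SS V k (mx x k) b + SS V k b b := by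
    have h : SS V k (fun _ => X) (fun _ => X) = SS V k a a + SS V k a (mx x k) + SS V k a b +
        (SS V k (mx x k) a + SS V k (mx x k) (mx x k) + SS V k (mx x k) b) +
        (SS V k b a + SS V k b (mx x k) + SS V k b b) := by
      unfold SS
      simp only [← sum_add_distrib]
      refine sum_congr rfl ?_
      intro p _
      have h1 : mx x k p.1 = X - a p.1 - b p.1 := rfl
      have h2 : mx x k p.2 = X - a p.2 - b p.2 := rfl
      rw [h1, h2]
      ring
    rw [h, s1, s2, s3]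
    ring
  have e3 : SS V k (fun U => 2 * (pos x U k : ℝ)) (fun _ => X) =
      SS V k a (mx x k) + SS V k (mx x k) (mx x k) + SS V k (mx x k) b + 2 * SS V k a b +
        2 * SS V k (mx x k) b + 2 * SS V k b b := by
    have h : SS V k (fun U => 2 * (pos x U k : ℝ)) (fun _ => X) =
        SS V k (mx x k) a + SS V k (mx x k) (mx x k) + SS V k (mx x k) b +
        2 * (SS V k b a + SS V k b (mx x k) + SS V k b b) := by
      unfold SS
      simp only [← sum_add_distrib, mul_sum]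
      refine sum_congr rfl ?_
      intro p hp
      have h1 : mx x k p.1 = X - a p.1 - b p.1 := rfl
      have h2 : mx x k p.2 = X - a p.2 - b p.2 := rfl
      have h3 := (hA2 ι p.1 x k (hprs p hp).1).2.2.2
      have h4 : X + b p.1 = a p.1 + 2 * (pos x p.1 k : ℝ) := by
        simp only [hX, ha, hb]
        exact_mod_cast h3
      have h5 : 2 * (pos x p.1 k : ℝ) = X - a p.1 + b p.1 := by linarith
      rw [h5, h1, h2]
      ring
    rw [h, s1, s2, s3]
    ring
  -- nonnegativity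
  have hMx : ∀ U : Finset ι, U.card = 2 * k → 0 ≤ mx x k U := by
    intro U hU
    have h3 := (hA2 ι U x k hU).2.2.1
    have h4 : (al x k U : ℝ) + (ap x k U : ℝ) ≤ ((2 * k).choose k : ℝ) := by exact_mod_cast h3
    unfold mx
    linarith
  have hMb : 0 ≤ SS V k (mx x k) b := by
    unfold SS
    refine sum_nonneg ?_
    intro p hp
    exact mul_nonneg (hMx p.1 (hprs p hp).1) (Nat.cast_nonneg _)
  have hbb : 0 ≤ SS V k b b := by
    unfold SS
    refine sum_nonneg ?_
    intro p _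
    exact mul_nonneg (Nat.cast_nonneg _) (Nat.cast_nonneg _)
  rw [e1] at l1
  rw [l4, s3] at l3
  have G := RDL_arith (k : ℝ) (T : ℝ) L _ _ _ _ _ _ _ (Nat.cast_nonneg k) (Nat.cast_nonneg T)
    hMb hbb l1 l2 l3
  -- the values
  have hin : ∀ U ∈ V.powersetCard (2 * k), ∑ _Z ∈ (V \ U).powersetCard (2 * k), X =
      ((2 * k + T).choose (2 * k) : ℝ) * X := by
    intro U hU
    obtain ⟨h1, h2⟩ := mem_powersetCard.1 hU
    rw [sum_const, card_powersetCard, card_sdiff_of_subset h1, h2, hV, nsmul_eq_mul]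
    have : 4 * k + T - 2 * k = 2 * k + T := by omega
    rw [this]
  have v1 : SS V k (fun _ => X) (fun _ => X) =
      ((4 * k + T).choose (2 * k) : ℝ) * X * (((2 * k + T).choose (2 * k) : ℝ) * X) := by
    rw [(hS ι V k (fun _ => X) (fun _ => X)).1]
    have h1 : ∀ U ∈ V.powersetCard (2 * k), X * ∑ _Z ∈ (V \ U).powersetCard (2 * k), X =
        X * (((2 * k + T).choose (2 * k) : ℝ) * X) := by
      intro U hU
      rw [hin U hU]
    rw [sum_congr rfl h1, sum_const, card_powersetCard, hV, nsmul_eq_mul]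
    ring
  have v2 : SS V k (fun U => 2 * (pos x U k : ℝ)) (fun _ => X) =
      2 * ((pos x V k : ℝ) * ((4 * k + T - k).choose k : ℝ)) *
        (((2 * k + T).choose (2 * k) : ℝ) * X) := by
    rw [(hS ι V k (fun U => 2 * (pos x U k : ℝ)) (fun _ => X)).1]
    have h1 : ∀ U ∈ V.powersetCard (2 * k),
        2 * (pos x U k : ℝ) * ∑ _Z ∈ (V \ U).powersetCard (2 * k), X =
        (pos x U k : ℝ) * (2 * (((2 * k + T).choose (2 * k) : ℝ) * X)) := by
      intro U hU
      rw [hin U hU]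
      ring
    have h2 : ∑ U ∈ V.powersetCard (2 * k), (pos x U k : ℝ) =
        (pos x V k : ℝ) * ((4 * k + T - k).choose k : ℝ) := by
      have h := RDL_pos V x k
      rw [hV] at h
      exact_mod_cast h
    rw [sum_congr rfl h1, ← sum_mul, h2]
    ring
  have G2 : 4 * (k : ℝ) * SS V k (fun _ => X) (fun _ => X) ≤
      (4 * (k : ℝ) + T) * (2 * SS V k (fun U => 2 * (pos x U k : ℝ)) (fun _ => X)) := by
    rw [e2, e3, l4]
    exact G
  rw [v1, v2] at G2
  have c1 : (4 * k + T).choose (2 * k) * (2 * k).choose k =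
      (4 * k + T).choose k * (4 * k + T - k).choose k := by
    have h := Nat.choose_mul (n := 4 * k + T) (k := 2 * k) (s := k) (by omega)
    rw [h]
    congr 2
    omega
  have c2 : ((4 * k + T).choose (2 * k) : ℝ) * X =
      ((4 * k + T).choose k : ℝ) * ((4 * k + T - k).choose k : ℝ) := by
    rw [hX]
    exact_mod_cast c1
  rw [c2] at G2
  have hXpos : 0 < X := by
    rw [hX]
    exact_mod_cast Nat.choose_pos (show k ≤ 2 * k by omega)
  have hYpos : (0 : ℝ) < ((2 * k + T).choose (2 * k) : ℝ) := by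
    exact_mod_cast Nat.choose_pos (show 2 * k ≤ 2 * k + T by omega)
  have hZpos : (0 : ℝ) < ((4 * k + T - k).choose k : ℝ) := by
    exact_mod_cast Nat.choose_pos (show k ≤ 4 * k + T - k by omega)
  have hP : 0 < 4 * (((4 * k + T - k).choose k : ℝ) * (((2 * k + T).choose (2 * k) : ℝ) * X)) := by
    positivity
  have G3 : (k : ℝ) * ((4 * k + T).choose k : ℝ) ≤ (4 * (k : ℝ) + T) * (pos x V k : ℝ) := by
    refine le_of_mul_le_mul_right ?_ hP
    calc (k : ℝ) * ((4 * k + T).choose k : ℝ) *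
          (4 * (((4 * k + T - k).choose k : ℝ) * (((2 * k + T).choose (2 * k) : ℝ) * X)))
        = 4 * (k : ℝ) * (((4 * k + T).choose k : ℝ) * ((4 * k + T - k).choose k : ℝ) *
          (((2 * k + T).choose (2 * k) : ℝ) * X)) := by ring
      _ ≤ _ := G2
      _ = _ := by ring
  have h8 : (0 : ℝ) < 4 * (k : ℝ) + T := by
    have : (1 : ℝ) ≤ (k : ℝ) := by exact_mod_cast hk
    positivity
  rw [div_mul_eq_mul_div, div_le_iff₀ h8]
  linarith

end Pool.Agent.Work.MP_9999b5_mf
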