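import Pool.Agent.Work.MP_9999b5_mf.Interface
import Pool.Agent.Work.MP_9999b5_rf.RFW
import Pool.Agent.Work.MP_9999b5_sp.B_PRT
import Pool.Agent.Work.MP_9999b5_mr.B_PAC
import Pool.Agent.Work.MP_9999b5_mr.B_PAI

/-! # `Stmt_RST` of the full conjecture, without hypotheses (helper21) -/

set_option autoImplicit false

namespace Pool.Agent.Work.MP_9999b5_mf

open Finset

theorem RST_direct : Stmt_RST := by
  intro k T φ hk hT hφ hW ι _ C x hC hx hc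
  have hk0 : (1 : ℝ) ≤ k := by exact_mod_cast hk
  have hT0 : (1 : ℝ) ≤ T := by exact_mod_cast hT
  have hm : (0 : ℝ) < k + T - 1 := by linarith
  have hkT : (0 : ℝ) < k + T := by linarith
  have h2k : (0 : ℝ) < 2 * k + 1 := by linarith
  have hPAI := MP_9999b5_mr.p_PAI
  have hPAC := MP_9999b5_mr.p_PAC hPAI
  rcases hc.lt_or_eq with h | h
  · have h1 := MP_9999b5_sp.RFW_pos k T φ hk hT (MP_9999b5_sp.p_PRT T (k + T) φ hW) C x hC h
    obtain ⟨N, hN⟩ : ∃ N : ℝ, N = ((MP_9999b5_mr.prs C k).card : ℝ) := ⟨_, rfl⟩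
    obtain ⟨b, hb⟩ : ∃ b : ℝ, b = (MP_9999b5_mr.bad C x k : ℝ) := ⟨_, rfl⟩
    obtain ⟨p, hp⟩ : ∃ p : ℝ, p = (MP_9999b5_sp.pp C x k : ℝ) := ⟨_, rfl⟩
    obtain ⟨y, hy⟩ : ∃ y : ℝ, y = (MP_9999b5_mr.hvy C x k : ℝ) := ⟨_, rfl⟩
    have hN0 : 0 ≤ N := by rw [hN]; positivity
    rw [← hN, ← hb, ← hp, ← hy] at h1 ⊢
    have h2 : 0 ≤ (T : ℝ) * k / ((k + T) * (k + T - 1) * (2 * k + 1)) * N := by positivity
    have h3 : φ * (N + b - p) ≤ (N - y - p) + (T : ℝ) / (k + T) * (y - b) := by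
      have h4 : (N - y - p) + (T : ℝ) / (k + T) * (y - b) =
          ((k + T) * (N - y - p) + T * (y - b)) / (k + T) := by
        field_simp
      rw [h4, le_div_iff₀ hkT]
      linarith
    linarith
  · have h1 := MP_9999b5_sp.RFZ_zero hPAI hPAC k T φ hk hT hW C x hC hx h.symm
    obtain ⟨N, hN⟩ : ∃ N : ℝ, N = ((MP_9999b5_mr.prs C k).card : ℝ) := ⟨_, rfl⟩
    obtain ⟨b, hb⟩ : ∃ b : ℝ, b = (MP_9999b5_mr.bad C x k : ℝ) := ⟨_, rfl⟩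
    obtain ⟨p, hp⟩ : ∃ p : ℝ, p = (MP_9999b5_sp.pp C x k : ℝ) := ⟨_, rfl⟩
    obtain ⟨y, hy⟩ : ∃ y : ℝ, y = (MP_9999b5_mr.hvy C x k : ℝ) := ⟨_, rfl⟩
    rw [← hN, ← hb, ← hp, ← hy] at h1 ⊢
    have h4 : (N - y - p) + (T : ℝ) / (k + T) * (y - b) +
        (T : ℝ) * k / ((k + T) * (k + T - 1) * (2 * k + 1)) * N =
        ((k + T - 1 : ℝ) * (2 * k + 1) * ((k + T) * (N - y - p) + T * (y - b)) +
          k * T * N) / ((k + T) * (k + T - 1) * (2 * k + 1)) := by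
      field_simp
    rw [h4, le_div_iff₀ (by positivity)]
    linarith

theorem p_RST : Stmt_SH1 → Stmt_SH0 → Stmt_RSB → Stmt_SYM → Stmt_ZSP → Stmt_RST :=
  fun _ _ _ _ _ => RST_direct

end Pool.Agent.Work.MP_9999b5_mf
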