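import Pool.Agent.Work.MP_9999b5_mf.Interface

/-!
MP_9999b5_co, block SC1 (real numbers).
-/

set_option autoImplicit false

namespace Pool.Agent.Work.MP_9999b5_mf

open Finset

/-- comparison at `q = 66/125` -/
theorem SC1_key (τ c ψ q l : ℝ) (hτ : 0 < τ) (hτ1 : τ ≤ 1 / 5) (hq1 : q ≤ 1) (hc : 0 ≤ c) (hcψ : c ≤ ψ)
    (hl : 2 * ψ * q ≤ l)
    (h : (q ^ 2 - τ * (1 + τ) * q + τ) * l ≤ τ * (1 - q) * (1 - τ * q)) (hQ : 66 / 125 < q) :
    2 * c * (66 / 125) * ((66 / 125) ^ 2 - τ * (1 + τ) * (66 / 125) + τ) ≤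
      τ * (1 - 66 / 125) * (1 - τ * (66 / 125)) := by
  have hq0 : 0 < q := by linarith
  have hd0 : 0 < (66 / 125 : ℝ) ^ 2 - τ * (1 + τ) * (66 / 125) + τ := by nlinarith
  have hd : (66 / 125 : ℝ) ^ 2 - τ * (1 + τ) * (66 / 125) + τ ≤ q ^ 2 - τ * (1 + τ) * q + τ := by
    have e : (q ^ 2 - τ * (1 + τ) * q + τ) - ((66 / 125 : ℝ) ^ 2 - τ * (1 + τ) * (66 / 125) + τ) =
        (q - 66 / 125) * (q + 66 / 125 - τ * (1 + τ)) := by ring
    have : 0 ≤ (q - 66 / 125) * (q + 66 / 125 - τ * (1 + τ)) := by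
      apply mul_nonneg (by linarith)
      nlinarith
    linarith
  have h1 : τ * (1 - q) * (1 - τ * q) ≤ τ * (1 - 66 / 125) * (1 - τ * (66 / 125)) := by
    have h2 : 0 ≤ 1 - τ * q := by nlinarith
    have h3 : (1 - q) * (1 - τ * q) ≤ (1 - 66 / 125) * (1 - τ * (66 / 125)) := by
      apply mul_le_mul (by linarith) _ h2 (by norm_num)
      nlinarith
    nlinarith
  have h4 : 2 * c * (66 / 125) ≤ l := by
    have : c * (66 / 125) ≤ ψ * q := mul_le_mul hcψ hQ.le (by norm_num) (by linarith)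
    linarith
  have h5 : 2 * c * (66 / 125) * ((66 / 125) ^ 2 - τ * (1 + τ) * (66 / 125) + τ) ≤
      l * (q ^ 2 - τ * (1 + τ) * q + τ) := by
    apply mul_le_mul h4 hd hd0.le
    have : 0 ≤ 2 * c * (66 / 125) := by positivity
    linarith
  linarith

theorem p_SC1 : Stmt_SC1 := by
  intro τ ψ q l hτ hq0 hq1 hl h hc
  by_contra hQ
  push Not at hQ
  rcases hc with ⟨h1, h2⟩ | ⟨h1, h2⟩ | ⟨h1, h2⟩ | ⟨h1, h2⟩
  · have := SC1_key τ (217 / 1217) ψ q l hτ (by linarith) hq1 (by norm_num) h2 hl h hQ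
    nlinarith [mul_nonneg hτ.le (sub_nonneg.2 h1)]
  · have := SC1_key τ (236 / 1236) ψ q l hτ (by linarith) hq1 (by norm_num) h2 hl h hQ
    nlinarith [mul_nonneg hτ.le (sub_nonneg.2 h1)]
  · have := SC1_key τ (217 / 1000) ψ q l hτ (by linarith) hq1 (by norm_num) h2 hl h hQ
    nlinarith [mul_nonneg hτ.le (sub_nonneg.2 h1)]
  · have := SC1_key τ (236 / 1000) ψ q l hτ (by linarith) hq1 (by norm_num) h2 hl h hQ
    nlinarith [mul_nonneg hτ.le (sub_nonneg.2 h1)]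

end Pool.Agent.Work.MP_9999b5_mf
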