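import Pool.Agent.Work.MP_9999b5_mf.Interface

/-!
MP_9999b5_co, block SC2 (scalar, `1/2 < t ≤ 2/3`), helper8.
-/

set_option autoImplicit false

namespace Pool.Agent.Work.MP_9999b5_mf

open Finset

/-- the core in the real variable `t = T/k`; `x` is the bound `2t(1-t)/((1+3t)(5-t))` for the loss -/
theorem SC2_core (t q l x : ℝ) (ht : 1 / 2 < t) (ht2 : t ≤ 2 / 3) (hq0 : 0 ≤ q) (hq1 : q ≤ 1)
    (hx : x * ((1 + 3 * t) * (5 - t)) = 2 * t * (1 - t))
    (hl : (1 + t) * (217 / 1000) * (1 + q) - t * (1 - q) - x ≤ l)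
    (hD : ((2 + t) ^ 2 * q ^ 2 - t * (2 + 2 * t) * q + t * (2 + t)) * l ≤
      t * (1 - q) * ((2 + t) - t * q)) :
    q ≤ 283 / 500 ∧ 4 * (2 + t) * (17 / 10) * q ≤ (12 + 5 * t) * (1 + l - q) := by
  have hM : 0 < (1 + 3 * t) * (5 - t) := by
    apply mul_pos <;> linarith
  have e1 : 0 ≤ t * (2 / 3 - t) := mul_nonneg (by linarith) (by linarith)
  obtain ⟨L0, hL0⟩ : ∃ L0 : ℝ, L0 = (1 + t) * (217 / 1000) * (1 + 283 / 500) -
    t * (1 - 283 / 500) - x := ⟨_, rfl⟩
  -- the numerator of `L0`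
  have hP : L0 * ((1 + 3 * t) * (5 - t)) =
      ((1 + t) * (217 / 1000) * (1 + 283 / 500) - t * (1 - 283 / 500)) * ((1 + 3 * t) * (5 - t)) -
        2 * t * (1 - t) := by
    rw [hL0, sub_mul, hx]
  obtain ⟨s, hs⟩ : ∃ s : ℝ, t = 1 / 2 + s := ⟨t - 1 / 2, by ring⟩
  have hs0 : 0 < s := by linarith
  have hs1 : s ≤ 1 / 6 := by linarith
  have hs2 : s ^ 2 ≤ 1 / 6 * s := by
    have := mul_le_mul_of_nonneg_right hs1 hs0.le
    linarith
  have hs2' : 0 < s ^ 2 := by positivity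
  have hs3 : 0 < s ^ 3 := by positivity
  have hs4 : 0 < s ^ 4 := by positivity
  have hs5 : 0 < s ^ 5 := by positivity
  have hs3' : s ^ 3 ≤ 1 / 36 * s := by
    have := mul_le_mul_of_nonneg_left hs2 hs0.le
    linarith
  have hPpos : 0 < L0 * ((1 + 3 * t) * (5 - t)) := by
    rw [hP, hs]
    linarith
  have hL0pos : 0 < L0 := by
    by_contra h
    push Not at h
    have := mul_nonpos_of_nonpos_of_nonneg h hM.le
    linarith
  have h1 : q ≤ 283 / 500 := by
    by_contra h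
    push Not at h
    have hLl : L0 ≤ l := by
      refine le_trans ?_ hl
      have : 0 ≤ ((1 + t) * (217 / 1000) + t) * (q - 283 / 500) :=
        mul_nonneg (by linarith) (by linarith)
      rw [hL0]
      linarith
    have hD0 : (2 + t) ^ 2 * (283 / 500) ^ 2 - t * (2 + 2 * t) * (283 / 500) + t * (2 + t) ≤
        (2 + t) ^ 2 * q ^ 2 - t * (2 + 2 * t) * q + t * (2 + t) := by
      have h2 : 0 ≤ (q - 283 / 500) * ((2 + t) ^ 2 * (q + 283 / 500) - t * (2 + 2 * t)) := by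
        apply mul_nonneg
        · linarith
        · have : (2 + t) ^ 2 * 1 ≤ (2 + t) ^ 2 * (q + 283 / 500) := by
            apply mul_le_mul_of_nonneg_left
            · linarith
            · positivity
          linarith
      linarith
    have hDp : 0 ≤ (2 + t) ^ 2 * q ^ 2 - t * (2 + 2 * t) * q + t * (2 + t) := by
      refine le_trans ?_ hD0
      have e2 : 0 ≤ (2 + t) ^ 2 := by positivity
      linarith
    have htQ : t * (283 / 500) ≤ t * q := mul_le_mul_of_nonneg_left h.le (by linarith)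
    have htq : t * q ≤ t * 1 := mul_le_mul_of_nonneg_left hq1 (by linarith)
    have hR : t * (1 - q) * ((2 + t) - t * q) ≤
        t * (1 - 283 / 500) * ((2 + t) - t * (283 / 500)) := by
      have h3 : (1 - q) * ((2 + t) - t * q) ≤ (1 - 283 / 500) * ((2 + t) - t * (283 / 500)) := by
        apply mul_le_mul
        · linarith
        · linarith
        · linarith
        · norm_num
      have := mul_le_mul_of_nonneg_left h3 (by linarith : (0 : ℝ) ≤ t)
      linarith
    have hc : ((2 + t) ^ 2 * (283 / 500) ^ 2 - t * (2 + 2 * t) * (283 / 500) + t * (2 + t)) * L0 ≤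
        t * (1 - 283 / 500) * ((2 + t) - t * (283 / 500)) := by
      calc _ ≤ ((2 + t) ^ 2 * q ^ 2 - t * (2 + 2 * t) * q + t * (2 + t)) * L0 :=
            mul_le_mul_of_nonneg_right hD0 hL0pos.le
        _ ≤ ((2 + t) ^ 2 * q ^ 2 - t * (2 + 2 * t) * q + t * (2 + t)) * l :=
            mul_le_mul_of_nonneg_left hLl hDp
        _ ≤ _ := hD
        _ ≤ _ := hR
    have hc2 := mul_le_mul_of_nonneg_right hc hM.le
    rw [mul_assoc, hP, hs] at hc2
    clear hc hR hDp hD0 hLl hD hl hP hPpos hL0 hx htQ htq e1 hM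
    linarith
  refine ⟨h1, ?_⟩
  have h4 : (12 + 5 * t) * (1 + l - q) ≥
      (12 + 5 * t) * (1 + ((1 + t) * (217 / 1000) * (1 + q) - t * (1 - q) - x) - q) := by
    apply mul_le_mul_of_nonneg_left
    · linarith
    · linarith
  have h5 : (12 + 5 * t) * (1 + ((1 + t) * (217 / 1000) * (1 + q) - t * (1 - q) - x) - q) -
      4 * (2 + t) * (17 / 10) * q ≥
      (12 + 5 * t) * (1 + L0 - 283 / 500) - 4 * (2 + t) * (17 / 10) * (283 / 500) := by
    have : 0 ≤ (283 / 500 - q) * (4 * (2 + t) * (17 / 10) -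
        (12 + 5 * t) * ((1 + t) * (217 / 1000) + t - 1)) := by
      apply mul_nonneg
      · linarith
      · linarith
    rw [hL0]
    linarith
  have h6 : 0 ≤ ((12 + 5 * t) * (1 + L0 - 283 / 500) - 4 * (2 + t) * (17 / 10) * (283 / 500)) *
      ((1 + 3 * t) * (5 - t)) := by
    have : ((12 + 5 * t) * (1 + L0 - 283 / 500) - 4 * (2 + t) * (17 / 10) * (283 / 500)) *
      ((1 + 3 * t) * (5 - t)) = (12 + 5 * t) * (1 - 283 / 500) * ((1 + 3 * t) * (5 - t)) +
        (12 + 5 * t) * (L0 * ((1 + 3 * t) * (5 - t))) -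
        4 * (2 + t) * (17 / 10) * (283 / 500) * ((1 + 3 * t) * (5 - t)) := by ring
    rw [this, hP, hs]
    linarith
  have h7 : 0 ≤ (12 + 5 * t) * (1 + L0 - 283 / 500) - 4 * (2 + t) * (17 / 10) * (283 / 500) :=
    nonneg_of_mul_nonneg_left h6 hM
  linarith

theorem p_SC2 : Stmt_LSA → Stmt_SC2 := by
  intro hLSA k T q l hk hT hT2 hq0 hq1 hl hD
  have hT1 : 1 ≤ T := by omega
  obtain ⟨-, h2⟩ := hLSA k T hT1
  have h2 := h2 hk
  have hk0 : 0 < k := by omega
  have hK : (0 : ℝ) < k := by exact_mod_cast hk0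
  have hTr : (0 : ℝ) < T := by exact_mod_cast hT1
  have hkT : (k : ℝ) < 2 * T := by exact_mod_cast hT
  have hkT2 : 3 * (T : ℝ) ≤ 2 * k := by exact_mod_cast hT2
  set t : ℝ := (T : ℝ) / k with ht
  have hTt : (T : ℝ) = t * k := by
    rw [ht]
    field_simp
  have ht1 : 1 / 2 < t := by
    rw [ht, lt_div_iff₀ hK]
    linarith
  have ht2 : t ≤ 2 / 3 := by
    rw [ht, div_le_iff₀ hK]
    linarith
  have hM : 0 < (1 + 3 * t) * (5 - t) := by
    apply mul_pos <;> linarith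
  set x : ℝ := 2 * t * (1 - t) / ((1 + 3 * t) * (5 - t)) with hx
  have hx' : x * ((1 + 3 * t) * (5 - t)) = 2 * t * (1 - t) := by
    rw [hx]
    exact div_mul_cancel₀ _ hM.ne'
  have hloss : (T : ℝ) / (((k : ℝ) + T - 1) * (2 * k + 1)) ≤ x := by
    refine h2.trans (le_of_eq ?_)
    rw [hx, hTt, div_eq_div_iff]
    · ring
    · have h3 : (k : ℝ) + 3 * (t * k) = k * (1 + 3 * t) := by ring
      have h4 : 5 * (k : ℝ) - t * k = k * (5 - t) := by ring
      rw [h3, h4]
      have : 0 < (k : ℝ) * (1 + 3 * t) * (k * (5 - t)) := by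
        have e1 : 0 < 1 + 3 * t := by linarith
        have e2 : 0 < 5 - t := by linarith
        positivity
      exact this.ne'
    · exact hM.ne'
  have hl' : (1 + t) * (217 / 1000) * (1 + q) - t * (1 - q) - x ≤ l := by
    refine le_trans ?_ hl
    unfold lowR
    rw [← ht]
    linarith
  have hD' : ((2 + t) ^ 2 * q ^ 2 - t * (2 + 2 * t) * q + t * (2 + t)) * l ≤
      t * (1 - q) * ((2 + t) - t * q) := by
    have hk2 : (0 : ℝ) < (k : ℝ) ^ 2 := by positivity
    rw [hTt] at hD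
    refine le_of_mul_le_mul_left ?_ hk2
    calc (k : ℝ) ^ 2 * (((2 + t) ^ 2 * q ^ 2 - t * (2 + 2 * t) * q + t * (2 + t)) * l) =
        ((2 * (k : ℝ) + t * k) ^ 2 * q ^ 2 - t * k * (2 * k + 2 * (t * k)) * q +
          t * k * (2 * k + t * k)) * l := by ring
      _ ≤ t * k * (1 - q) * ((2 * k + t * k) - t * k * q) := hD
      _ = (k : ℝ) ^ 2 * (t * (1 - q) * ((2 + t) - t * q)) := by ring
  obtain ⟨h5, h6⟩ := SC2_core t q l x ht1 ht2 hq0 hq1 hx' hl' hD'
  refine ⟨h5, ?_⟩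
  rw [hTt]
  calc 4 * (2 * (k : ℝ) + t * k) * (17 / 10) * q = k * (4 * (2 + t) * (17 / 10) * q) := by ring
    _ ≤ k * ((12 + 5 * t) * (1 + l - q)) := mul_le_mul_of_nonneg_left h6 hK.le
    _ = (12 * (k : ℝ) + 5 * (t * k)) * (1 + l - q) := by ring

end Pool.Agent.Work.MP_9999b5_mf
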