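import Pool.Agent.Work.MP_9999b5_mf.Interface

/-! Block SC4 of MP_9999b5_mf. -/

namespace Pool.Agent.Work.MP_9999b5_mf

open Finset

theorem p_SC4 : Stmt_SC4 := by
  intro q l h0 h1 hl hQ
  have hL : 13 / 12 * q - 9 / 28 ≤ l := by
    have h := hl
    unfold lowR at h
    push_cast at h
    norm_num at h
    linarith
  have hq : q ≤ 283 / 500 := by
    by_contra hcon
    push Not at hcon
    have hpos : 0 < 64 * q ^ 2 - 20 * q + 16 := by nlinarith [sq_nonneg (q - 5 / 32)]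
    have h2 : (64 * q ^ 2 - 20 * q + 16) * (13 / 12 * q - 9 / 28) ≤ (64 * q ^ 2 - 20 * q + 16) * l :=
      mul_le_mul_of_nonneg_left hL hpos.le
    have h3 : (64 * q ^ 2 - 20 * q + 16) * (13 / 12 * q - 9 / 28) ≤ 2 * (1 - q) * (8 - 2 * q) := le_trans h2 hQ
    have hx : 0 < q - 283 / 500 := by linarith
    nlinarith [mul_pos hx hx, mul_pos (mul_pos hx hx) hx, mul_pos hx hpos, h3]
  refine ⟨hq, ?_⟩
  linarith

end Pool.Agent.Work.MP_9999b5_mf
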