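import Pool.Agent.Work.MP_9999b5_mf.Interface

/-!
Block SC5 of `MP_9999b5_mf`: the scalar inequality (QL).
-/

set_option autoImplicit false

namespace Pool.Agent.Work.MP_9999b5_mf

/-- the quadratic is nonpositive between `τ` and `283/500` -/
theorem SC5_quad (τ q : ℝ) (h0 : 0 < τ) (h1 : τ ≤ 1 / 3) (hq : τ ≤ q) (hb : q ≤ 283 / 500) :
    27 * q ^ 2 - (17 + 10 * τ + 10 * τ ^ 2) * q + 10 * τ ≤ 0 := by
  have h2 : 0 ≤ (q - τ) * (283 / 500 - q) := mul_nonneg (by linarith) (by linarith)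
  have hlin : (17 * τ - 1718 / 1000 - 10 * τ ^ 2) * q - 5282 / 1000 * τ ≤ 0 := by
    by_cases hc : 17 * τ - 1718 / 1000 - 10 * τ ^ 2 ≤ 0
    · have h3 : (17 * τ - 1718 / 1000 - 10 * τ ^ 2) * q ≤ 0 :=
        mul_nonpos_of_nonpos_of_nonneg hc (by linarith)
      linarith
    · have h3 : (17 * τ - 1718 / 1000 - 10 * τ ^ 2) * q ≤
          (17 * τ - 1718 / 1000 - 10 * τ ^ 2) * (283 / 500) :=
        mul_le_mul_of_nonneg_left hb (by linarith)
      nlinarith
  nlinarith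

theorem p_SC5 : Stmt_SC5 := by
  intro τ w q h0 h1 hq0 hqw hw1 hb hS
  by_contra hcon
  push Not at hcon
  have hq : τ < q := by linarith
  have hD : 0 < q ^ 2 - τ * (1 + τ) * q + τ := by
    have h2 : 0 < q := by linarith
    have h3 : 0 ≤ q * (q - τ) := mul_nonneg h2.le (by linarith)
    have h4 : 0 ≤ τ * (1 - τ * q) := by
      apply mul_nonneg h0.le
      nlinarith
    nlinarith
  have h5 : 17 * w * (q ^ 2 - τ * (1 + τ) * q + τ) <
      (27 * q - 10 * τ) * (q ^ 2 - τ * (1 + τ) * q + τ) :=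
    mul_lt_mul_of_pos_right (by linarith) hD
  have h6 := SC5_quad τ q h0 h1 hq.le hb
  have h7 : 0 ≤ (q - τ) * -(27 * q ^ 2 - (17 + 10 * τ + 10 * τ ^ 2) * q + 10 * τ) :=
    mul_nonneg (by linarith) (by linarith)
  nlinarith

end Pool.Agent.Work.MP_9999b5_mf
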