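import Pool.Agent.Work.MP_9999b5_mf.Interface

set_option autoImplicit false

/-!
# Block SSC of MP_9999b5: `SS` as iterated sums, both ways, and symmetry
-/

namespace Pool.Agent.Work.MP_9999b5_mf

open Finset
open Pool.Agent.Work.MP_9999b5_mr (prs)

theorem SSC_mem {ι : Type} [DecidableEq ι] (V : Finset ι) (l : ℕ) (p : Finset ι × Finset ι) :
    p ∈ prs V l ↔ (p.1 ∈ V.powersetCard l ∧ p.2 ∈ (V \ p.1).powersetCard l) := by
  simp only [prs, mem_filter, mem_product, mem_powersetCard, subset_sdiff]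
  constructor
  · rintro ⟨⟨⟨h1, h2⟩, h3, h4⟩, h5⟩
    exact ⟨⟨h1, h2⟩, ⟨h3, h5.symm⟩, h4⟩
  · rintro ⟨⟨h1, h2⟩, ⟨h3, h5⟩, h4⟩
    exact ⟨⟨⟨h1, h2⟩, h3, h4⟩, h5.symm⟩

/-- a sum over disjoint pairs as an iterated sum -/
theorem SSC_it {ι : Type} [DecidableEq ι] (V : Finset ι) (l : ℕ) (F : Finset ι → Finset ι → ℝ) :
    ∑ p ∈ prs V l, F p.1 p.2 =
      ∑ U ∈ V.powersetCard l, ∑ Z ∈ (V \ U).powersetCard l, F U Z := by
  rw [Finset.sum_sigma']
  refine Finset.sum_bij' (i := fun p _ => (⟨p.1, p.2⟩ : (_ : Finset ι) × Finset ι))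
    (j := fun q _ => (q.1, q.2)) ?_ ?_ ?_ ?_ ?_
  · intro p hp
    exact mem_sigma.2 ((SSC_mem V l p).1 hp)
  · intro q hq
    exact (SSC_mem V l (q.1, q.2)).2 (mem_sigma.1 hq)
  · intro p _
    rfl
  · intro q _
    rfl
  · intro p _
    rfl

/-- the symmetry `p ↦ (p.2, p.1)` -/
theorem SSC_sw {ι : Type} [DecidableEq ι] (V : Finset ι) (l : ℕ) (F : Finset ι → Finset ι → ℝ) :
    ∑ p ∈ prs V l, F p.1 p.2 = ∑ p ∈ prs V l, F p.2 p.1 := by
  have hs : ∀ p : Finset ι × Finset ι, p ∈ prs V l → (p.2, p.1) ∈ prs V l := by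
    intro p hp
    simp only [prs, mem_filter, mem_product] at hp ⊢
    exact ⟨⟨hp.1.2, hp.1.1⟩, hp.2.symm⟩
  refine Finset.sum_bij' (i := fun p _ => (p.2, p.1)) (j := fun p _ => (p.2, p.1)) ?_ ?_ ?_ ?_ ?_
  · intro p hp
    exact hs p hp
  · intro p hp
    exact hs p hp
  · intro p _
    rfl
  · intro p _
    rfl
  · intro p _
    rfl

theorem p_SSC : Stmt_SSC := by
  intro ι _ V k f g
  have h1 : ∀ f g : Finset ι → ℝ,
      SS V k f g = ∑ U ∈ V.powersetCard (2 * k), f U * ∑ Z ∈ (V \ U).powersetCard (2 * k), g Z := by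
    intro f g
    have := SSC_it V (2 * k) (fun U Z => f U * g Z)
    simp only [SS]
    rw [this]
    exact Finset.sum_congr rfl (fun U _ => (Finset.mul_sum _ _ _).symm)
  have h2 : SS V k f g = SS V k g f := by
    have := SSC_sw V (2 * k) (fun U Z => f U * g Z)
    simp only [SS]
    rw [this]
    exact Finset.sum_congr rfl (fun p _ => mul_comm _ _)
  exact ⟨h1 f g, by rw [h2]; exact h1 g f, h2⟩

end Pool.Agent.Work.MP_9999b5_mf
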