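import Pool.Agent.Work.MP_9999b5_mf.Interface

/-! Block STP (helper16). -/

set_option autoImplicit false

namespace Pool.Agent.Work.MP_9999b5_mf

open Finset
open Pool.Agent.Work.MP_9999b5_mr (prs bad hvy al)
open Pool.Agent.Work.MP_9999b5_sp (pp)
open Pool.Agent.Work.MaxSums (W pos)

theorem STP_mono {k n : ℕ} {φ ψ : ℝ} (h : W k n φ) (hle : ψ ≤ φ) : W k n ψ := by
  intro ι _ A x hA hx hs
  refine le_trans ?_ (h ι A x hA hx hs)
  exact mul_le_mul_of_nonneg_right hle (Nat.cast_nonneg _)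

theorem STP_qb {k T : ℕ} {Q Q' : ℝ} (h : QB k T Q) (hle : Q ≤ Q') : QB k T Q' := by
  intro ι _ C x hC hx hs
  refine le_trans (h ι C x hC hx hs) ?_
  exact mul_le_mul_of_nonneg_right hle (Nat.cast_nonneg _)

theorem STP_hh {k T : ℕ} (h : MP_9999b5_mr.HH k T) : QB k T (1 / 2) := by
  intro ι _ C x hC hx hs
  have h1 : (2 : ℝ) * bad C x k ≤ (prs C k).card := by
    exact_mod_cast h ι C x hC hx hs
  linarith

theorem STP_ho {k T : ℕ} (hk : 1 ≤ k) (h : MP_9999b5_sp.HO k T) : QB k T (1 / 2) := by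
  intro ι _ C x hC hx hs
  have h1 : ((4 * k + 3 * T : ℕ) : ℝ) * bad C x k ≤ ((2 * k + T : ℕ) : ℝ) * (prs C k).card := by
    exact_mod_cast h ι C x hC hx hs
  push_cast at h1
  have hk' : (1 : ℝ) ≤ k := by exact_mod_cast hk
  have hT : (0 : ℝ) ≤ T := Nat.cast_nonneg _
  have hp : (0 : ℝ) ≤ (prs C k).card := Nat.cast_nonneg _
  have hb : (0 : ℝ) ≤ bad C x k := Nat.cast_nonneg _
  have h2 : (2 * (k : ℝ) + T) * (2 * bad C x k) ≤ (2 * (k : ℝ) + T) * (prs C k).card := by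
    nlinarith
  have h3 : (2 : ℝ) * bad C x k ≤ (prs C k).card :=
    le_of_mul_le_mul_left h2 (by positivity)
  linarith

theorem p_STP : MP_9999b5_mr.Stmt_LIF → MP_9999b5_mr.Stmt_RED → MP_9999b5_sp.Stmt_HOE →
    MP_9999b5_sp.Stmt_MST → Stmt_QBW → Stmt_QA1 → Stmt_QA2 → Stmt_QLB → Stmt_RDL → Stmt_STP := by
  intro hLIF hRED hHOE hMST hQBW hQA1 hQA2 hQLB hRDL y hI T hT1 hTy
  have hy1 : 1 ≤ y := by omega
  by_cases hdvd : T ∣ y
  · obtain ⟨u, rfl⟩ := hdvd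
    have hu : 1 ≤ u := by
      rcases Nat.eq_zero_or_pos u with h | h
      · subst h; omega
      · exact h
    have hL := hLIF u T hu hT1
    rw [Nat.mul_comm u T] at hL
    have hQ := STP_hh hL.2
    have h1 := hQBW _ _ _ hy1 hQ
    refine ⟨fun _ => STP_mono h1 (by norm_num), STP_mono h1 (by norm_num), ?_⟩
    have h2 := hRED _ _ hy1 hL.1 hL.2
    exact h2
  by_cases h4 : 4 * T ≤ y
  · have hW : W T y ((T : ℝ) / y) := (hI T hT1 hTy).2.2.2.2 y h4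
    have hy' : (0 : ℝ) < y := by exact_mod_cast hy1
    have hT' : (0 : ℝ) < T := by exact_mod_cast hT1
    have hHO := hHOE y T ((T : ℝ) / y) hy1 hT1 (by omega) hW (by
      rw [div_mul_eq_mul_div, le_div_iff₀ hy']
      have h5 : (4 * (y : ℝ) + 3 * T) * y ≤ (2 * y + T) * (2 * y + 2 * T) := by nlinarith
      nlinarith)
    have hQ := STP_ho hy1 hHO
    have h1 := hQBW _ _ _ hy1 hQ
    refine ⟨fun _ => STP_mono h1 (by norm_num), STP_mono h1 (by norm_num), ?_⟩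
    exact hMST y T hT1 (by omega) hW
  by_cases h2 : 2 * T ≤ y
  · have hIT := hI T hT1 hTy
    obtain ⟨ψ, hW, hψ⟩ : ∃ ψ : ℝ, W T y ψ ∧ ((7 * T ≤ 2 * y ∧ 217 / 1217 ≤ ψ) ∨
        (3 * T ≤ y ∧ 236 / 1236 ≤ ψ) ∨ (5 * T ≤ 2 * y ∧ 217 / 1000 ≤ ψ) ∨ 236 / 1000 ≤ ψ) := by
      by_cases ha : 7 * T ≤ 2 * y
      · exact ⟨_, hIT.2.2.2.1 y ha (by omega), Or.inl ⟨ha, le_refl _⟩⟩
      by_cases hb : 3 * T ≤ y
      · exact ⟨_, hIT.2.2.1 y hb (by omega), Or.inr (Or.inl ⟨hb, le_refl _⟩)⟩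
      by_cases hc : 5 * T ≤ 2 * y
      · exact ⟨_, hIT.2.1 y hc (by omega), Or.inr (Or.inr (Or.inl ⟨hc, le_refl _⟩))⟩
      · exact ⟨_, hIT.1 y h2 (by omega), Or.inr (Or.inr (Or.inr (le_refl _)))⟩
    obtain ⟨hQ, hH⟩ := hQA1 y T ψ hT1 h2 hW hψ
    have h1 := hQBW _ _ _ hy1 hQ
    refine ⟨fun _ => STP_mono h1 (by norm_num), STP_mono h1 (by norm_num), ?_⟩
    have hQL := hQLB y T hT1 hTy.le (STP_qb hQ (by norm_num))
    exact hRDL y T (17 / 10) hy1 (by norm_num) hQL hH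
  · have hIT := hI T hT1 hTy
    obtain ⟨φ, hW, hφ⟩ : ∃ φ : ℝ, W T (y + T) φ ∧ ((3 * T ≤ 2 * y ∧ 217 / 1000 ≤ φ ∧ T + 2 ≤ y) ∨
        (2 * y < 3 * T ∧ 236 / 1000 ≤ φ) ∨ (y = 3 ∧ T = 2 ∧ 1 / 4 ≤ φ)) := by
      by_cases ha : 2 * y < 3 * T
      · exact ⟨_, hIT.1 (y + T) (by omega) (by omega), Or.inr (Or.inl ⟨ha, le_refl _⟩)⟩
      by_cases hb : T + 2 ≤ y
      · exact ⟨_, hIT.2.1 (y + T) (by omega) (by omega), Or.inl ⟨by omega, le_refl _, hb⟩⟩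
      · have h32 : y = 3 ∧ T = 2 := by omega
        obtain ⟨rfl, rfl⟩ := h32
        have hL := hLIF 2 1 (by norm_num) (by norm_num)
        have hQ := STP_hh hL.2
        have h1 := hQBW _ _ _ (by norm_num) hQ
        refine ⟨(1 - 1 / 2) / 2, h1, Or.inr (Or.inr ⟨rfl, rfl, by norm_num⟩)⟩
    obtain ⟨hQ, hH⟩ := hQA2 y T φ (by omega) hTy hW hφ
    have h1 := hQBW _ _ _ hy1 hQ
    refine ⟨fun h => absurd h (by omega), STP_mono h1 (by norm_num), ?_⟩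
    have hQL := hQLB y T hT1 hTy.le hQ
    exact hRDL y T (17 / 10) hy1 (by norm_num) hQL hH

end Pool.Agent.Work.MP_9999b5_mf
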