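import Pool.Agent.Work.MP_9999b5_mf.Interface

/-!
MP_9999b5_co, block SYM: the symmetry `p ↦ (p.2, p.1)` of `prs C k` and the counts which follow from it.
-/

set_option autoImplicit false

namespace Pool.Agent.Work.MP_9999b5_mf

open Finset
open Pool.Agent.Work.MP_9999b5_mr (prs bad hvy al)
open Pool.Agent.Work.MP_9999b5_sp (pp)

theorem SYM_swap {ι : Type} [DecidableEq ι] (C : Finset ι) (k : ℕ)
    (F : Finset ι → Finset ι → ℕ) :
    ∑ p ∈ prs C k, F p.1 p.2 = ∑ p ∈ prs C k, F p.2 p.1 := by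
  refine Finset.sum_bij' (fun p _ => (p.2, p.1)) (fun p _ => (p.2, p.1)) ?_ ?_ ?_ ?_ ?_
  · intro p hp
    unfold prs at hp ⊢
    rw [mem_filter, mem_product] at hp ⊢
    exact ⟨⟨hp.1.2, hp.1.1⟩, hp.2.symm⟩
  · intro p hp
    unfold prs at hp ⊢
    rw [mem_filter, mem_product] at hp ⊢
    exact ⟨⟨hp.1.2, hp.1.1⟩, hp.2.symm⟩
  · intro p _; rfl
  · intro p _; rfl
  · intro p _; rfl

theorem SYM_card {ι : Type} [DecidableEq ι] (C : Finset ι) (k : ℕ)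
    (P : Finset ι → Finset ι → Prop) [∀ a b, Decidable (P a b)] :
    ((prs C k).filter (fun p => P p.1 p.2)).card = ∑ p ∈ prs C k, if P p.1 p.2 then 1 else 0 := by
  rw [card_filter]

theorem SYM_two {ι : Type} [DecidableEq ι] (C : Finset ι) (k : ℕ)
    (P : Finset ι → Finset ι → Prop) [∀ a b, Decidable (P a b)] :
    2 * ((prs C k).filter (fun p => P p.1 p.2)).card =
      ∑ p ∈ prs C k, ((if P p.1 p.2 then 1 else 0) + (if P p.2 p.1 then 1 else 0)) := by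
  rw [sum_add_distrib, ← SYM_swap C k (fun a b => if P a b then 1 else 0), ← SYM_card C k P, two_mul]

theorem p_SYM : Stmt_SYM := by
  intro ι _ C x k
  refine ⟨?_, ?_, ?_, ?_⟩
  · have h := SYM_two C k (fun _ b => ∑ i ∈ b, x i ≤ 0)
    unfold pp bad
    rw [h, SYM_card C k (fun a b => 0 < ∑ i ∈ a, x i ∧ 0 < ∑ i ∈ b, x i),
      SYM_card C k (fun a b => ∑ i ∈ a, x i ≤ 0 ∧ ∑ i ∈ b, x i ≤ 0), ← sum_add_distrib,
      card_eq_sum_ones, ← sum_add_distrib]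
    apply sum_congr rfl
    intro p _
    rcases le_or_gt (∑ i ∈ p.1, x i) 0 with h1 | h1 <;>
      rcases le_or_gt (∑ i ∈ p.2, x i) 0 with h2 | h2 <;>
      simp [h1, h2, not_le.2, not_lt.2]
  · have h := SYM_two C k (fun a b => ∑ i ∈ b, x i ≤ 0 ∧ 0 < ∑ i ∈ a, x i + ∑ i ∈ b, x i)
    unfold pp hvy
    rw [h, SYM_card C k (fun a b => 0 < ∑ i ∈ a, x i ∧ 0 < ∑ i ∈ b, x i),
      SYM_card C k (fun a b => ∑ i ∈ a, x i + ∑ i ∈ b, x i ≤ 0), ← sum_add_distrib,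
      ← sum_add_distrib, card_eq_sum_ones]
    apply sum_congr rfl
    intro p _
    rw [add_comm (∑ i ∈ p.2, x i) (∑ i ∈ p.1, x i)]
    rcases le_or_gt (∑ i ∈ p.1, x i) 0 with h1 | h1 <;>
      rcases le_or_gt (∑ i ∈ p.2, x i) 0 with h2 | h2 <;>
      rcases le_or_gt (∑ i ∈ p.1, x i + ∑ i ∈ p.2, x i) 0 with h3 | h3
    · simp [h1, h2, h3, not_lt.2]
    · exfalso; linarith
    · simp [h1, h2, h3, not_le.2, not_lt.2]
    · simp [h1, h2, h3, not_le.2, not_lt.2]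
    · simp [h1, h2, h3, not_le.2, not_lt.2]
    · simp [h1, h2, h3, not_le.2, not_lt.2]
    · exfalso; linarith
    · simp [h1, h2, h3, not_le.2, not_lt.2]
  · have h := SYM_two C k (fun a b => ∑ i ∈ b, x i ≤ 0 ∧ 0 < ∑ i ∈ a, x i ∧
      ∑ i ∈ a, x i + ∑ i ∈ b, x i ≤ 0)
    unfold bad hvy
    rw [h, SYM_card C k (fun a b => ∑ i ∈ a, x i ≤ 0 ∧ ∑ i ∈ b, x i ≤ 0),
      SYM_card C k (fun a b => ∑ i ∈ a, x i + ∑ i ∈ b, x i ≤ 0), ← sum_add_distrib]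
    apply sum_congr rfl
    intro p _
    rw [add_comm (∑ i ∈ p.2, x i) (∑ i ∈ p.1, x i)]
    rcases le_or_gt (∑ i ∈ p.1, x i) 0 with h1 | h1 <;>
      rcases le_or_gt (∑ i ∈ p.2, x i) 0 with h2 | h2 <;>
      rcases le_or_gt (∑ i ∈ p.1, x i + ∑ i ∈ p.2, x i) 0 with h3 | h3
    · simp [h1, h2, h3, not_lt.2]
    · exfalso; linarith
    · simp [h1, h2, h3, not_le.2, not_lt.2]
    · simp [h1, h2, h3, not_le.2, not_lt.2]
    · simp [h1, h2, h3, not_le.2, not_lt.2]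
    · simp [h1, h2, h3, not_le.2, not_lt.2]
    · exfalso; linarith
    · simp [h1, h2, h3, not_le.2, not_lt.2]
  · have h := SYM_two C k (fun a b => ∑ i ∈ b, x i < 0 ∧ ∑ i ∈ a, x i + ∑ i ∈ b, x i = 0)
    rw [h, SYM_card C k (fun a b => ∑ i ∈ a, x i + ∑ i ∈ b, x i = 0)]
    apply sum_le_sum
    intro p _
    rw [add_comm (∑ i ∈ p.2, x i) (∑ i ∈ p.1, x i)]
    by_cases h3 : ∑ i ∈ p.1, x i + ∑ i ∈ p.2, x i = 0
    · by_cases h1 : ∑ i ∈ p.1, x i < 0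
      · have h2 : ¬ ∑ i ∈ p.2, x i < 0 := by intro h2; linarith
        simp [h1, h2, h3]
      · by_cases h2 : ∑ i ∈ p.2, x i < 0 <;> simp [h1, h2, h3]
    · simp [h3]

end Pool.Agent.Work.MP_9999b5_mf
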