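import Pool.Agent.Work.MP_9999b5_mf.Interface

set_option autoImplicit false

namespace Pool.Agent.Work.MP_9999b5_mf

open Finset

theorem ZS_ext {ι : Type} [DecidableEq ι] (x : ι → ℝ) (A S : Finset ι) (T : ℕ)
    (hA : A.card = T) (hS : S.card = T + 1) (hAS : A ⊆ S) (h0 : ∑ i ∈ S, x i = 0) :
    ∃ b ∈ S, b ∉ A ∧ S = insert b A ∧ x b = - ∑ i ∈ A, x i := by
  have h1 : (S \ A).card = 1 := by
    rw [card_sdiff_of_subset hAS, hS, hA]
    omega
  obtain ⟨b, hb⟩ := card_eq_one.1 h1
  have hbm : b ∈ S \ A := by rw [hb]; exact mem_singleton_self b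
  rw [mem_sdiff] at hbm
  have hSe : S = insert b A := by
    have h2 : S = (S \ A) ∪ A := by rw [sdiff_union_of_subset hAS]
    rw [h2, hb]
    rfl
  refine ⟨b, hbm.1, hbm.2, hSe, ?_⟩
  rw [hSe, sum_insert hbm.2] at h0
  linarith

theorem p_ZS : Stmt_ZS := by
  intro ι _ C x T hinj hT hTC
  obtain ⟨t, rfl⟩ : ∃ t, T = t + 1 := ⟨T - 1, by omega⟩
  set Z := (C.powersetCard (t + 1)).filter (fun S => ∑ i ∈ S, x i = 0) with hZ
  have key : Z.card * (t + 1) ≤ (C.powersetCard t).card * 1 := by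
    refine Finset.card_mul_le_card_mul (fun S A => A ⊆ S) ?_ ?_
    · intro S hS
      rw [hZ, mem_filter, mem_powersetCard] at hS
      have h1 : S.powersetCard t ⊆ bipartiteAbove (fun S A => A ⊆ S) (C.powersetCard t) S := by
        intro A hA
        rw [mem_powersetCard] at hA
        rw [mem_bipartiteAbove, mem_powersetCard]
        exact ⟨⟨hA.1.trans hS.1.1, hA.2⟩, hA.1⟩
      have h2 := card_le_card h1
      rw [card_powersetCard, hS.1.2, Nat.choose_succ_self_right] at h2
      exact h2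
    · intro A hA
      rw [mem_powersetCard] at hA
      rw [card_le_one]
      intro S hS S' hS'
      rw [mem_bipartiteBelow, hZ, mem_filter, mem_powersetCard] at hS hS'
      obtain ⟨b, hb1, hb2, hb3, hb4⟩ := ZS_ext x A S t hA.2 hS.1.1.2 hS.2 hS.1.2
      obtain ⟨b', hb1', hb2', hb3', hb4'⟩ := ZS_ext x A S' t hA.2 hS'.1.1.2 hS'.2 hS'.1.2
      have hbb : b = b' := hinj (mem_coe.2 (hS.1.1.1 hb1)) (mem_coe.2 (hS'.1.1.1 hb1'))
        (by rw [hb4, hb4'])
      rw [hb3, hb3', hbb]
  rw [card_powersetCard, mul_one] at key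
  have h3 : C.card.choose (t + 1) * (t + 1) = C.card.choose t * (C.card - t) :=
    Nat.choose_succ_right_eq _ _
  have h4 : C.card - (t + 1) + 1 = C.card - t := by omega
  rw [h4]
  have h5 : (t + 1) * ((C.card - t) * Z.card) ≤ (t + 1) * C.card.choose (t + 1) := by
    calc (t + 1) * ((C.card - t) * Z.card) = (C.card - t) * (Z.card * (t + 1)) := by ring
      _ ≤ (C.card - t) * C.card.choose t := Nat.mul_le_mul_left _ key
      _ = (t + 1) * C.card.choose (t + 1) := by rw [mul_comm (C.card - t), ← h3, mul_comm]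
  exact Nat.le_of_mul_le_mul_left h5 (Nat.succ_pos t)

end Pool.Agent.Work.MP_9999b5_mf
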