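import Pool.Agent.Work.MP_9999b5_sp.Interface4

/-!
MP_9999b5_co (Manickam-Miklos-Singhi): THE FULL CONJECTURE, strict version (helper39, helper49, helper82, helper83, helper19, helper92,
helper31, helper11, helper15, helper54). `W k n (k/n)` for all `n ≥ 4k`.

`C` a set of `m = 2k + T` elements, `τ = T/m`, `t = T/k`. For a random pair of `prs C k`: `q` = P(both sums `≤ 0`) = `bad/prs`, `r` = P(both
sums `> 0`) = `pp/prs`, `w` = P(sum of the union `≤ 0`) = `hvy/prs`, `l = 1 - w`. Known: the two-level spectral inequality (`NR2`, `RBZ`) and the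
exchange (`EXG`) of `MP_9999b5_sp/Interface4.lean`. New: the flow `RST` (helper49), the reduction `RDL` with a factor `L` (helper39).

RULES: one file `Pool/Agent/Work/MP_9999b5_mf/B_<ID>.lean` per block, `import Pool.Agent.Work.MP_9999b5_mf.Interface`,
`namespace Pool.Agent.Work.MP_9999b5_mf`, `open Finset`, theorem `p_<ID> : Stmt_X → Stmt_Y → Stmt_<ID>` with exactly the
statements of the column `uses` as hypotheses, in this order (`MP_9999b5_mr.Stmt_PAI`, `MP_9999b5_sp.Stmt_NR2`, ... for statements of the other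
interfaces); auxiliary lemmas with the name of the block in front. No straight double quotes.
-/

set_option autoImplicit false

namespace Pool.Agent.Work.MP_9999b5_mf

open Finset
open Pool.Agent.Work.MP_9999b5_mr (prs bad hvy al)
open Pool.Agent.Work.MP_9999b5_sp (pp)
open Pool.Agent.Work.MaxSums (W pos)

/-! ### A. Zero sums -/

/-- ZS (60 lines): few `T`-subsets have sum `0`. Pairs (`A`, `S`), `A ⊆ S`, `|A| = T - 1`, `S` a `T`-subset with sum `0`: every `S` has `T` of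
them, every `A` is in at most one `S` (`S = A ∪ {b}`, `x b = - x(A)`, `x` injective). So `T Z ≤ C(m, T-1)`, and
`(m-T+1) C(m,T-1) = T C(m,T)`. -/
def Stmt_ZS : Prop := ∀ (ι : Type) [DecidableEq ι] (C : Finset ι) (x : ι → ℝ) (T : ℕ),
  Set.InjOn x C → 1 ≤ T → T ≤ C.card →
  (C.card - T + 1) * ((C.powersetCard T).filter (fun S => ∑ i ∈ S, x i = 0)).card ≤
    C.card.choose T

/-- H2 (60 lines; uses ZS): `n = 2y`. `B ↦ A \ B`: if neither `B` nor `A \ B` is positive then both sums are `0` (as `x(A) ≥ 0`), so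
`2 pos + Z ≥ C(2y,y)`, `(y+1) Z ≤ C(2y,y)`. -/
def Stmt_H2 : Prop := ∀ y : ℕ, 1 ≤ y → W y (2 * y) (1 / 4)

/-! ### B. The flow (R), strict version -/

/-- WNI (60 lines): no injectivity is needed for a positive sum. `x' = x - ε e`, `e` injective on `A` with values in `1..n`, `ε > 0` small
(`n² ε ≤ x(A)`) outside the finite set where `x'` is not injective; `x' ≤ x`. -/
def Stmt_WNI : Prop := ∀ (k n : ℕ) (φ : ℝ), W k n φ → ∀ (ι : Type) [DecidableEq ι] (A : Finset ι)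
    (x : ι → ℝ), A.card = n → 0 < ∑ i ∈ A, x i → φ * (n.choose k : ℝ) ≤ pos x A k

/-- SH1 (100 lines; uses WNI), shift lemma. If `0 < y(R)`: WNI. Else for `z ∈ R` let `y' = y` except `y' z = y z - y(R) + ε`, `0 < ε ≤ d`: sum `ε`,
so `φ C(N,T) ≤ #{y'(K) > 0}`; `z ∉ K`: `y'(K) = y(K)`; `z ∈ K`: `y(K) > y(R) - ε`. Sum over `z`: every `K` has `T` elements. -/
def Stmt_SH1 : Prop := ∀ (T N : ℕ) (φ : ℝ), 1 ≤ T → T ≤ N → W T N φ →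
  ∀ (ι : Type) [DecidableEq ι] (R : Finset ι) (y : ι → ℝ) (d : ℝ), R.card = N → 0 < d →
  (N : ℝ) * (φ * (N.choose T : ℝ)) ≤
    (N : ℝ) * ((R.powersetCard T).filter (fun K => 0 < ∑ i ∈ K, y i)).card +
    (T : ℝ) * ((R.powersetCard T).filter (fun K => ∑ i ∈ K, y i ≤ 0 ∧
      ∑ i ∈ R, y i - d < ∑ i ∈ K, y i)).card

/-- SH0 (150 lines), shift lemma without margin, `y` injective, `s = - y(R) > 0`. For `z ≠ v` in `R` let `y' = y + (s-ε) e_z + ε e_v`, `ε > 0` small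
and outside a finite set: `y'` is injective, `y'(R) = 0`, so `φ C(N,T) ≤ #{y'(K) > 0}`. If `z ∈ K`: `0 < y'(K) ≤ y(K) + s`. If `z ∉ K`, `v ∉ K`:
`y'(K) = y(K)`. If `z ∉ K`, `v ∈ K`: `0 < y(K) + ε` implies `y(K) ≥ 0` (`ε` small). Sum over the `N (N-1)` ordered pairs `(z, v)`. -/
def Stmt_SH0 : Prop := ∀ (T N : ℕ) (φ : ℝ), 1 ≤ T → T ≤ N → 2 ≤ N → W T N φ →
  ∀ (ι : Type) [DecidableEq ι] (R : Finset ι) (y : ι → ℝ), R.card = N → Set.InjOn y R →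
  ∑ i ∈ R, y i < 0 →
  (N : ℝ) * (N - 1) * (φ * (N.choose T : ℝ)) ≤
    (N : ℝ) * (N - 1) * ((R.powersetCard T).filter (fun K => 0 < ∑ i ∈ K, y i)).card +
    (T : ℝ) * (N - 1) * ((R.powersetCard T).filter (fun K => ∑ i ∈ K, y i ≤ 0 ∧
      ∑ i ∈ R, y i < ∑ i ∈ K, y i)).card +
    (T : ℝ) * (N - T) * ((R.powersetCard T).filter (fun K => ∑ i ∈ K, y i = 0)).card

/-- RSB (60 lines): pairs and their rest. Bijection `(B₁, B₂) ↦ (B₂, C \ (B₁ ∪ B₂))`, inverse `(B, K) ↦ ((C \ B) \ K, B)`. -/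
def Stmt_RSB : Prop := ∀ (ι : Type) [DecidableEq ι] (C : Finset ι) (k T : ℕ)
    (F : Finset ι → Finset ι → ℝ), C.card = 2 * k + T →
  ∑ B ∈ C.powersetCard k, ∑ K ∈ (C \ B).powersetCard T, F B K =
    ∑ p ∈ prs C k, F p.2 (C \ (p.1 ∪ p.2))

/-- SYM (80 lines): symmetry `p ↦ (p.2, p.1)` of `prs C k`. -/
def Stmt_SYM : Prop := ∀ (ι : Type) [DecidableEq ι] (C : Finset ι) (x : ι → ℝ) (k : ℕ),
  2 * ((prs C k).filter (fun p => ∑ i ∈ p.2, x i ≤ 0)).card + pp C x k =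
    (prs C k).card + bad C x k ∧
  2 * ((prs C k).filter (fun p => ∑ i ∈ p.2, x i ≤ 0 ∧
      0 < ∑ i ∈ p.1, x i + ∑ i ∈ p.2, x i)).card + pp C x k + hvy C x k = (prs C k).card ∧
  2 * ((prs C k).filter (fun p => ∑ i ∈ p.2, x i ≤ 0 ∧ 0 < ∑ i ∈ p.1, x i ∧
      ∑ i ∈ p.1, x i + ∑ i ∈ p.2, x i ≤ 0)).card + bad C x k = hvy C x k ∧
  2 * ((prs C k).filter (fun p => ∑ i ∈ p.2, x i < 0 ∧
      ∑ i ∈ p.1, x i + ∑ i ∈ p.2, x i = 0)).card ≤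
    ((prs C k).filter (fun p => ∑ i ∈ p.1, x i + ∑ i ∈ p.2, x i = 0)).card

/-- ZSP (60 lines; uses ZS RSB): pairs whose rest has sum `0`, `x(C) = 0`. (`x(p.1) + x(p.2) = - x(C \ (p.1 ∪ p.2))`; every `T`-subset `K` is the
rest of `C(2k,k)` pairs; `|prs| = C(2k,k) C(m,T)`; ZS, `m - T + 1 = 2k + 1`.) -/
def Stmt_ZSP : Prop := ∀ (ι : Type) [DecidableEq ι] (C : Finset ι) (x : ι → ℝ) (k T : ℕ),
  1 ≤ T → C.card = 2 * k + T → Set.InjOn x C → ∑ i ∈ C, x i = 0 →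
  (2 * k + 1) * ((prs C k).filter (fun p => ∑ i ∈ p.1, x i + ∑ i ∈ p.2, x i = 0)).card ≤
    (prs C k).card

/-- RST (150 lines; uses SH1 SH0 RSB SYM ZSP), the flow (R). `N = k + T`. For every `B` with `x(B) ≤ 0` (`B = B₂`), `R = C \ B`, `x(R) = c - x(B) ≥ c`,
`K ⊆ R`, `B₁ = R \ K`, `x(B₁) + x(B) = c - x(K)`. `c > 0`: SH1 for `y i = c/T - x i`, `d = c k/T`: `y(K) > 0 ↔ x(K) < c ↔ 0 < x(B₁) + x(B)`, and
`y(R) - d = c - x(R)`, so `y(R) - d < y(K) ↔ x(K) < x(R) ↔ 0 < x(B₁)`. `c = 0`, `x(B) = 0`: `W T N φ` for `y = -x` (sum `0`). `c = 0`, `x(B) < 0`: SH0 for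
`y = -x`. Sum over `B` (RSB), multiply by `2/(N (N-1))`; the pairs with `x(K) = 0`, `x(B) < 0` are at most half of those with `x(K) = 0` (SYM),
which are at most `|prs|/(2k+1)` (ZSP). -/
def Stmt_RST : Prop := ∀ (k T : ℕ) (φ : ℝ), 1 ≤ k → 1 ≤ T → 0 ≤ φ → W T (k + T) φ →
  ∀ (ι : Type) [DecidableEq ι] (C : Finset ι) (x : ι → ℝ), C.card = 2 * k + T →
  Set.InjOn x C → 0 ≤ ∑ i ∈ C, x i →
  φ * (((prs C k).card : ℝ) + bad C x k - pp C x k) ≤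
    (((prs C k).card : ℝ) - hvy C x k - pp C x k) +
    (T : ℝ) / (k + T) * ((hvy C x k : ℝ) - bad C x k) +
    (T : ℝ) * k / ((k + T) * (k + T - 1) * (2 * k + 1)) * (prs C k).card

/-! ### C. The reduction with a factor `L` (helper39), `n = 4k + T` -/

/-- (QL): `q - τ ≤ L (w - q)` -/
def QL (k T : ℕ) (L : ℝ) : Prop := ∀ (ι : Type) [DecidableEq ι] (C : Finset ι) (x : ι → ℝ),
  C.card = 2 * k + T → Set.InjOn x C → 0 ≤ ∑ i ∈ C, x i →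
  (2 * (k : ℝ) + T) * bad C x k - T * (prs C k).card ≤
    L * (2 * (k : ℝ) + T) * ((hvy C x k : ℝ) - bad C x k)

/-- (HL): `L q ≤ θ (2 - w - q)`, `θ = 3/2 - τ/4 = (12k+5T)/(4m)` -/
def HL (k T : ℕ) (L : ℝ) : Prop := ∀ (ι : Type) [DecidableEq ι] (C : Finset ι) (x : ι → ℝ),
  C.card = 2 * k + T → Set.InjOn x C → 0 ≤ ∑ i ∈ C, x i →
  4 * (2 * (k : ℝ) + T) * L * bad C x k ≤
    (12 * (k : ℝ) + 5 * T) * (2 * (prs C k).card - hvy C x k - bad C x k)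

/-- number of halvings of `U` with both sums positive -/
noncomputable def ap {ι : Type} [DecidableEq ι] (x : ι → ℝ) (k : ℕ) (U : Finset ι) : ℕ :=
  ((U.powersetCard k).filter (fun B => 0 < ∑ i ∈ B, x i ∧ 0 < ∑ i ∈ U \ B, x i)).card

/-- number of the mixed halvings -/
noncomputable def mx {ι : Type} [DecidableEq ι] (x : ι → ℝ) (k : ℕ) (U : Finset ι) : ℝ :=
  ((2 * k).choose k : ℝ) - al x k U - ap x k U

/-- the mixed halvings of the sets with sum `≤ 0` -/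
noncomputable def be {ι : Type} [DecidableEq ι] (x : ι → ℝ) (k : ℕ) (U : Finset ι) : ℝ :=
  if ∑ i ∈ U, x i ≤ 0 then ((2 * k).choose k : ℝ) - al x k U else 0

/-- `X - al U` for sum `≤ 0`, else `2 X` -/
noncomputable def ga {ι : Type} [DecidableEq ι] (x : ι → ℝ) (k : ℕ) (U : Finset ι) : ℝ :=
  if ∑ i ∈ U, x i ≤ 0 then ((2 * k).choose k : ℝ) - al x k U else 2 * ((2 * k).choose k : ℝ)

/-- sum over ordered pairs of disjoint `2k`-subsets -/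
noncomputable def SS {ι : Type} [DecidableEq ι] (V : Finset ι) (k : ℕ) (f g : Finset ι → ℝ) : ℝ :=
  ∑ p ∈ prs V (2 * k), f p.1 * g p.2

/-- AP2 (60 lines): halvings of a `2k`-set; `B ↦ U \ B` is a bijection; `pos` = the halvings with `x(B) > 0` = both positive, and half of
the mixed ones. -/
def Stmt_AP2 : Prop := ∀ (ι : Type) [DecidableEq ι] (U : Finset ι) (x : ι → ℝ) (k : ℕ),
  U.card = 2 * k →
  (∑ i ∈ U, x i ≤ 0 → ap x k U = 0) ∧ (0 < ∑ i ∈ U, x i → al x k U = 0) ∧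
  al x k U + ap x k U ≤ (2 * k).choose k ∧
  (2 * k).choose k + ap x k U = al x k U + 2 * pos x U k

/-- SSC (60 lines): `SS` as iterated sums, both ways, and symmetry. -/
def Stmt_SSC : Prop := ∀ (ι : Type) [DecidableEq ι] (V : Finset ι) (k : ℕ) (f g : Finset ι → ℝ),
  SS V k f g = ∑ U ∈ V.powersetCard (2 * k), f U * ∑ Z ∈ (V \ U).powersetCard (2 * k), g Z ∧
  SS V k f g = ∑ Z ∈ V.powersetCard (2 * k), g Z * ∑ U ∈ (V \ Z).powersetCard (2 * k), f U ∧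
  SS V k f g = SS V k g f

/-- QSW (100 lines): exchange of `B₂` and `B₃` in a 4-tuple of disjoint `k`-subsets. -/
def Stmt_QSW : Prop := ∀ (ι : Type) [DecidableEq ι] (V : Finset ι) (k : ℕ)
    (F : Finset ι → Finset ι → Finset ι → Finset ι → ℝ),
  ∑ p ∈ prs V k, ∑ z ∈ prs (V \ (p.1 ∪ p.2)) k, F p.1 p.2 z.1 z.2 =
    ∑ p ∈ prs V k, ∑ z ∈ prs (V \ (p.1 ∪ p.2)) k, F p.1 z.1 p.2 z.2

/-- PAR (30 lines): `PAI` of `MP_9999b5_mr` for real-valued functions, the same proof (`B_PAI.lean`). -/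
def Stmt_PAR : Prop := ∀ (ι : Type) [DecidableEq ι] (C : Finset ι) (k : ℕ)
    (F : Finset ι → Finset ι → ℝ),
  ∑ p ∈ prs C k, F p.1 p.2 = ∑ U ∈ C.powersetCard (2 * k), ∑ B ∈ U.powersetCard k, F B (U \ B)

/-- QUD (80 lines; uses PAR SSC): products of numbers of halvings, as sums over 4-tuples. -/
def Stmt_QUD : Prop := ∀ (ι : Type) [DecidableEq ι] (V : Finset ι) (k : ℕ)
    (f g : Finset ι → Finset ι → ℝ),
  SS V k (fun U => ∑ B ∈ U.powersetCard k, f B (U \ B))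
      (fun Z => ∑ B ∈ Z.powersetCard k, g B (Z \ B)) =
    ∑ p ∈ prs V k, ∑ z ∈ prs (V \ (p.1 ∪ p.2)) k, f p.1 p.2 * g z.1 z.2

/-- MM4 (100 lines; uses AP2 SSC QSW QUD): `mx U = 2 g(U)`, `g(U)` = number of `B ∈ U.powersetCard k` with `x(B) > 0`, `x(U \ B) ≤ 0` (and the same
number with the roles exchanged). `∑ g g` = number of the 4-tuples with signs `(+,-,+,-)` = (QSW) signs `(+,+,-,-)` = `SS ap al`. -/
def Stmt_MM4 : Prop := ∀ (ι : Type) [DecidableEq ι] (V : Finset ι) (x : ι → ℝ) (k : ℕ),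
  SS V k (mx x k) (mx x k) = 4 * SS V k (fun U => al x k U) (fun U => ap x k U)

/-- LC1 (80 lines; uses PAC AP2 SSC). For `U` with `al U > 0`: `x(U) ≤ 0`, QL for `C = V \ U`: `bad C = ∑ al Z`, `hvy C - bad C = ∑ be Z` (`al Z = 0`
for `0 < x(Z)`), `|prs C| = X C(m,2k) = ∑ X`. Multiply by `al U` and sum. -/
def Stmt_LC1 : Prop := ∀ (k T : ℕ) (L : ℝ), 1 ≤ k → QL k T L →
  ∀ (ι : Type) [DecidableEq ι] (V : Finset ι) (x : ι → ℝ), V.card = 4 * k + T →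
  Set.InjOn x V → 0 ≤ ∑ i ∈ V, x i →
  (2 * (k : ℝ) + T) * SS V k (fun U => al x k U) (fun U => al x k U) -
      T * SS V k (fun U => al x k U) (fun _ => ((2 * k).choose k : ℝ)) ≤
    L * (2 * (k : ℝ) + T) * SS V k (fun U => al x k U) (be x k)

/-- LC2 (80 lines; uses PAC AP2 SSC). For `Z` with `be Z > 0`: `x(Z) ≤ 0`, HL for `C = V \ Z`: `bad C = ∑ al U`, `2 |prs C| - hvy C - bad C = ∑ ga U`.
Multiply by `be Z` and sum. -/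
def Stmt_LC2 : Prop := ∀ (k T : ℕ) (L : ℝ), 1 ≤ k → HL k T L →
  ∀ (ι : Type) [DecidableEq ι] (V : Finset ι) (x : ι → ℝ), V.card = 4 * k + T →
  Set.InjOn x V → 0 ≤ ∑ i ∈ V, x i →
  4 * (2 * (k : ℝ) + T) * L * SS V k (fun U => al x k U) (be x k) ≤
    (12 * (k : ℝ) + 5 * T) * SS V k (ga x k) (be x k)

/-- LC3 (80 lines; uses AP2 SSC). `mx = be` on sets with sum `≤ 0`; `ga = 2 (mx + ap)` on the others. With `P` = sum over the pairs with `x(U) > 0`,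
`x(Z) ≤ 0`: `SS ga be = ∑_(≤,≤) mx mx + 2 P(mx mx) + 2 P(ap mx)`, `SS mx mx = ∑_(≤,≤) + 2 P(mx mx) + ∑_(>,>)` (symmetry), `P(ap mx) ≤ SS ap mx`. -/
def Stmt_LC3 : Prop := ∀ (ι : Type) [DecidableEq ι] (V : Finset ι) (x : ι → ℝ) (k : ℕ),
  SS V k (ga x k) (be x k) ≤
    SS V k (mx x k) (mx x k) + 2 * SS V k (fun U => ap x k U) (mx x k)

/-- RDL (150 lines; uses AP2 SSC MM4 LC1 LC2 LC3), the reduction. `X = C(2k,k)`, `τ = T/m`, `θ = (12k+5T)/(4m)`, `a = al`, `b = ap`, `M = mx`,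
`a + M + b = X`, `N = X² |prs V (2k)| = X² C(n,2k) C(m,2k)`. `SS(a,a) ≤ τ SS(a,X) + θ (SS(M,M) + 2 SS(M,b))` (LC1 LC2 LC3),
`SS(a,X) = SS(a,a) + SS(a,M) + SS(a,b)`, `N = SS(a,a) + 2 SS(a,M) + 2 SS(a,b) + SS(M,M) + 2 SS(M,b) + SS(b,b)`, `SS(M,M) = 4 SS(a,b)`; so
`(1 - τ/2) SS(a,a) ≤ (τ/2) N + (3/2)(1 - τ/2)(SS(M,M) + 2 SS(M,b))`, with `τ/(2-τ) = T/n`: `SS(a,a) ≤ (T/n) N + (3/2) SS(M,M) + 3 SS(M,b)`.
`2 SS(M + 2b, X) = 2 SS(a,M) + 2 SS(M,M) + 6 SS(M,b) + 4 SS(a,b) + 4 SS(b,b) ≥ (4k/n) N`. And `M + 2b = 2 pos` (AP2), so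
`2 SS(M + 2b, X) = 4 X C(m,2k) C(n-k,k) pos V`, `X C(n,2k) = C(n,k) C(n-k,k)`. -/
def Stmt_RDL : Prop := ∀ (k T : ℕ) (L : ℝ), 1 ≤ k → 0 ≤ L → QL k T L → HL k T L →
  W k (4 * k + T) ((k : ℝ) / (4 * k + T))

/-! ### D. Bounds for `q` -/

/-- `q ≤ Q` -/
def QB (k T : ℕ) (Q : ℝ) : Prop := ∀ (ι : Type) [DecidableEq ι] (C : Finset ι) (x : ι → ℝ),
  C.card = 2 * k + T → Set.InjOn x C → 0 ≤ ∑ i ∈ C, x i →
  (bad C x k : ℝ) ≤ Q * (prs C k).card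

/-- QBW (60 lines; uses SYM): `2 C(k+T,k) pos = |prs| + pp - bad` (from SYM: `#{x(B₂) ≤ 0} = C(k+T,k) (C(m,k) - pos)`), `|prs| = C(m,k) C(k+T,k)`. -/
def Stmt_QBW : Prop := ∀ (k T : ℕ) (Q : ℝ), 1 ≤ k → QB k T Q → W k (2 * k + T) ((1 - Q) / 2)

/-- SC1 (80 lines), real numbers. Suppose `q > Q = 66/125`. `D(q) = q² - τ(1+τ)q + τ`, `2 ψ q D(q) ≤ D l ≤ τ(1-q)(1-τq)`; the left side increases with `q`
(`D' = 2q - τ(1+τ) > 0`), the right side decreases, so `2 ψ Q D(Q) ≤ τ(1-Q)(1-τQ)`; the difference is decreasing in `τ` and positive at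
the right end (`.1883 > .1672`, `.2016 > .1859`, `.2292 > .2093`, `.2492 > .2398` after division by `D`). -/
def Stmt_SC1 : Prop := ∀ τ ψ q l : ℝ, 0 < τ → 0 ≤ q → q ≤ 1 → 2 * ψ * q ≤ l →
  (q ^ 2 - τ * (1 + τ) * q + τ) * l ≤ τ * (1 - q) * (1 - τ * q) →
  ((τ ≤ 1 / 8 ∧ 217 / 1217 ≤ ψ) ∨ (τ ≤ 1 / 7 ∧ 236 / 1236 ≤ ψ) ∨ (τ ≤ 1 / 6 ∧ 217 / 1000 ≤ ψ) ∨
    (τ ≤ 1 / 5 ∧ 236 / 1000 ≤ ψ)) → q ≤ 66 / 125

/-- the lower bound for `l` from (R): `(1+t) φ (1+q) - t (1-q) - loss`, `loss = T/((k+T-1)(2k+1))`, `t = T/k` -/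
noncomputable def lowR (k T : ℕ) (φ q : ℝ) : ℝ :=
  (1 + (T : ℝ) / k) * φ * (1 + q) - (T : ℝ) / k * (1 - q) - (T : ℝ) / ((k + T - 1) * (2 * k + 1))

/-- LSA (40 lines), the loss. `2T (3k - T) ≤ (k-T)(k+T-1)(2k+1)` for `T ≤ k - 1` (equality for `T = k - 1`), and
`(k+3T)(5k-T) ≤ 2 (k-T)(k+T-1)(2k+1)` for `T ≤ k - 2` (equality for `T = k - 2`). -/
def Stmt_LSA : Prop := ∀ k T : ℕ, 1 ≤ T →
  (T + 1 ≤ k → (T : ℝ) / (((k : ℝ) + T - 1) * (2 * k + 1)) ≤ ((k : ℝ) - T) / (2 * (3 * k - T))) ∧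
  (T + 2 ≤ k → (T : ℝ) / (((k : ℝ) + T - 1) * (2 * k + 1)) ≤
    2 * (T : ℝ) * (k - T) / ((k + 3 * T) * (5 * k - T)))

/-- SC2 (100 lines; uses LSA), `1/2 < t ≤ 2/3`, `Q = 283/500`, `φ = 217/1000`. `τ = T/(2k+T)`, `t = 2τ/(1-τ)`, `τ ∈ [1/5, 1/4]`. `D(q) lowR(q)` increases with `q`,
`τ(1-q)(1-τq)` decreases; at `q = Q` the values of `lowR` are at least `.2496` (t = .5), `.2443` (.6), `.2428` (2/3) against
`.2029`, `.2231`, `.2367` for `τ(1-Q)(1-τQ)/D(Q)`. Second claim: `lowR(Q) ≥ (17/10 · 4m/(12k+5T) + 1) Q - 1` (at most `.2354` at `t = 2/3`). -/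
def Stmt_SC2 : Prop := ∀ (k T : ℕ) (q l : ℝ), T + 2 ≤ k → k < 2 * T → 3 * T ≤ 2 * k →
  0 ≤ q → q ≤ 1 → lowR k T (217 / 1000) q ≤ l →
  ((2 * (k : ℝ) + T) ^ 2 * q ^ 2 - T * (2 * k + 2 * T) * q + T * (2 * k + T)) * l ≤
      T * (1 - q) * ((2 * k + T) - T * q) →
  q ≤ 283 / 500 ∧ 4 * (2 * (k : ℝ) + T) * (17 / 10) * q ≤ (12 * (k : ℝ) + 5 * T) * (1 + l - q)

/-- SC3 (120 lines; uses LSA), `2/3 < t < 1`, `φ = 236/1000`. `lowR(Q)` is at least `.2553` (t = 2/3), `.2657` (.75), `.2725` (.8), `.2838` (.875), `.2878` (.9),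
`.2962` (.95), `.3052` (1) with the loss `(1-t)/(2(3-t))`, against `.2367`, `.2524`, `.2611`, `.2733`, `.2772`, `.2847`, `.2919`. -/
def Stmt_SC3 : Prop := ∀ (k T : ℕ) (q l : ℝ), T + 1 ≤ k → 2 * k < 3 * T →
  0 ≤ q → q ≤ 1 → lowR k T (236 / 1000) q ≤ l →
  ((2 * (k : ℝ) + T) ^ 2 * q ^ 2 - T * (2 * k + 2 * T) * q + T * (2 * k + T)) * l ≤
      T * (1 - q) * ((2 * k + T) - T * q) →
  q ≤ 283 / 500 ∧ 4 * (2 * (k : ℝ) + T) * (17 / 10) * q ≤ (12 * (k : ℝ) + 5 * T) * (1 + l - q)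

/-- SC4 (40 lines), `k = 3`, `T = 2`, `φ = 1/4`. -/
def Stmt_SC4 : Prop := ∀ q l : ℝ, 0 ≤ q → q ≤ 1 → lowR 3 2 (1 / 4) q ≤ l →
  (64 * q ^ 2 - 20 * q + 16) * l ≤ 2 * (1 - q) * (8 - 2 * q) →
  q ≤ 283 / 500 ∧ 32 * (17 / 10) * q ≤ 46 * (1 + l - q)

/-- QA1 (80 lines; uses NR2 RBZ EXG SC1), `t ≤ 1/2`. `τ ≤ 1/8 ↔ 7T ≤ 2k`, `τ ≤ 1/7 ↔ 3T ≤ k`, `τ ≤ 1/6 ↔ 5T ≤ 2k`, `τ ≤ 1/5 ↔ 2T ≤ k`. RBZ gives
`D (1-w) ≤ D - q²(1-τ²) = τ(1-q)(1-τq)`, EXG gives `2 ψ q ≤ 1 - w - r`. Second claim (HL): `q (1.7/θ + 1 - 2ψ) ≤ 1`, `θ ≥ 1.45`, `ψ ≥ .178`, `q ≤ .528`. -/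
def Stmt_QA1 : Prop := ∀ (k T : ℕ) (ψ : ℝ), 1 ≤ T → 2 * T ≤ k → W T k ψ →
  ((7 * T ≤ 2 * k ∧ 217 / 1217 ≤ ψ) ∨ (3 * T ≤ k ∧ 236 / 1236 ≤ ψ) ∨
    (5 * T ≤ 2 * k ∧ 217 / 1000 ≤ ψ) ∨ 236 / 1000 ≤ ψ) →
  QB k T (66 / 125) ∧ HL k T (17 / 10)

/-- QA2 (100 lines; uses NR2 RBZ RST SC2 SC3 SC4), `1/2 < t < 1`. RST divided by `|prs|`: `(1-u) l + u (1-q) + E ≥ φ(1+q) + (1-φ) r`, `u = T/(k+T)`,
`E/(1-u) = T/((k+T-1)(2k+1))`, so `lowR(q) ≤ l` (`φ ≤ 1`: if `φ > 1` use `φ = 236/1000`). -/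
def Stmt_QA2 : Prop := ∀ (k T : ℕ) (φ : ℝ), k < 2 * T → T < k → W T (k + T) φ →
  ((3 * T ≤ 2 * k ∧ 217 / 1000 ≤ φ ∧ T + 2 ≤ k) ∨ (2 * k < 3 * T ∧ 236 / 1000 ≤ φ) ∨
    (k = 3 ∧ T = 2 ∧ 1 / 4 ≤ φ)) →
  QB k T (283 / 500) ∧ HL k T (17 / 10)

/-- SC5 (60 lines), real numbers, (QL). `Λ = 17/10`, `η = 10/27`. `q ≤ τ`: clear. `q > τ`: suppose `17 (w - q) < 10 (q - τ)`; with `D = q² - τ(1+τ)q + τ`:
`17 (1-τ²) q² ≤ 17 w D < (27 q - 10 τ) D`, but `17 (1-τ²) q² - (27 q - 10 τ) D = - 27 (q-τ) (q² - (1 - η(1-τ-τ²)) q + ητ)` and the last factor is `≤ 0`: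
convex in `q`, at `q = τ`: `τ (τ - 1 + 2η - ητ - ητ²)`, at `q = 283/500`, `τ ≤ 1/3`: at most `-.0057`. -/
def Stmt_SC5 : Prop := ∀ τ w q : ℝ, 0 < τ → τ ≤ 1 / 3 → 0 ≤ q → q ≤ w → w ≤ 1 →
  q ≤ 283 / 500 → q ^ 2 * (1 - τ ^ 2) ≤ w * (q ^ 2 - τ * (1 + τ) * q + τ) →
  10 * (q - τ) ≤ 17 * (w - q)

/-- QLB (50 lines; uses NR2 RBZ SC5). -/
def Stmt_QLB : Prop := ∀ (k T : ℕ), 1 ≤ T → T ≤ k → QB k T (283 / 500) → QL k T (17 / 10)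

/-! ### E. The induction -/

/-- the invariant for `y`-subsets -/
def Inv (y : ℕ) : Prop :=
  (∀ N : ℕ, 2 * y ≤ N → 2 * N < 5 * y → W y N (236 / 1000)) ∧
  (∀ N : ℕ, 5 * y ≤ 2 * N → N < 3 * y → W y N (217 / 1000)) ∧
  (∀ N : ℕ, 3 * y ≤ N → 2 * N < 7 * y → W y N (236 / 1236)) ∧
  (∀ N : ℕ, 7 * y ≤ 2 * N → N < 4 * y → W y N (217 / 1217)) ∧
  (∀ N : ℕ, 4 * y ≤ N → W y N ((y : ℝ) / N))

/-- MUP (60 lines; uses H2), the recursion: the last three parts of the invariant from the first two and `n = 4y + T`, by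
`MaxSums.Recursion` (proved: `helper93Recursion.holds`, `φ/(1+φ)`), `236/1236 = (236/1000)/(1 + 236/1000)`, induction on `n` for the last part. -/
def Stmt_MUP : Prop := ∀ y : ℕ, 1 ≤ y →
  (∀ T : ℕ, T < y → 1 ≤ T → 2 * T < y → W y (2 * y + T) (236 / 1000)) →
  (∀ T : ℕ, T < y → y ≤ 2 * T → W y (2 * y + T) (217 / 1000)) →
  (∀ T : ℕ, T < y → 1 ≤ T → W y (4 * y + T) ((y : ℝ) / (4 * y + T))) →
  W y (4 * y) (1 / 4) → Inv y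

/-- STP (100 lines; uses LIF RED HOE MST QBW QA1 QA2 QLB RDL), one step: `T < y`, `1 ≤ T`. `T ∣ y`: LIF: `HH`, so `QB y T (1/2)`, and RED. `4T ≤ y`: `W T y (T/y)` by
`Inv T`; HOE gives HO, `m/(2m+T) ≤ 1/2`; MST. Else: `y < 4T < 4y`, `T ∤ y`. `2T < y`: `W T y ψ` from `Inv T` (`N = y`, `2T < y < 4T`, four ranges), QA1. `2T > y`:
`W T (y+T) φ` from `Inv T` (`2T < y + T < 3T`), QA2; `y = 3`, `T = 2`: `W 2 5 (1/4)` from LIF (`u = 2`, `T = 1`) and QBW. In both cases QBW, QLB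
(`66/125 ≤ 283/500`), RDL. -/
def Stmt_STP : Prop := ∀ y : ℕ, (∀ z : ℕ, 1 ≤ z → z < y → Inv z) → ∀ T : ℕ, 1 ≤ T → T < y →
  (2 * T < y → W y (2 * y + T) (236 / 1000)) ∧ W y (2 * y + T) (217 / 1000) ∧
  W y (4 * y + T) ((y : ℝ) / (4 * y + T))

/-- ALL (30 lines; uses MUP STP): strong induction; `W y (4y) (1/4)`: `helper84Div.pos_ge` (see `Results/MP_9999b5_co/Divisible.lean`). -/
def Stmt_ALL : Prop := ∀ y : ℕ, 1 ≤ y → Inv y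

/-- FUL (60 lines; uses ALL), the whole question. `isGreatest_of`, `Transfer.MMS_of_greatest` as in `MP_9999b5_mr` (block FIN). -/
def Stmt_FUL : Prop := ∀ k n : ℕ, 0 < k → 4 * k ≤ n →
  IsGreatest (Pool.Agent.Work.MaxSums.values k n) ((n - 1).choose k) ∧
    Pool.Agent.Work.MaxSums.MMS k n

end Pool.Agent.Work.MP_9999b5_mf
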