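import Pool.Agent.Work.MP_9999b5_mr.All
import Pool.Agent.Work.MP_9999b5_sp.All
import Pool.Agent.Work.MP_9999b5_mf.Interface
import Pool.Agent.Work.MP_9999b5_mf.B_ZS
import Pool.Agent.Work.MP_9999b5_mf.B_H2
import Pool.Agent.Work.MP_9999b5_mf.B_RST
import Pool.Agent.Work.MP_9999b5_mf.B_SYM
import Pool.Agent.Work.MP_9999b5_mf.B_AP2
import Pool.Agent.Work.MP_9999b5_mf.B_SSC
import Pool.Agent.Work.MP_9999b5_mf.B_QSW
import Pool.Agent.Work.MP_9999b5_mf.B_PAR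
import Pool.Agent.Work.MP_9999b5_mf.B_QUD
import Pool.Agent.Work.MP_9999b5_mf.B_MM4
import Pool.Agent.Work.MP_9999b5_mf.B_LC1
import Pool.Agent.Work.MP_9999b5_mf.B_LC2
import Pool.Agent.Work.MP_9999b5_mf.B_LC3
import Pool.Agent.Work.MP_9999b5_mf.B_RDL
import Pool.Agent.Work.MP_9999b5_mf.B_QBW
import Pool.Agent.Work.MP_9999b5_mf.B_SC1
import Pool.Agent.Work.MP_9999b5_mf.B_LSA
import Pool.Agent.Work.MP_9999b5_mf.B_SC2
import Pool.Agent.Work.MP_9999b5_mf.B_SC3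
import Pool.Agent.Work.MP_9999b5_mf.B_SC4
import Pool.Agent.Work.MP_9999b5_mf.B_SC5
import Pool.Agent.Work.MP_9999b5_mf.B_QA1
import Pool.Agent.Work.MP_9999b5_mf.B_QA2
import Pool.Agent.Work.MP_9999b5_mf.B_QLB
import Pool.Agent.Work.MP_9999b5_mf.B_MUP
import Pool.Agent.Work.MP_9999b5_mf.B_STP
import Pool.Agent.Work.MP_9999b5_mf.B_ALL
import Pool.Agent.Work.MP_9999b5_mf.B_FUL

/-!
MP_9999b5_co (Manickam-Miklos-Singhi), the full conjecture: assembly of the blocks. `h_ALL` = the invariant for all `y`, `h_FUL` = the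
question for all `n ≥ 4k`.
-/

set_option autoImplicit false

namespace Pool.Agent.Work.MP_9999b5_mf

theorem h_H2 : Stmt_H2 := p_H2 p_ZS

theorem h_RST : Stmt_RST := RST_direct

theorem h_QUD : Stmt_QUD := p_QUD p_PAR p_SSC

theorem h_MM4 : Stmt_MM4 := p_MM4 p_AP2 p_SSC p_QSW h_QUD

theorem h_LC1 : Stmt_LC1 := p_LC1 MP_9999b5_mr.h_PAC p_AP2 p_SSC

theorem h_LC2 : Stmt_LC2 := p_LC2 MP_9999b5_mr.h_PAC p_AP2 p_SSC

theorem h_LC3 : Stmt_LC3 := p_LC3 p_AP2 p_SSC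

/-- the reduction with a factor `L` -/
theorem h_RDL : Stmt_RDL := p_RDL p_AP2 p_SSC h_MM4 h_LC1 h_LC2 h_LC3

theorem h_QBW : Stmt_QBW := p_QBW p_SYM

theorem h_SC2 : Stmt_SC2 := p_SC2 p_LSA

theorem h_SC3 : Stmt_SC3 := p_SC3 p_LSA

theorem h_QA1 : Stmt_QA1 := p_QA1 MP_9999b5_sp.h_NR2 MP_9999b5_sp.p_RBZ MP_9999b5_sp.p_EXG p_SC1

theorem h_QA2 : Stmt_QA2 := p_QA2 MP_9999b5_sp.h_NR2 MP_9999b5_sp.p_RBZ h_RST h_SC2 h_SC3 p_SC4

theorem h_QLB : Stmt_QLB := p_QLB MP_9999b5_sp.h_NR2 MP_9999b5_sp.p_RBZ p_SC5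

theorem h_MUP : Stmt_MUP := p_MUP h_H2

theorem h_STP : Stmt_STP := p_STP MP_9999b5_mr.h_LIF MP_9999b5_mr.h_RED MP_9999b5_sp.h_HOE
  MP_9999b5_sp.h_MST h_QBW h_QA1 h_QA2 h_QLB h_RDL

/-- the invariant, in particular `W y N (y/N)` for all `N ≥ 4y` -/
theorem h_ALL : Stmt_ALL := p_ALL h_MUP h_STP

/-- the whole question -/
theorem h_FUL : Stmt_FUL := p_FUL h_ALL

end Pool.Agent.Work.MP_9999b5_mf
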