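import Pool.Agent.Work.MP_9999b5_mf.Interface

/-! Block PAR: pairs as `2k`-subsets with a half, real-valued functions. -/

set_option autoImplicit false

namespace Pool.Agent.Work.MP_9999b5_mf

open Finset
open Pool.Agent.Work.MP_9999b5_mr (prs)

theorem p_PAR : Stmt_PAR := by
  intro ι _ C k F
  rw [Finset.sum_sigma']
  refine Finset.sum_bij' (i := fun p _ => (⟨p.1 ∪ p.2, p.1⟩ : (_ : Finset ι) × Finset ι))
    (j := fun q _ => (q.2, q.1 \ q.2)) ?_ ?_ ?_ ?_ ?_
  · rintro ⟨A, B⟩ h
    simp only [prs, mem_filter, mem_product, mem_powersetCard] at h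
    obtain ⟨⟨⟨hA, hAc⟩, hB, hBc⟩, hd⟩ := h
    simp only [mem_sigma, mem_powersetCard]
    exact ⟨⟨union_subset hA hB, by rw [card_union_of_disjoint hd, hAc, hBc]; ring⟩,
      subset_union_left, hAc⟩
  · rintro ⟨U, B⟩ h
    simp only [mem_sigma, mem_powersetCard] at h
    obtain ⟨⟨hU, hUc⟩, hB, hBc⟩ := h
    simp only [prs, mem_filter, mem_product, mem_powersetCard]
    refine ⟨⟨⟨hB.trans hU, hBc⟩, sdiff_subset.trans hU, ?_⟩, disjoint_sdiff⟩
    rw [card_sdiff_of_subset hB, hUc, hBc]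
    omega
  · rintro ⟨A, B⟩ h
    simp only [prs, mem_filter, mem_product, mem_powersetCard] at h
    obtain ⟨-, hd⟩ := h
    simp only [Prod.mk.injEq, true_and]
    rw [union_sdiff_cancel_left hd]
  · rintro ⟨U, B⟩ h
    simp only [mem_sigma, mem_powersetCard] at h
    obtain ⟨-, hB, -⟩ := h
    simp only [Sigma.mk.injEq, heq_eq_eq, and_true]
    exact union_sdiff_of_subset hB
  · rintro ⟨A, B⟩ h
    simp only [prs, mem_filter, mem_product, mem_powersetCard] at h
    obtain ⟨-, hd⟩ := h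
    simp only
    rw [union_sdiff_cancel_left hd]

end Pool.Agent.Work.MP_9999b5_mf
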