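import Pool.Agent.Work.MP_9999b5_mf.Interface

/-! Block RSB: the pairs (`B`, `K`), `K` a `T`-subset outside `B`, are the pairs of `prs C k` (complement). -/

set_option autoImplicit false

namespace Pool.Agent.Work.MP_9999b5_mf

open Finset
open Pool.Agent.Work.MP_9999b5_mr (prs)

theorem p_RSB : Stmt_RSB := by
  intro ι _ C k T F hC
  rw [Finset.sum_sigma']
  refine Finset.sum_bij' (i := fun q _ => ((C \ q.1) \ q.2, q.1))
    (j := fun p _ => (⟨p.2, C \ (p.1 ∪ p.2)⟩ : (_ : Finset ι) × Finset ι)) ?_ ?_ ?_ ?_ ?_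
  · rintro ⟨B, K⟩ h
    simp only [mem_sigma, mem_powersetCard] at h
    obtain ⟨⟨hB, hBc⟩, hK, hKc⟩ := h
    simp only [prs, mem_filter, mem_product, mem_powersetCard]
    refine ⟨⟨⟨sdiff_subset.trans sdiff_subset, ?_⟩, hB, hBc⟩, ?_⟩
    · rw [card_sdiff_of_subset hK, card_sdiff_of_subset hB, hC, hBc, hKc]
      omega
    · exact disjoint_of_subset_left sdiff_subset sdiff_disjoint
  · rintro ⟨A, B⟩ h
    simp only [prs, mem_filter, mem_product, mem_powersetCard] at h
    obtain ⟨⟨⟨hA, hAc⟩, hB, hBc⟩, hd⟩ := h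
    simp only [mem_sigma, mem_powersetCard]
    refine ⟨⟨hB, hBc⟩, sdiff_subset_sdiff (Subset.refl _) subset_union_right, ?_⟩
    rw [card_sdiff_of_subset (union_subset hA hB), card_union_of_disjoint hd, hAc, hBc, hC]
    omega
  · rintro ⟨B, K⟩ h
    simp only [mem_sigma, mem_powersetCard] at h
    obtain ⟨⟨hB, hBc⟩, hK, hKc⟩ := h
    simp only [Sigma.mk.injEq, heq_eq_eq, true_and]
    ext i
    have h1 : i ∈ K → i ∈ C ∧ i ∉ B := fun hi => mem_sdiff.mp (hK hi)
    simp only [mem_sdiff, mem_union]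
    tauto
  · rintro ⟨A, B⟩ h
    simp only [prs, mem_filter, mem_product, mem_powersetCard] at h
    obtain ⟨⟨⟨hA, hAc⟩, hB, hBc⟩, hd⟩ := h
    simp only [Prod.mk.injEq, and_true]
    ext i
    have h1 : i ∈ A → i ∈ C := fun hi => hA hi
    have h2 : i ∈ A → i ∉ B := fun hi hb => (disjoint_left.mp hd) hi hb
    simp only [mem_sdiff, mem_union]
    tauto
  · rintro ⟨B, K⟩ h
    simp only [mem_sigma, mem_powersetCard] at h
    obtain ⟨⟨hB, hBc⟩, hK, hKc⟩ := h
    simp only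
    congr 1
    ext i
    have h1 : i ∈ K → i ∈ C ∧ i ∉ B := fun hi => mem_sdiff.mp (hK hi)
    simp only [mem_sdiff, mem_union]
    tauto

end Pool.Agent.Work.MP_9999b5_mf
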