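import Pool.Agent.Work.MP_9999b5_mf.Interface

set_option autoImplicit false

/-!
# Block SC3 of MP_9999b5: the scalar inequalities for `2/3 < t < 1` (helper79)
-/

namespace Pool.Agent.Work.MP_9999b5_mf

open Finset

theorem SC3_poly {t : ℝ} (h1 : 2 / 3 < t) (h2 : t < 1) :
    t * (1 - 283 / 500) * ((2 + t) - t * (283 / 500)) <
      ((2 + t) ^ 2 * (283 / 500) ^ 2 - t * (2 + 2 * t) * (283 / 500) + t * (2 + t)) *
        ((1 + t) * (236 / 1000) * (1 + 283 / 500) - t * (1 - 283 / 500) - (1 - t) / 4) := by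
  nlinarith [sq_nonneg (t - 7 / 10), mul_pos (sub_pos.2 h1) (sub_pos.2 h2),
    mul_nonneg (le_of_lt (lt_trans (by norm_num) h1) : (0 : ℝ) ≤ t) (sq_nonneg (t - 7 / 10))]

theorem SC3_real {t q l : ℝ} (h1 : 2 / 3 < t) (h2 : t < 1) (hq0 : 0 ≤ q) (hq1 : q ≤ 1)
    (hl : (1 + t) * (236 / 1000) * (1 + q) - t * (1 - q) - (1 - t) / 4 ≤ l)
    (h : ((2 + t) ^ 2 * q ^ 2 - t * (2 + 2 * t) * q + t * (2 + t)) * l ≤
      t * (1 - q) * ((2 + t) - t * q)) :
    q ≤ 283 / 500 ∧ 4 * (2 + t) * (17 / 10) * q ≤ (12 + 5 * t) * (1 + l - q) := by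
  have ht0 : 0 < t := lt_trans (by norm_num) h1
  have hq : q ≤ 283 / 500 := by
    by_contra hcon
    push Not at hcon
    have hD : (2 + t) ^ 2 * (283 / 500) ^ 2 - t * (2 + 2 * t) * (283 / 500) + t * (2 + t) ≤
        (2 + t) ^ 2 * q ^ 2 - t * (2 + 2 * t) * q + t * (2 + t) := by
      have e1 : 0 ≤ (q - 283 / 500) * ((2 + t) ^ 2 * (q + 283 / 500) - t * (2 + 2 * t)) := by
        refine mul_nonneg (by linarith) ?_
        nlinarith
      nlinarith
    have hDQ : 0 < (2 + t) ^ 2 * (283 / 500) ^ 2 - t * (2 + 2 * t) * (283 / 500) + t * (2 + t) := by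
      nlinarith
    have hL : (1 + t) * (236 / 1000) * (1 + 283 / 500) - t * (1 - 283 / 500) - (1 - t) / 4 ≤ l := by
      have e1 : 0 ≤ ((1 + t) * (236 / 1000) + t) * (q - 283 / 500) :=
        mul_nonneg (by nlinarith) (by linarith)
      nlinarith
    have hLQ : 0 ≤ (1 + t) * (236 / 1000) * (1 + 283 / 500) - t * (1 - 283 / 500) - (1 - t) / 4 := by
      nlinarith
    have hR : t * (1 - q) * ((2 + t) - t * q) ≤
        t * (1 - 283 / 500) * ((2 + t) - t * (283 / 500)) := by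
      have e1 : t * (1 - q) ≤ t * (1 - 283 / 500) :=
        mul_le_mul_of_nonneg_left (by linarith) ht0.le
      have e2 : (2 + t) - t * q ≤ (2 + t) - t * (283 / 500) := by
        nlinarith
      have e3 : 0 ≤ (2 + t) - t * q := by nlinarith
      have e4 : 0 ≤ t * (1 - 283 / 500) := mul_nonneg ht0.le (by norm_num)
      exact mul_le_mul e1 e2 e3 e4
    have hM : ((2 + t) ^ 2 * (283 / 500) ^ 2 - t * (2 + 2 * t) * (283 / 500) + t * (2 + t)) *
        ((1 + t) * (236 / 1000) * (1 + 283 / 500) - t * (1 - 283 / 500) - (1 - t) / 4) ≤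
        ((2 + t) ^ 2 * q ^ 2 - t * (2 + 2 * t) * q + t * (2 + t)) * l :=
      mul_le_mul hD hL hLQ (hDQ.le.trans hD)
    have := SC3_poly h1 h2
    linarith
  refine ⟨hq, ?_⟩
  have e1 : (12 + 5 * t) * (1 + ((1 + t) * (236 / 1000) * (1 + q) - t * (1 - q) - (1 - t) / 4) - q) ≤
      (12 + 5 * t) * (1 + l - q) :=
    mul_le_mul_of_nonneg_left (by linarith) (by linarith)
  have A0 : 0 ≤ (12 + 5 * t) * (1 + ((1 + t) * (236 / 1000) - t - (1 - t) / 4)) := by
    refine mul_nonneg (by linarith) ?_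
    nlinarith
  have A1 : 4 * (2 + t) * (17 / 10) * (283 / 500) ≤ (12 + 5 * t) *
      (1 + ((1 + t) * (236 / 1000) * (1 + 283 / 500) - t * (1 - 283 / 500) - (1 - t) / 4) -
        283 / 500) := by
    nlinarith
  have B0 : 0 ≤ (283 / 500 - q) * ((12 + 5 * t) * (1 + ((1 + t) * (236 / 1000) - t - (1 - t) / 4))) :=
    mul_nonneg (by linarith) A0
  have B1 : 0 ≤ q * ((12 + 5 * t) *
      (1 + ((1 + t) * (236 / 1000) * (1 + 283 / 500) - t * (1 - 283 / 500) - (1 - t) / 4) -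
        283 / 500) - 4 * (2 + t) * (17 / 10) * (283 / 500)) :=
    mul_nonneg hq0 (by linarith)
  have B2 : (283 / 500 : ℝ) * (4 * (2 + t) * (17 / 10) * q) ≤ (283 / 500 : ℝ) *
      ((12 + 5 * t) * (1 + ((1 + t) * (236 / 1000) * (1 + q) - t * (1 - q) - (1 - t) / 4) - q)) := by
    linarith
  have B3 := le_of_mul_le_mul_left B2 (by norm_num : (0 : ℝ) < 283 / 500)
  linarith

theorem p_SC3 : Stmt_LSA → Stmt_SC3 := by
  intro hLSA k T q l hTk hkT hq0 hq1 hl h
  have hT1 : 1 ≤ T := by omega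
  have hk0 : (0 : ℝ) < k := by
    have : 0 < k := by omega
    exact_mod_cast this
  have hT0 : (0 : ℝ) < T := by exact_mod_cast (show 0 < T by omega)
  have hTk' : (T : ℝ) < k := by exact_mod_cast (show T < k by omega)
  have hkT' : 2 * (k : ℝ) < 3 * T := by exact_mod_cast hkT
  obtain ⟨t, ht⟩ : ∃ t : ℝ, (T : ℝ) / k = t := ⟨_, rfl⟩
  have hTt : (T : ℝ) = t * k := by
    rw [← ht]
    field_simp
  have h1 : 2 / 3 < t := by
    rw [← ht, lt_div_iff₀ hk0]
    linarith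
  have h2 : t < 1 := by
    rw [← ht, div_lt_one hk0]
    exact hTk'
  have hloss : (T : ℝ) / (((k : ℝ) + T - 1) * (2 * k + 1)) ≤ (1 - t) / 4 := by
    refine ((hLSA k T hT1).1 hTk).trans ?_
    have e1 : (0 : ℝ) < 2 * (3 * k - T) := by linarith
    rw [div_le_iff₀ e1, hTt]
    have e2 : 0 ≤ (k : ℝ) * ((1 - t) * (1 - t)) :=
      mul_nonneg hk0.le (mul_nonneg (by linarith) (by linarith))
    nlinarith
  have hl' : (1 + t) * (236 / 1000) * (1 + q) - t * (1 - q) - (1 - t) / 4 ≤ l := by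
    unfold lowR at hl
    rw [ht] at hl
    linarith
  have h' : ((2 + t) ^ 2 * q ^ 2 - t * (2 + 2 * t) * q + t * (2 + t)) * l ≤
      t * (1 - q) * ((2 + t) - t * q) := by
    have hk2 : (0 : ℝ) < (k : ℝ) ^ 2 := by positivity
    refine le_of_mul_le_mul_left ?_ hk2
    rw [hTt] at h
    linarith
  obtain ⟨c1, c2⟩ := SC3_real h1 h2 hq0 hq1 hl' h'
  refine ⟨c1, ?_⟩
  have c3 := mul_le_mul_of_nonneg_left c2 hk0.le
  rw [hTt]
  linarith

end Pool.Agent.Work.MP_9999b5_mf
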