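import Pool.Agent.Work.MP_9999b5_mf.Interface

/-!
MP_9999b5_co, block SH1: shift lemma with margin.
-/

set_option autoImplicit false

namespace Pool.Agent.Work.MP_9999b5_mf

open Finset
open Pool.Agent.Work.MaxSums (W pos)

theorem SH1_count {ι : Type} [DecidableEq ι] (R : Finset ι) (T : ℕ)
    (M : Finset (Finset ι)) (hM : M ⊆ R.powersetCard T) :
    ∑ z ∈ R, (M.filter (fun K => z ∈ K)).card = T * M.card := by
  have h1 : ∀ z ∈ R, (M.filter (fun K => z ∈ K)).card = ∑ K ∈ M, if z ∈ K then 1 else 0 := by
    intro z _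
    rw [Finset.card_filter]
  rw [Finset.sum_congr rfl h1, Finset.sum_comm]
  have h2 : ∀ K ∈ M, (∑ z ∈ R, if z ∈ K then 1 else 0) = T := by
    intro K hK
    have h3 := Finset.mem_powersetCard.mp (hM hK)
    rw [← Finset.card_filter, Finset.filter_mem_eq_inter, Finset.inter_eq_right.mpr h3.1, h3.2]
  rw [Finset.sum_congr rfl h2, Finset.sum_const, smul_eq_mul, mul_comm]

theorem p_SH1 : Stmt_WNI → Stmt_SH1 := by
  intro hW T N φ hT hTN hWT ι _ R y d hR hd
  have hN : (0 : ℝ) < N := by
    have : 0 < N := by omega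
    exact_mod_cast this
  set A := (R.powersetCard T).filter (fun K => 0 < ∑ i ∈ K, y i) with hA
  set M := (R.powersetCard T).filter (fun K => ∑ i ∈ K, y i ≤ 0 ∧
      ∑ i ∈ R, y i - d < ∑ i ∈ K, y i) with hMdef
  by_cases hpos : 0 < ∑ i ∈ R, y i
  · have h := hW T N φ hWT ι R y hR hpos
    have h' : φ * (N.choose T : ℝ) ≤ (A.card : ℝ) := h
    have h2 := mul_le_mul_of_nonneg_left h' hN.le
    have h3 : (0 : ℝ) ≤ (T : ℝ) * (M.card : ℝ) := by positivity
    linarith
  · push Not at hpos
    have key : ∀ z ∈ R, φ * (N.choose T : ℝ) ≤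
        (A.card : ℝ) + ((M.filter (fun K => z ∈ K)).card : ℝ) := by
      intro z hz
      set s := ∑ i ∈ R, y i with hs
      let y' : ι → ℝ := fun i => if i = z then y z - s + d else y i
      have e1 : ∀ K : Finset ι, z ∉ K → ∑ i ∈ K, y' i = ∑ i ∈ K, y i := by
        intro K hK
        refine Finset.sum_congr rfl (fun i hi => ?_)
        have : i ≠ z := fun h => hK (h ▸ hi)
        simp [y', this]
      have e2 : ∀ K : Finset ι, z ∈ K → ∑ i ∈ K, y' i = ∑ i ∈ K, y i - s + d := by
        intro K hK
        rw [← Finset.add_sum_erase _ _ hK, ← Finset.add_sum_erase K y hK]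
        have h4 : ∑ i ∈ K.erase z, y' i = ∑ i ∈ K.erase z, y i := e1 _ (Finset.notMem_erase z K)
        rw [h4]
        simp only [y', if_true]
        ring
      have hsum : 0 < ∑ i ∈ R, y' i := by
        rw [e2 R hz]
        linarith
      have h := hW T N φ hWT ι R y' hR hsum
      refine h.trans ?_
      have hsub : (R.powersetCard T).filter (fun K => 0 < ∑ i ∈ K, y' i) ⊆
          A ∪ M.filter (fun K => z ∈ K) := by
        intro K hK
        rw [Finset.mem_filter] at hK
        obtain ⟨hK1, hK2⟩ := hK
        rw [Finset.mem_union]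
        by_cases h0 : 0 < ∑ i ∈ K, y i
        · left
          rw [hA, Finset.mem_filter]
          exact ⟨hK1, h0⟩
        · right
          have hz' : z ∈ K := by
            by_contra hc
            rw [e1 K hc] at hK2
            exact h0 hK2
          rw [e2 K hz'] at hK2
          rw [Finset.mem_filter, hMdef, Finset.mem_filter]
          refine ⟨⟨hK1, not_lt.mp h0, ?_⟩, hz'⟩
          linarith
      have hc := (Finset.card_le_card hsub).trans (Finset.card_union_le _ _)
      have : (pos y' R T : ℝ) ≤ ((A.card + (M.filter (fun K => z ∈ K)).card : ℕ) : ℝ) := by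
        exact_mod_cast hc
      rw [Nat.cast_add] at this
      exact this
    have hs := Finset.sum_le_sum key
    rw [Finset.sum_const, hR, nsmul_eq_mul, Finset.sum_add_distrib, Finset.sum_const, hR,
      nsmul_eq_mul] at hs
    have h5 : (∑ z ∈ R, ((M.filter (fun K => z ∈ K)).card : ℝ)) = (T : ℝ) * (M.card : ℝ) := by
      have := SH1_count R T M (Finset.filter_subset _ _)
      exact_mod_cast this
    rw [h5] at hs
    exact hs

end Pool.Agent.Work.MP_9999b5_mf
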