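import Pool.Agent.Work.MP_9999b5_mf.Interface

set_option autoImplicit false

namespace Pool.Agent.Work.MP_9999b5_mf

open Finset
open Pool.Agent.Work.MaxSums (W pos)

theorem WNI_enum {ι : Type} [DecidableEq ι] (A : Finset ι) :
    ∃ e : ι → ℕ, Set.InjOn e A ∧ ∀ i ∈ A, e i < A.card := by
  refine ⟨fun i => if h : i ∈ A then (A.equivFin ⟨i, h⟩ : ℕ) else 0, ?_, ?_⟩
  · intro i hi j hj hij
    have hi' : i ∈ A := hi
    have hj' : j ∈ A := hj
    simp only [dif_pos hi', dif_pos hj'] at hij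
    exact congrArg Subtype.val (A.equivFin.injective (Fin.ext hij))
  · intro i hi
    simp only [dif_pos hi]
    exact (A.equivFin ⟨i, hi⟩).2

theorem WNI_mono {ι : Type} [DecidableEq ι] (A : Finset ι) (x y : ι → ℝ) (k : ℕ)
    (h : ∀ i ∈ A, y i ≤ x i) : pos y A k ≤ pos x A k := by
  unfold pos
  refine card_le_card ?_
  intro S hS
  rw [mem_filter] at hS ⊢
  refine ⟨hS.1, hS.2.trans_le (sum_le_sum ?_)⟩
  intro i hi
  exact h i ((mem_powersetCard.1 hS.1).1 hi)

theorem p_WNI : Stmt_WNI := by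
  intro k n φ hW ι _ A x hA hs
  obtain ⟨e, he, hen⟩ := WNI_enum A
  have hn : (0 : ℝ) < (n : ℝ) * n + 1 := by positivity
  have hδ : 0 < (∑ i ∈ A, x i) / ((n : ℝ) * n + 1) := div_pos hs hn
  obtain ⟨ε, ⟨h0, h1⟩, h2⟩ := (Set.Ioo_infinite hδ).exists_notMem_finset
    ((A ×ˢ A).image (fun p : ι × ι => (x p.1 - x p.2) / ((e p.1 : ℝ) - e p.2)))
  have hinj : Set.InjOn (fun i => x i - ε * e i) A := by
    intro i hi j hj hij
    by_contra hne
    apply h2
    rw [mem_image]
    refine ⟨(i, j), mem_product.2 ⟨hi, hj⟩, ?_⟩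
    have h5 : (e i : ℝ) - e j ≠ 0 := by
      intro h
      apply hne
      apply he hi hj
      exact_mod_cast sub_eq_zero.1 h
    rw [div_eq_iff h5]
    have h6 : x i - ε * e i = x j - ε * e j := hij
    linarith
  have hsum : 0 ≤ ∑ i ∈ A, (x i - ε * e i) := by
    rw [sum_sub_distrib, ← mul_sum]
    have h3 : ∑ i ∈ A, (e i : ℝ) ≤ (n : ℝ) * n := by
      calc ∑ i ∈ A, (e i : ℝ) ≤ ∑ i ∈ A, (n : ℝ) := by
            refine sum_le_sum ?_
            intro i hi
            have := hen i hi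
            rw [hA] at this
            exact_mod_cast this.le
        _ = (n : ℝ) * n := by rw [sum_const, hA, nsmul_eq_mul]
    have h4 : ε * ∑ i ∈ A, (e i : ℝ) ≤ ε * ((n : ℝ) * n) := mul_le_mul_of_nonneg_left h3 h0.le
    rw [lt_div_iff₀ hn] at h1
    nlinarith
  have h3 := hW ι A (fun i => x i - ε * e i) hA hinj hsum
  refine h3.trans ?_
  have h4 : pos (fun i => x i - ε * e i) A k ≤ pos x A k := by
    refine WNI_mono A x _ k ?_
    intro i _
    have : 0 ≤ ε * (e i : ℝ) := mul_nonneg h0.le (Nat.cast_nonneg _)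
    linarith
  exact_mod_cast h4

end Pool.Agent.Work.MP_9999b5_mf
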