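import Pool.Agent.Work.MP_9999b5_mf.Interface

/-! # Block QA1 (helper15), second copy -/

set_option autoImplicit false

namespace Pool.Agent.Work.MP_9999b5_mf.H15

open Finset
open Pool.Agent.Work.MP_9999b5_mf

lemma QA1_core (hNR2 : MP_9999b5_sp.Stmt_NR2) (hRBZ : MP_9999b5_sp.Stmt_RBZ)
    (hEXG : MP_9999b5_sp.Stmt_EXG)
    (k T : ℕ) (φ : ℝ) (hT : 1 ≤ T) (hTk : T ≤ k)
    (hW : Pool.Agent.Work.MaxSums.W T k φ) {ι : Type} [DecidableEq ι] (C : Finset ι)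
    (x : ι → ℝ) (hC : C.card = 2 * k + T) (hx : Set.InjOn x C) (hc : 0 ≤ ∑ i ∈ C, x i) :
    ∃ q l : ℝ, 0 ≤ q ∧ q ≤ 1 ∧
      (MP_9999b5_mr.bad C x k : ℝ) = q * ((MP_9999b5_mr.prs C k).card : ℝ) ∧
      (MP_9999b5_mr.hvy C x k : ℝ) = (1 - l) * ((MP_9999b5_mr.prs C k).card : ℝ) ∧
      2 * φ * q ≤ l ∧
      (q ^ 2 - (T : ℝ) / (2 * k + T) * (1 + (T : ℝ) / (2 * k + T)) * q + (T : ℝ) / (2 * k + T)) * l ≤
        (T : ℝ) / (2 * k + T) * (1 - q) * (1 - (T : ℝ) / (2 * k + T) * q) := by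
  have hk : 1 ≤ k := hT.trans hTk
  obtain ⟨w, q, r, hq, hqw, hw, hr, hrw, e1, e2, e3, h⟩ := hNR2 ι C x k T hk hC
  have hk0 : (1 : ℝ) ≤ k := by exact_mod_cast hk
  have hT0 : (1 : ℝ) ≤ T := by exact_mod_cast hT
  have hM : (0 : ℝ) < 2 * k + T := by linarith
  obtain ⟨t, ht⟩ : ∃ t : ℝ, t = (T : ℝ) / (2 * k + T) := ⟨_, rfl⟩
  have ht0 : 0 < t := by rw [ht]; positivity
  have ht1 : t < 1 := by
    rw [ht, div_lt_one hM]
    linarith
  have f1 : t / (2 * (1 + t)) = (T : ℝ) / (4 * (k + T)) := by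
    rw [ht]
    field_simp
    ring
  have f2 : t / (2 * (1 - t)) = (T : ℝ) / (4 * k) := by
    have h1t : 1 - t = 2 * k / (2 * k + T) := by
      rw [ht]
      field_simp
      ring
    rw [h1t, ht]
    field_simp
    ring
  have h1 := hRBZ t w q r ht0 ht1 hq hqw hw hr hrw (by rw [f1, f2]; exact h)
  have hN0 : (0 : ℝ) < ((MP_9999b5_mr.prs C k).card : ℝ) := by
    have : 0 < (MP_9999b5_mr.prs C k).card := by
      apply card_pos.2
      obtain ⟨A, hA, hA2⟩ := exists_subset_card_eq (s := C) (n := k) (by omega)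
      obtain ⟨B, hB, hB2⟩ := exists_subset_card_eq (s := C \ A) (n := k) (by
        rw [card_sdiff_of_subset hA]
        omega)
      refine ⟨(A, B), ?_⟩
      unfold MP_9999b5_mr.prs
      rw [mem_filter, mem_product, mem_powersetCard, mem_powersetCard]
      exact ⟨⟨⟨hA, hA2⟩, hB.trans sdiff_subset, hB2⟩, (disjoint_of_subset_left hB
        sdiff_disjoint).symm⟩
    exact_mod_cast this
  have h2 := hEXG k T φ hk hTk hW ι C x hC hx hc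
  rw [e1, e2, e3] at h2
  obtain ⟨N, hN⟩ : ∃ N : ℝ, N = ((MP_9999b5_mr.prs C k).card : ℝ) := ⟨_, rfl⟩
  rw [← hN] at h2 hN0
  have h3 : 2 * φ * q + r + w ≤ 1 := by
    have h4 : (2 * φ * q + r + w) * N ≤ 1 * N := by linarith
    exact le_of_mul_le_mul_right h4 hN0
  rw [← ht]
  refine ⟨q, 1 - w, hq, hqw.trans hw, e1, by rw [e2]; ring, by linarith, ?_⟩
  nlinarith

/-- QA1. -/
theorem QA1' : MP_9999b5_sp.Stmt_NR2 → MP_9999b5_sp.Stmt_RBZ → MP_9999b5_sp.Stmt_EXG →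
    Stmt_SC1 → Stmt_QA1 := by
  intro hNR2 hRBZ hEXG hSC1 k T ψ hT hTk hW hcase
  have hk : 1 ≤ k := by omega
  have hk0 : (1 : ℝ) ≤ k := by exact_mod_cast hk
  have hT0 : (1 : ℝ) ≤ T := by exact_mod_cast hT
  have hTk' : 2 * (T : ℝ) ≤ k := by exact_mod_cast hTk
  have hM : (0 : ℝ) < 2 * k + T := by linarith
  have hψ : 178 / 1000 ≤ ψ := by
    rcases hcase with ⟨_, c⟩ | ⟨_, c⟩ | ⟨_, c⟩ | c
    · exact le_trans (by norm_num) c
    · exact le_trans (by norm_num) c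
    · exact le_trans (by norm_num) c
    · exact le_trans (by norm_num) c
  have hc' : (((T : ℝ) / (2 * k + T) ≤ 1 / 8 ∧ 217 / 1217 ≤ ψ) ∨
      ((T : ℝ) / (2 * k + T) ≤ 1 / 7 ∧ 236 / 1236 ≤ ψ) ∨
      ((T : ℝ) / (2 * k + T) ≤ 1 / 6 ∧ 217 / 1000 ≤ ψ) ∨
      ((T : ℝ) / (2 * k + T) ≤ 1 / 5 ∧ 236 / 1000 ≤ ψ)) := by
    rcases hcase with ⟨a, c⟩ | ⟨a, c⟩ | ⟨a, c⟩ | c
    · have a' : 7 * (T : ℝ) ≤ 2 * k := by exact_mod_cast a
      exact Or.inl ⟨by rw [div_le_div_iff₀ hM (by norm_num)]; linarith, c⟩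
    · have a' : 3 * (T : ℝ) ≤ k := by exact_mod_cast a
      exact Or.inr (Or.inl ⟨by rw [div_le_div_iff₀ hM (by norm_num)]; linarith, c⟩)
    · have a' : 5 * (T : ℝ) ≤ 2 * k := by exact_mod_cast a
      exact Or.inr (Or.inr (Or.inl ⟨by rw [div_le_div_iff₀ hM (by norm_num)]; linarith, c⟩))
    · exact Or.inr (Or.inr (Or.inr ⟨by rw [div_le_div_iff₀ hM (by norm_num)]; linarith, c⟩))
  have main : ∀ (ι : Type) [DecidableEq ι] (C : Finset ι) (x : ι → ℝ),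
      C.card = 2 * k + T → Set.InjOn x C → 0 ≤ ∑ i ∈ C, x i →
      ∃ q l : ℝ, (MP_9999b5_mr.bad C x k : ℝ) = q * ((MP_9999b5_mr.prs C k).card : ℝ) ∧
      (MP_9999b5_mr.hvy C x k : ℝ) = (1 - l) * ((MP_9999b5_mr.prs C k).card : ℝ) ∧
      q ≤ 66 / 125 ∧ 4 * (2 * (k : ℝ) + T) * (17 / 10) * q ≤
        (12 * (k : ℝ) + 5 * T) * (1 + l - q) := by
    intro ι _ C x hC hx hc
    obtain ⟨q, l, h1, h2, h3, h4, h5, h6⟩ := QA1_core hNR2 hRBZ hEXG k T ψ hT (by omega) hW C x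
      hC hx hc
    have h7 := hSC1 ((T : ℝ) / (2 * k + T)) ψ q l (by positivity) h1 h2 h5 h6 hc'
    refine ⟨q, l, h3, h4, h7, ?_⟩
    have h8 : 356 / 1000 * q ≤ l := by nlinarith
    have h9 : 0 ≤ (12 * (k : ℝ) + 5 * T) * (l - 356 / 1000 * q) :=
      mul_nonneg (by linarith) (by linarith)
    have h10 : 0 ≤ (66 / 125 - q) * (k : ℝ) := mul_nonneg (by linarith) (by linarith)
    have h11 : 0 ≤ (66 / 125 - q) * (T : ℝ) := mul_nonneg (by linarith) (by linarith)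
    nlinarith [h9, h10, h11]
  constructor
  · intro ι _ C x hC hx hc
    obtain ⟨q, l, h1, h2, h3, h4⟩ := main ι C x hC hx hc
    rw [h1]
    exact mul_le_mul_of_nonneg_right h3 (Nat.cast_nonneg _)
  · intro ι _ C x hC hx hc
    obtain ⟨q, l, h1, h2, h3, h4⟩ := main ι C x hC hx hc
    rw [h1, h2]
    have h5 := mul_le_mul_of_nonneg_right h4
      (Nat.cast_nonneg (MP_9999b5_mr.prs C k).card : (0 : ℝ) ≤ _)
    linarith

end Pool.Agent.Work.MP_9999b5_mf.H15
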