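import Pool.Agent.Work.MP_9999b5_mf.Interface

/-! # SC2, SC3 (helper15), second copy -/

set_option autoImplicit false

namespace Pool.Agent.Work.MP_9999b5_mf.H15

open Finset
open Pool.Agent.Work.MP_9999b5_mf

theorem SC3_poly_S (x x' y y' : ℝ) (h1 : 0 ≤ x) (h2 : 0 ≤ x') (h3 : 0 ≤ y) (h4 : 0 ≤ y') :
    0 ≤ (2233853399 / 15820312500) * (x ^ 0 * x' ^ 4 * (y ^ 0 * y' ^ 3)) +
      (1635756763 / 126562500) * (x ^ 0 * x' ^ 4 * (y ^ 1 * y' ^ 2)) +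
      (1803353 / 56250) * (x ^ 0 * x' ^ 4 * (y ^ 2 * y' ^ 1)) +
      (5981 / 270) * (x ^ 0 * x' ^ 4 * (y ^ 3 * y' ^ 0)) +
      (510682283 / 1953125000) * (x ^ 1 * x' ^ 3 * (y ^ 0 * y' ^ 3)) +
      (2619923903 / 46875000) * (x ^ 1 * x' ^ 3 * (y ^ 1 * y' ^ 2)) +
      (39200863 / 281250) * (x ^ 1 * x' ^ 3 * (y ^ 2 * y' ^ 1)) +
      (65258 / 675) * (x ^ 1 * x' ^ 3 * (y ^ 3 * y' ^ 0)) +
      (23274821359 / 140625000000) * (x ^ 2 * x' ^ 2 * (y ^ 0 * y' ^ 3)) +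
      (5109018023 / 56250000) * (x ^ 2 * x' ^ 2 * (y ^ 1 * y' ^ 2)) +
      (10603984 / 46875) * (x ^ 2 * x' ^ 2 * (y ^ 2 * y' ^ 1)) +
      (58931 / 375) * (x ^ 2 * x' ^ 2 * (y ^ 3 * y' ^ 0)) +
      (3214402607 / 23437500000) * (x ^ 3 * x' ^ 1 * (y ^ 0 * y' ^ 3)) +
      (6154122589 / 93750000) * (x ^ 3 * x' ^ 1 * (y ^ 1 * y' ^ 2)) +
      (5073843 / 31250) * (x ^ 3 * x' ^ 1 * (y ^ 2 * y' ^ 1)) +
      (42274 / 375) * (x ^ 3 * x' ^ 1 * (y ^ 3 * y' ^ 0)) +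
      (90044293 / 976562500) * (x ^ 4 * x' ^ 0 * (y ^ 0 * y' ^ 3)) +
      (138921907 / 7812500) * (x ^ 4 * x' ^ 0 * (y ^ 1 * y' ^ 2)) +
      (1358309 / 31250) * (x ^ 4 * x' ^ 0 * (y ^ 2 * y' ^ 1)) +
      (7527 / 250) * (x ^ 4 * x' ^ 0 * (y ^ 3 * y' ^ 0)) := by
  positivity

theorem SC3_poly (t q : ℝ) (h1 : (2 / 3) ≤ t) (h2 : t ≤ (1 / 1)) (h3 : (283 / 500) ≤ q) (h4 : q ≤ (1 / 1)) :
    0 < (((1 + t) * (236 / 1000) * (1 + q) - t * (1 - q)) * (2 * (3 - t)) - (1 - t)) * ((2 + t) ^ 2 * q ^ 2 - t * (2 + 2 * t) * q + t * (2 + t)) - 2 * (3 - t) * (t * (1 - q) * (2 + t - t * q)) := by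
  have h := SC3_poly_S ((t - (2 / 3)) / (1 / 3)) (((1 / 1) - t) / (1 / 3)) ((q - (283 / 500)) / (217 / 500)) (((1 / 1) - q) / (217 / 500))
    (div_nonneg (by linarith) (by norm_num)) (div_nonneg (by linarith) (by norm_num))
    (div_nonneg (by linarith) (by norm_num)) (div_nonneg (by linarith) (by norm_num))
  have e : (((1 + t) * (236 / 1000) * (1 + q) - t * (1 - q)) * (2 * (3 - t)) - (1 - t)) * ((2 + t) ^ 2 * q ^ 2 - t * (2 + 2 * t) * q + t * (2 + t)) - 2 * (3 - t) * (t * (1 - q) * (2 + t - t * q)) = (1 / 10) + ((2233853399 / 15820312500) * (((t - (2 / 3)) / (1 / 3)) ^ 0 * (((1 / 1) - t) / (1 / 3)) ^ 4 * (((q - (283 / 500)) / (217 / 500)) ^ 0 * (((1 / 1) - q) / (217 / 500)) ^ 3)) +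
      (1635756763 / 126562500) * (((t - (2 / 3)) / (1 / 3)) ^ 0 * (((1 / 1) - t) / (1 / 3)) ^ 4 * (((q - (283 / 500)) / (217 / 500)) ^ 1 * (((1 / 1) - q) / (217 / 500)) ^ 2)) +
      (1803353 / 56250) * (((t - (2 / 3)) / (1 / 3)) ^ 0 * (((1 / 1) - t) / (1 / 3)) ^ 4 * (((q - (283 / 500)) / (217 / 500)) ^ 2 * (((1 / 1) - q) / (217 / 500)) ^ 1)) +
      (5981 / 270) * (((t - (2 / 3)) / (1 / 3)) ^ 0 * (((1 / 1) - t) / (1 / 3)) ^ 4 * (((q - (283 / 500)) / (217 / 500)) ^ 3 * (((1 / 1) - q) / (217 / 500)) ^ 0)) +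
      (510682283 / 1953125000) * (((t - (2 / 3)) / (1 / 3)) ^ 1 * (((1 / 1) - t) / (1 / 3)) ^ 3 * (((q - (283 / 500)) / (217 / 500)) ^ 0 * (((1 / 1) - q) / (217 / 500)) ^ 3)) +
      (2619923903 / 46875000) * (((t - (2 / 3)) / (1 / 3)) ^ 1 * (((1 / 1) - t) / (1 / 3)) ^ 3 * (((q - (283 / 500)) / (217 / 500)) ^ 1 * (((1 / 1) - q) / (217 / 500)) ^ 2)) +
      (39200863 / 281250) * (((t - (2 / 3)) / (1 / 3)) ^ 1 * (((1 / 1) - t) / (1 / 3)) ^ 3 * (((q - (283 / 500)) / (217 / 500)) ^ 2 * (((1 / 1) - q) / (217 / 500)) ^ 1)) +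
      (65258 / 675) * (((t - (2 / 3)) / (1 / 3)) ^ 1 * (((1 / 1) - t) / (1 / 3)) ^ 3 * (((q - (283 / 500)) / (217 / 500)) ^ 3 * (((1 / 1) - q) / (217 / 500)) ^ 0)) +
      (23274821359 / 140625000000) * (((t - (2 / 3)) / (1 / 3)) ^ 2 * (((1 / 1) - t) / (1 / 3)) ^ 2 * (((q - (283 / 500)) / (217 / 500)) ^ 0 * (((1 / 1) - q) / (217 / 500)) ^ 3)) +
      (5109018023 / 56250000) * (((t - (2 / 3)) / (1 / 3)) ^ 2 * (((1 / 1) - t) / (1 / 3)) ^ 2 * (((q - (283 / 500)) / (217 / 500)) ^ 1 * (((1 / 1) - q) / (217 / 500)) ^ 2)) +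
      (10603984 / 46875) * (((t - (2 / 3)) / (1 / 3)) ^ 2 * (((1 / 1) - t) / (1 / 3)) ^ 2 * (((q - (283 / 500)) / (217 / 500)) ^ 2 * (((1 / 1) - q) / (217 / 500)) ^ 1)) +
      (58931 / 375) * (((t - (2 / 3)) / (1 / 3)) ^ 2 * (((1 / 1) - t) / (1 / 3)) ^ 2 * (((q - (283 / 500)) / (217 / 500)) ^ 3 * (((1 / 1) - q) / (217 / 500)) ^ 0)) +
      (3214402607 / 23437500000) * (((t - (2 / 3)) / (1 / 3)) ^ 3 * (((1 / 1) - t) / (1 / 3)) ^ 1 * (((q - (283 / 500)) / (217 / 500)) ^ 0 * (((1 / 1) - q) / (217 / 500)) ^ 3)) +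
      (6154122589 / 93750000) * (((t - (2 / 3)) / (1 / 3)) ^ 3 * (((1 / 1) - t) / (1 / 3)) ^ 1 * (((q - (283 / 500)) / (217 / 500)) ^ 1 * (((1 / 1) - q) / (217 / 500)) ^ 2)) +
      (5073843 / 31250) * (((t - (2 / 3)) / (1 / 3)) ^ 3 * (((1 / 1) - t) / (1 / 3)) ^ 1 * (((q - (283 / 500)) / (217 / 500)) ^ 2 * (((1 / 1) - q) / (217 / 500)) ^ 1)) +
      (42274 / 375) * (((t - (2 / 3)) / (1 / 3)) ^ 3 * (((1 / 1) - t) / (1 / 3)) ^ 1 * (((q - (283 / 500)) / (217 / 500)) ^ 3 * (((1 / 1) - q) / (217 / 500)) ^ 0)) +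
      (90044293 / 976562500) * (((t - (2 / 3)) / (1 / 3)) ^ 4 * (((1 / 1) - t) / (1 / 3)) ^ 0 * (((q - (283 / 500)) / (217 / 500)) ^ 0 * (((1 / 1) - q) / (217 / 500)) ^ 3)) +
      (138921907 / 7812500) * (((t - (2 / 3)) / (1 / 3)) ^ 4 * (((1 / 1) - t) / (1 / 3)) ^ 0 * (((q - (283 / 500)) / (217 / 500)) ^ 1 * (((1 / 1) - q) / (217 / 500)) ^ 2)) +
      (1358309 / 31250) * (((t - (2 / 3)) / (1 / 3)) ^ 4 * (((1 / 1) - t) / (1 / 3)) ^ 0 * (((q - (283 / 500)) / (217 / 500)) ^ 2 * (((1 / 1) - q) / (217 / 500)) ^ 1)) +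
      (7527 / 250) * (((t - (2 / 3)) / (1 / 3)) ^ 4 * (((1 / 1) - t) / (1 / 3)) ^ 0 * (((q - (283 / 500)) / (217 / 500)) ^ 3 * (((1 / 1) - q) / (217 / 500)) ^ 0))) := by
    ring
  rw [e]
  have hb : (0 : ℝ) < (1 / 10) := by norm_num
  exact add_pos_of_pos_of_nonneg hb h

theorem SC2_poly_S (x x' y y' : ℝ) (h1 : 0 ≤ x) (h2 : 0 ≤ x') (h3 : 0 ≤ y) (h4 : 0 ≤ y') :
    0 ≤ (35217535013 / 32000000000) * (x ^ 0 * x' ^ 5 * (y ^ 0 * y' ^ 3)) +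
      (20550602197 / 800000000) * (x ^ 0 * x' ^ 5 * (y ^ 1 * y' ^ 2)) +
      (12117079 / 200000) * (x ^ 0 * x' ^ 5 * (y ^ 2 * y' ^ 1)) +
      (16297 / 400) * (x ^ 0 * x' ^ 5 * (y ^ 3 * y' ^ 0)) +
      (14700140427 / 3200000000) * (x ^ 1 * x' ^ 4 * (y ^ 0 * y' ^ 3)) +
      (16969017331 / 125000000) * (x ^ 1 * x' ^ 4 * (y ^ 1 * y' ^ 2)) +
      (487751621 / 1500000) * (x ^ 1 * x' ^ 4 * (y ^ 2 * y' ^ 1)) +
      (1321831 / 6000) * (x ^ 1 * x' ^ 4 * (y ^ 3 * y' ^ 0)) +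
      (4313278936313 / 600000000000) * (x ^ 2 * x' ^ 3 * (y ^ 0 * y' ^ 3)) +
      (645831269003 / 2250000000) * (x ^ 2 * x' ^ 3 * (y ^ 1 * y' ^ 2)) +
      (6278536997 / 9000000) * (x ^ 2 * x' ^ 3 * (y ^ 2 * y' ^ 1)) +
      (356953 / 750) * (x ^ 2 * x' ^ 3 * (y ^ 3 * y' ^ 0)) +
      (67771985813423 / 13500000000000) * (x ^ 3 * x' ^ 2 * (y ^ 0 * y' ^ 3)) +
      (682998703879 / 2250000000) * (x ^ 3 * x' ^ 2 * (y ^ 1 * y' ^ 2)) +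
      (2019037061 / 2700000) * (x ^ 3 * x' ^ 2 * (y ^ 2 * y' ^ 1)) +
      (1155283 / 2250) * (x ^ 3 * x' ^ 2 * (y ^ 3 * y' ^ 0)) +
      (3410336249717 / 2531250000000) * (x ^ 4 * x' ^ 1 * (y ^ 0 * y' ^ 3)) +
      (1083839775433 / 6750000000) * (x ^ 4 * x' ^ 1 * (y ^ 1 * y' ^ 2)) +
      (2703218453 / 6750000) * (x ^ 4 * x' ^ 1 * (y ^ 2 * y' ^ 1)) +
      (186712 / 675) * (x ^ 4 * x' ^ 1 * (y ^ 3 * y' ^ 0)) +
      (2873651249 / 126562500000) * (x ^ 5 * x' ^ 0 * (y ^ 0 * y' ^ 3)) +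
      (34410904213 / 1012500000) * (x ^ 5 * x' ^ 0 * (y ^ 1 * y' ^ 2)) +
      (6428863 / 75000) * (x ^ 5 * x' ^ 0 * (y ^ 2 * y' ^ 1)) +
      (8036 / 135) * (x ^ 5 * x' ^ 0 * (y ^ 3 * y' ^ 0)) := by
  positivity

theorem SC2_poly (t q : ℝ) (h1 : (1 / 2) ≤ t) (h2 : t ≤ (2 / 3)) (h3 : (283 / 500) ≤ q) (h4 : q ≤ (1 / 1)) :
    0 < (((1 + t) * (217 / 1000) * (1 + q) - t * (1 - q)) * ((1 + 3 * t) * (5 - t)) - 2 * t * (1 - t)) * ((2 + t) ^ 2 * q ^ 2 - t * (2 + 2 * t) * q + t * (2 + t)) - (1 + 3 * t) * (5 - t) * (t * (1 - q) * (2 + t - t * q)) := by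
  have h := SC2_poly_S ((t - (1 / 2)) / (1 / 6)) (((2 / 3) - t) / (1 / 6)) ((q - (283 / 500)) / (217 / 500)) (((1 / 1) - q) / (217 / 500))
    (div_nonneg (by linarith) (by norm_num)) (div_nonneg (by linarith) (by norm_num))
    (div_nonneg (by linarith) (by norm_num)) (div_nonneg (by linarith) (by norm_num))
  have e : (((1 + t) * (217 / 1000) * (1 + q) - t * (1 - q)) * ((1 + 3 * t) * (5 - t)) - 2 * t * (1 - t)) * ((2 + t) ^ 2 * q ^ 2 - t * (2 + 2 * t) * q + t * (2 + t)) - (1 + 3 * t) * (5 - t) * (t * (1 - q) * (2 + t - t * q)) = (1 / 5) + ((35217535013 / 32000000000) * (((t - (1 / 2)) / (1 / 6)) ^ 0 * (((2 / 3) - t) / (1 / 6)) ^ 5 * (((q - (283 / 500)) / (217 / 500)) ^ 0 * (((1 / 1) - q) / (217 / 500)) ^ 3)) +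
      (20550602197 / 800000000) * (((t - (1 / 2)) / (1 / 6)) ^ 0 * (((2 / 3) - t) / (1 / 6)) ^ 5 * (((q - (283 / 500)) / (217 / 500)) ^ 1 * (((1 / 1) - q) / (217 / 500)) ^ 2)) +
      (12117079 / 200000) * (((t - (1 / 2)) / (1 / 6)) ^ 0 * (((2 / 3) - t) / (1 / 6)) ^ 5 * (((q - (283 / 500)) / (217 / 500)) ^ 2 * (((1 / 1) - q) / (217 / 500)) ^ 1)) +
      (16297 / 400) * (((t - (1 / 2)) / (1 / 6)) ^ 0 * (((2 / 3) - t) / (1 / 6)) ^ 5 * (((q - (283 / 500)) / (217 / 500)) ^ 3 * (((1 / 1) - q) / (217 / 500)) ^ 0)) +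
      (14700140427 / 3200000000) * (((t - (1 / 2)) / (1 / 6)) ^ 1 * (((2 / 3) - t) / (1 / 6)) ^ 4 * (((q - (283 / 500)) / (217 / 500)) ^ 0 * (((1 / 1) - q) / (217 / 500)) ^ 3)) +
      (16969017331 / 125000000) * (((t - (1 / 2)) / (1 / 6)) ^ 1 * (((2 / 3) - t) / (1 / 6)) ^ 4 * (((q - (283 / 500)) / (217 / 500)) ^ 1 * (((1 / 1) - q) / (217 / 500)) ^ 2)) +
      (487751621 / 1500000) * (((t - (1 / 2)) / (1 / 6)) ^ 1 * (((2 / 3) - t) / (1 / 6)) ^ 4 * (((q - (283 / 500)) / (217 / 500)) ^ 2 * (((1 / 1) - q) / (217 / 500)) ^ 1)) +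
      (1321831 / 6000) * (((t - (1 / 2)) / (1 / 6)) ^ 1 * (((2 / 3) - t) / (1 / 6)) ^ 4 * (((q - (283 / 500)) / (217 / 500)) ^ 3 * (((1 / 1) - q) / (217 / 500)) ^ 0)) +
      (4313278936313 / 600000000000) * (((t - (1 / 2)) / (1 / 6)) ^ 2 * (((2 / 3) - t) / (1 / 6)) ^ 3 * (((q - (283 / 500)) / (217 / 500)) ^ 0 * (((1 / 1) - q) / (217 / 500)) ^ 3)) +
      (645831269003 / 2250000000) * (((t - (1 / 2)) / (1 / 6)) ^ 2 * (((2 / 3) - t) / (1 / 6)) ^ 3 * (((q - (283 / 500)) / (217 / 500)) ^ 1 * (((1 / 1) - q) / (217 / 500)) ^ 2)) +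
      (6278536997 / 9000000) * (((t - (1 / 2)) / (1 / 6)) ^ 2 * (((2 / 3) - t) / (1 / 6)) ^ 3 * (((q - (283 / 500)) / (217 / 500)) ^ 2 * (((1 / 1) - q) / (217 / 500)) ^ 1)) +
      (356953 / 750) * (((t - (1 / 2)) / (1 / 6)) ^ 2 * (((2 / 3) - t) / (1 / 6)) ^ 3 * (((q - (283 / 500)) / (217 / 500)) ^ 3 * (((1 / 1) - q) / (217 / 500)) ^ 0)) +
      (67771985813423 / 13500000000000) * (((t - (1 / 2)) / (1 / 6)) ^ 3 * (((2 / 3) - t) / (1 / 6)) ^ 2 * (((q - (283 / 500)) / (217 / 500)) ^ 0 * (((1 / 1) - q) / (217 / 500)) ^ 3)) +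
      (682998703879 / 2250000000) * (((t - (1 / 2)) / (1 / 6)) ^ 3 * (((2 / 3) - t) / (1 / 6)) ^ 2 * (((q - (283 / 500)) / (217 / 500)) ^ 1 * (((1 / 1) - q) / (217 / 500)) ^ 2)) +
      (2019037061 / 2700000) * (((t - (1 / 2)) / (1 / 6)) ^ 3 * (((2 / 3) - t) / (1 / 6)) ^ 2 * (((q - (283 / 500)) / (217 / 500)) ^ 2 * (((1 / 1) - q) / (217 / 500)) ^ 1)) +
      (1155283 / 2250) * (((t - (1 / 2)) / (1 / 6)) ^ 3 * (((2 / 3) - t) / (1 / 6)) ^ 2 * (((q - (283 / 500)) / (217 / 500)) ^ 3 * (((1 / 1) - q) / (217 / 500)) ^ 0)) +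
      (3410336249717 / 2531250000000) * (((t - (1 / 2)) / (1 / 6)) ^ 4 * (((2 / 3) - t) / (1 / 6)) ^ 1 * (((q - (283 / 500)) / (217 / 500)) ^ 0 * (((1 / 1) - q) / (217 / 500)) ^ 3)) +
      (1083839775433 / 6750000000) * (((t - (1 / 2)) / (1 / 6)) ^ 4 * (((2 / 3) - t) / (1 / 6)) ^ 1 * (((q - (283 / 500)) / (217 / 500)) ^ 1 * (((1 / 1) - q) / (217 / 500)) ^ 2)) +
      (2703218453 / 6750000) * (((t - (1 / 2)) / (1 / 6)) ^ 4 * (((2 / 3) - t) / (1 / 6)) ^ 1 * (((q - (283 / 500)) / (217 / 500)) ^ 2 * (((1 / 1) - q) / (217 / 500)) ^ 1)) +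
      (186712 / 675) * (((t - (1 / 2)) / (1 / 6)) ^ 4 * (((2 / 3) - t) / (1 / 6)) ^ 1 * (((q - (283 / 500)) / (217 / 500)) ^ 3 * (((1 / 1) - q) / (217 / 500)) ^ 0)) +
      (2873651249 / 126562500000) * (((t - (1 / 2)) / (1 / 6)) ^ 5 * (((2 / 3) - t) / (1 / 6)) ^ 0 * (((q - (283 / 500)) / (217 / 500)) ^ 0 * (((1 / 1) - q) / (217 / 500)) ^ 3)) +
      (34410904213 / 1012500000) * (((t - (1 / 2)) / (1 / 6)) ^ 5 * (((2 / 3) - t) / (1 / 6)) ^ 0 * (((q - (283 / 500)) / (217 / 500)) ^ 1 * (((1 / 1) - q) / (217 / 500)) ^ 2)) +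
      (6428863 / 75000) * (((t - (1 / 2)) / (1 / 6)) ^ 5 * (((2 / 3) - t) / (1 / 6)) ^ 0 * (((q - (283 / 500)) / (217 / 500)) ^ 2 * (((1 / 1) - q) / (217 / 500)) ^ 1)) +
      (8036 / 135) * (((t - (1 / 2)) / (1 / 6)) ^ 5 * (((2 / 3) - t) / (1 / 6)) ^ 0 * (((q - (283 / 500)) / (217 / 500)) ^ 3 * (((1 / 1) - q) / (217 / 500)) ^ 0))) := by
    ring
  rw [e]
  have hb : (0 : ℝ) < (1 / 5) := by norm_num
  exact add_pos_of_pos_of_nonneg hb h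

/-- real form, `2/3 < t ≤ 1` -/
theorem SC3_real (t q l : ℝ) (h1 : 2 / 3 ≤ t) (h2 : t ≤ 1) (hq0 : 0 ≤ q) (hq1 : q ≤ 1)
    (hl : (1 + t) * (236 / 1000) * (1 + q) - t * (1 - q) - (1 - t) / (2 * (3 - t)) ≤ l)
    (hD : ((2 + t) ^ 2 * q ^ 2 - t * (2 + 2 * t) * q + t * (2 + t)) * l ≤
      t * (1 - q) * (2 + t - t * q)) :
    q ≤ 283 / 500 ∧ 4 * (2 + t) * (17 / 10) * q ≤ (12 + 5 * t) * (1 + l - q) := by
  have hp : 0 < 2 * (3 - t) := by linarith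
  have hl' : ((1 + t) * (236 / 1000) * (1 + q) - t * (1 - q)) * (2 * (3 - t)) - (1 - t) ≤
      l * (2 * (3 - t)) := by
    have e : (1 - t) = (1 - t) / (2 * (3 - t)) * (2 * (3 - t)) := (div_mul_cancel₀ _ hp.ne').symm
    have h3 := mul_le_mul_of_nonneg_right hl hp.le
    nlinarith [h3, e]
  have hQ : q ≤ 283 / 500 := by
    by_contra hc
    rw [not_le] at hc
    have h3 := SC3_poly t q h1 (by linarith) hc.le (by linarith)
    have hD0 : 0 ≤ (2 + t) ^ 2 * q ^ 2 - t * (2 + 2 * t) * q + t * (2 + t) := by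
      nlinarith [mul_nonneg hq0 hq0, sq_nonneg (t * q), mul_nonneg (by linarith : 0 ≤ t) hq0,
        mul_nonneg (by linarith : 0 ≤ t) (by linarith : 0 ≤ 1 - q),
        mul_nonneg (mul_nonneg (by linarith : 0 ≤ t) (by linarith : 0 ≤ t)) (by linarith : 0 ≤ 1 - q)]
    have h4 := mul_le_mul_of_nonneg_left hl' hD0
    have h5 := mul_le_mul_of_nonneg_right hD hp.le
    nlinarith [h3, h4, h5]
  refine ⟨hQ, ?_⟩
  have h6 : 0 ≤ ((12 + 5 * t) * (1 + l - q) - 4 * (2 + t) * (17 / 10) * q) * (2 * (3 - t)) := by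
    have h7 : (12 + 5 * t) * (((1 + t) * (236 / 1000) * (1 + q) - t * (1 - q)) * (2 * (3 - t)) - (1 - t)) ≤
      (12 + 5 * t) * (l * (2 * (3 - t))) := mul_le_mul_of_nonneg_left hl' (by linarith)
    have a1 : 0 ≤ (283 / 500 - q) * (2 * (3 - t)) := mul_nonneg (by linarith) hp.le
    have h8 : 0 ≤ (12 + 5 * t) * (((1 + t) * (236 / 1000) * (1 + q) - t * (1 - q)) * (2 * (3 - t)) -
        (1 - t)) + ((12 + 5 * t) * (1 - q) - 4 * (2 + t) * (17 / 10) * q) * (2 * (3 - t)) := by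
      have s1 : 0 ≤ 4 * (2 + t) * (17 / 10) - (12 + 5 * t) * ((1 + t) * (236 / 1000) + t - 1) := by
        nlinarith
      have h9 := mul_nonneg a1 s1
      have h10 : 0 ≤ (12 + 5 * t) * (((1 + t) * (236 / 1000) * (1 + 283 / 500) - t * (1 - 283 / 500)) *
          (2 * (3 - t)) - (1 - t)) +
          ((12 + 5 * t) * (1 - 283 / 500) - 4 * (2 + t) * (17 / 10) * (283 / 500)) * (2 * (3 - t)) := by
        nlinarith [mul_nonneg (by linarith : 0 ≤ t - 2 / 3) (by linarith : 0 ≤ 1 - t),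
          mul_nonneg (by linarith : 0 ≤ t) (mul_nonneg (by linarith : 0 ≤ t - 2 / 3) (by linarith : 0 ≤ 1 - t))]
      nlinarith [h9, h10]
    nlinarith [h7, h8]
  have h11 := (mul_nonneg_iff_of_pos_right hp).1 h6
  linarith

/-- real form, `1/2 ≤ t ≤ 2/3` -/
theorem SC2_real (t q l : ℝ) (h1 : 1 / 2 ≤ t) (h2 : t ≤ 2 / 3) (hq0 : 0 ≤ q) (hq1 : q ≤ 1)
    (hl : (1 + t) * (217 / 1000) * (1 + q) - t * (1 - q) - 2 * t * (1 - t) / ((1 + 3 * t) * (5 - t)) ≤ l)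
    (hD : ((2 + t) ^ 2 * q ^ 2 - t * (2 + 2 * t) * q + t * (2 + t)) * l ≤
      t * (1 - q) * (2 + t - t * q)) :
    q ≤ 283 / 500 ∧ 4 * (2 + t) * (17 / 10) * q ≤ (12 + 5 * t) * (1 + l - q) := by
  have hp : 0 < (1 + 3 * t) * (5 - t) := mul_pos (by linarith) (by linarith)
  have hl' : ((1 + t) * (217 / 1000) * (1 + q) - t * (1 - q)) * ((1 + 3 * t) * (5 - t)) -
      2 * t * (1 - t) ≤ l * ((1 + 3 * t) * (5 - t)) := by
    have e : 2 * t * (1 - t) = 2 * t * (1 - t) / ((1 + 3 * t) * (5 - t)) * ((1 + 3 * t) * (5 - t)) :=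
      (div_mul_cancel₀ _ hp.ne').symm
    have h3 := mul_le_mul_of_nonneg_right hl hp.le
    nlinarith [h3, e]
  have hQ : q ≤ 283 / 500 := by
    by_contra hc
    rw [not_le] at hc
    have h3 := SC2_poly t q h1 h2 hc.le (by linarith)
    have hD0 : 0 ≤ (2 + t) ^ 2 * q ^ 2 - t * (2 + 2 * t) * q + t * (2 + t) := by
      nlinarith [mul_nonneg hq0 hq0, sq_nonneg (t * q), mul_nonneg (by linarith : 0 ≤ t) hq0,
        mul_nonneg (by linarith : 0 ≤ t) (by linarith : 0 ≤ 1 - q),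
        mul_nonneg (mul_nonneg (by linarith : 0 ≤ t) (by linarith : 0 ≤ t)) (by linarith : 0 ≤ 1 - q)]
    have h4 := mul_le_mul_of_nonneg_left hl' hD0
    have h5 := mul_le_mul_of_nonneg_right hD hp.le
    nlinarith [h3, h4, h5]
  refine ⟨hQ, ?_⟩
  have h6 : 0 ≤ ((12 + 5 * t) * (1 + l - q) - 4 * (2 + t) * (17 / 10) * q) *
      ((1 + 3 * t) * (5 - t)) := by
    have h7 : (12 + 5 * t) * (((1 + t) * (217 / 1000) * (1 + q) - t * (1 - q)) *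
        ((1 + 3 * t) * (5 - t)) - 2 * t * (1 - t)) ≤
      (12 + 5 * t) * (l * ((1 + 3 * t) * (5 - t))) := mul_le_mul_of_nonneg_left hl' (by linarith)
    have a1 : 0 ≤ (283 / 500 - q) * ((1 + 3 * t) * (5 - t)) := mul_nonneg (by linarith) hp.le
    have h8 : 0 ≤ (12 + 5 * t) * (((1 + t) * (217 / 1000) * (1 + q) - t * (1 - q)) *
        ((1 + 3 * t) * (5 - t)) - 2 * t * (1 - t)) +
        ((12 + 5 * t) * (1 - q) - 4 * (2 + t) * (17 / 10) * q) * ((1 + 3 * t) * (5 - t)) := by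
      have s1 : 0 ≤ 4 * (2 + t) * (17 / 10) - (12 + 5 * t) * ((1 + t) * (217 / 1000) + t - 1) := by
        nlinarith
      have h9 := mul_nonneg a1 s1
      have h10 : 0 ≤ (12 + 5 * t) * (((1 + t) * (217 / 1000) * (1 + 283 / 500) -
          t * (1 - 283 / 500)) * ((1 + 3 * t) * (5 - t)) - 2 * t * (1 - t)) +
          ((12 + 5 * t) * (1 - 283 / 500) - 4 * (2 + t) * (17 / 10) * (283 / 500)) *
          ((1 + 3 * t) * (5 - t)) := by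
        have b1 : 0 ≤ (t - 1 / 2) * (2 / 3 - t) := mul_nonneg (by linarith) (by linarith)
        have b2 : 0 ≤ t * ((t - 1 / 2) * (2 / 3 - t)) := mul_nonneg (by linarith) b1
        have b3 : 0 ≤ t * (t * ((t - 1 / 2) * (2 / 3 - t))) := mul_nonneg (by linarith) b2
        nlinarith [b1, b2, b3]
      nlinarith [h9, h10]
    nlinarith [h7, h8]
  have h11 := (mul_nonneg_iff_of_pos_right hp).1 h6
  linarith

/-- division by `k` -/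
theorem div_D (k T q l : ℝ) (hk : 0 < k)
    (h : ((2 * k + T) ^ 2 * q ^ 2 - T * (2 * k + 2 * T) * q + T * (2 * k + T)) * l ≤
      T * (1 - q) * ((2 * k + T) - T * q)) :
    ((2 + T / k) ^ 2 * q ^ 2 - T / k * (2 + 2 * (T / k)) * q + T / k * (2 + T / k)) * l ≤
      T / k * (1 - q) * (2 + T / k - T / k * q) := by
  obtain ⟨t, ht⟩ : ∃ t : ℝ, t = T / k := ⟨_, rfl⟩
  have hT : T = k * t := by rw [ht]; field_simp
  rw [← ht]
  rw [hT] at h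
  have hk2 : 0 < k ^ 2 := by positivity
  refine le_of_mul_le_mul_left ?_ hk2
  nlinarith [h]

theorem SC3' (hLSA : Stmt_LSA) : Stmt_SC3 := by
  intro k T q l hTk hkT hq0 hq1 hlow hD
  have hT1 : 1 ≤ T := by omega
  have hkpos : (0 : ℝ) < k := by
    have : 0 < k := by omega
    exact_mod_cast this
  have h1 := (hLSA k T hT1).1 hTk
  have hT' : (T : ℝ) + 1 ≤ k := by exact_mod_cast hTk
  have hT'' : 2 * (k : ℝ) ≤ 3 * T := by exact_mod_cast hkT.le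
  have hD' := div_D k T q l hkpos hD
  have e1 : ((k : ℝ) - T) / (2 * (3 * k - T)) = (1 - (T : ℝ) / k) / (2 * (3 - (T : ℝ) / k)) := by
    have h3 : (3 * (k : ℝ) - T) ≠ 0 := by linarith
    have h4 : (3 - (T : ℝ) / k) ≠ 0 := by
      have : (T : ℝ) / k < 1 := by rw [div_lt_one hkpos]; linarith
      linarith
    have h5 : (3 - (T : ℝ) / k) = (3 * k - T) / k := by field_simp
    have h6 : (1 - (T : ℝ) / k) = (k - T) / k := by field_simp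
    rw [h5, h6]
    field_simp
  rw [e1] at h1
  unfold lowR at hlow
  have h7 := SC3_real ((T : ℝ) / k) q l (by rw [div_le_div_iff₀ (by norm_num) hkpos]; linarith)
    (by rw [div_le_one hkpos]; linarith) hq0 hq1 (by linarith) hD'
  refine ⟨h7.1, ?_⟩
  have h8 := mul_le_mul_of_nonneg_left h7.2 hkpos.le
  have e2 : (k : ℝ) * (4 * (2 + (T : ℝ) / k) * (17 / 10) * q) = 4 * (2 * k + T) * (17 / 10) * q := by
    field_simp
  have e3 : (k : ℝ) * ((12 + 5 * ((T : ℝ) / k)) * (1 + l - q)) = (12 * k + 5 * T) * (1 + l - q) := by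
    field_simp
  rw [e2, e3] at h8
  exact h8

theorem SC2' (hLSA : Stmt_LSA) : Stmt_SC2 := by
  intro k T q l hTk hkT hT3 hq0 hq1 hlow hD
  have hT1 : 1 ≤ T := by omega
  have hkpos : (0 : ℝ) < k := by
    have : 0 < k := by omega
    exact_mod_cast this
  have h1 := (hLSA k T hT1).2 hTk
  have hT' : (T : ℝ) + 2 ≤ k := by exact_mod_cast hTk
  have hT'' : (k : ℝ) ≤ 2 * T := by exact_mod_cast hkT.le
  have hT3' : 3 * (T : ℝ) ≤ 2 * k := by exact_mod_cast hT3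
  have hT0 : (1 : ℝ) ≤ T := by exact_mod_cast hT1
  have hD' := div_D k T q l hkpos hD
  have e1 : 2 * (T : ℝ) * (k - T) / ((k + 3 * T) * (5 * k - T)) =
      2 * ((T : ℝ) / k) * (1 - (T : ℝ) / k) / ((1 + 3 * ((T : ℝ) / k)) * (5 - (T : ℝ) / k)) := by
    have h3 : (5 * (k : ℝ) - T) ≠ 0 := by linarith
    have h3' : ((k : ℝ) + 3 * T) ≠ 0 := by linarith
    have h5 : (5 - (T : ℝ) / k) = (5 * k - T) / k := by field_simp
    have h6 : (1 - (T : ℝ) / k) = (k - T) / k := by field_simp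
    have h6' : (1 + 3 * ((T : ℝ) / k)) = (k + 3 * T) / k := by field_simp
    rw [h5, h6, h6']
    field_simp
  rw [e1] at h1
  unfold lowR at hlow
  have h7 := SC2_real ((T : ℝ) / k) q l (by rw [div_le_div_iff₀ (by norm_num) hkpos]; linarith)
    (by rw [div_le_div_iff₀ hkpos (by norm_num)]; linarith) hq0 hq1 (by linarith) hD'
  refine ⟨h7.1, ?_⟩
  have h8 := mul_le_mul_of_nonneg_left h7.2 hkpos.le
  have e2 : (k : ℝ) * (4 * (2 + (T : ℝ) / k) * (17 / 10) * q) = 4 * (2 * k + T) * (17 / 10) * q := by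
    field_simp
  have e3 : (k : ℝ) * ((12 + 5 * ((T : ℝ) / k)) * (1 + l - q)) = (12 * k + 5 * T) * (1 + l - q) := by
    field_simp
  rw [e2, e3] at h8
  exact h8

end Pool.Agent.Work.MP_9999b5_mf.H15
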