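import Pool.Agent.Work.MP_9999b5_mf.Interface
import Pool.Agent.Work.MP_9999b5_ch_h15.Chain

/-! # RDL from the abstract chain, no hypotheses (helper15) -/

set_option autoImplicit false

namespace Pool.Agent.Work.MP_9999b5_mf

open Finset
open Pool.Agent.Work.MP_9999b5_mr (prs bad hvy al)

theorem h_RDL : Stmt_RDL := by
  intro k T L hk _ hQL hHL ι _ V x hV hinj hx
  classical
  have key := MP_9999b5_ch.chain V k T hk hV (fun B => ∑ i ∈ B, x i ≤ 0) (fun U => ∑ i ∈ U, x i ≤ 0)
    L ?_ ?_ ?_ ?_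
  · have e : Pool.Agent.Work.MaxSums.pos x V k =
        ((V.powersetCard k).filter (fun B => ¬ ∑ i ∈ B, x i ≤ 0)).card := by
      unfold Pool.Agent.Work.MaxSums.pos
      congr 1
      refine filter_congr fun B _ => ?_
      rw [not_le]
    rw [e]
    exact key
  · intro p hp h1 h2
    have hd := ((MP_9999b5_ch.mem_prs V k p).1 hp).2.2
    rw [sum_union hd]
    linarith
  · intro p hp h1 h2
    have hd := ((MP_9999b5_ch.mem_prs V k p).1 hp).2.2
    rw [sum_union hd]
    rw [not_le] at h1 h2 ⊢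
    linarith
  · intro U hU hL
    rw [mem_powersetCard] at hU
    have h3 := sum_sdiff (f := x) hU.1
    have h4 := hQL ι (V \ U) x (by rw [card_sdiff_of_subset hU.1]; omega)
      (hinj.mono (fun i hi => (mem_sdiff.1 hi).1)) (by linarith)
    have h5 : MP_9999b5_ch.hhC (fun U => ∑ i ∈ U, x i ≤ 0) (V \ U) k = hvy (V \ U) x k := by
      unfold MP_9999b5_ch.hhC hvy
      congr 1
      refine filter_congr fun p hp => ?_
      beta_reduce
      rw [sum_union ((MP_9999b5_ch.mem_prs _ k p).1 hp).2.2]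
    rw [h5]
    exact h4
  · intro U hU hL
    rw [mem_powersetCard] at hU
    have h3 := sum_sdiff (f := x) hU.1
    have h4 := hHL ι (V \ U) x (by rw [card_sdiff_of_subset hU.1]; omega)
      (hinj.mono (fun i hi => (mem_sdiff.1 hi).1)) (by linarith)
    have h5 : MP_9999b5_ch.hhC (fun U => ∑ i ∈ U, x i ≤ 0) (V \ U) k = hvy (V \ U) x k := by
      unfold MP_9999b5_ch.hhC hvy
      congr 1
      refine filter_congr fun p hp => ?_
      beta_reduce
      rw [sum_union ((MP_9999b5_ch.mem_prs _ k p).1 hp).2.2]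
    rw [h5]
    have hm0 : (0 : ℝ) < 2 * k + T := by
      have : (1 : ℝ) ≤ k := by exact_mod_cast hk
      have : (0 : ℝ) ≤ T := Nat.cast_nonneg T
      linarith
    have h6 : (3 / 2 - T / (4 * (2 * k + T)) : ℝ) = (12 * k + 5 * T) / (4 * (2 * k + T)) := by
      field_simp
      ring
    rw [h6, div_mul_eq_mul_div, le_div_iff₀ (by positivity)]
    have h7 : (MP_9999b5_ch.nnC (fun B => ∑ i ∈ B, x i ≤ 0) (V \ U) k : ℝ) = bad (V \ U) x k := rfl
    rw [h7]
    linarith

end Pool.Agent.Work.MP_9999b5_mf
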