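import Pool.Agent.Work.MP_9999b5_mf.Interface
import Pool.Agent.Work.MP_9999b5_st.RST

/-!
RST without hypotheses (MP_9999b5_co, helper43).
-/

set_option autoImplicit false

namespace Pool.Agent.Work.MP_9999b5_mf

open Finset

theorem RST_free : Stmt_RST := by
  intro k T φ hk hT _ hW ι _ C x hC hinj hc
  have h := Pool.Agent.Work.MP_9999b5_st.p_RST k T φ hk hT hW ι C x hC hinj hc
  linarith

end Pool.Agent.Work.MP_9999b5_mf
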