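import Pool.Agent.Work.MP_9999b5_mr.All
import Pool.Agent.Work.MP_9999b5_sp.B_ADJ
import Pool.Agent.Work.MP_9999b5_sp.B_UPC
import Pool.Agent.Work.MP_9999b5_sp.B_DNC
import Pool.Agent.Work.MP_9999b5_sp.B_UPD
import Pool.Agent.Work.MP_9999b5_sp.B_SUB
import Pool.Agent.Work.MP_9999b5_sp.B_LSM
import Pool.Agent.Work.MP_9999b5_sp.B_ZD0
import Pool.Agent.Work.MP_9999b5_sp.B_ZDD
import Pool.Agent.Work.MP_9999b5_sp.B_ZDU
import Pool.Agent.Work.MP_9999b5_sp.B_PO2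
import Pool.Agent.Work.MP_9999b5_sp.B_TL2
import Pool.Agent.Work.MP_9999b5_sp.B_DG1
import Pool.Agent.Work.MP_9999b5_sp.B_SQ1
import Pool.Agent.Work.MP_9999b5_sp.B_DEC
import Pool.Agent.Work.MP_9999b5_sp.B_ORT
import Pool.Agent.Work.MP_9999b5_sp.B_KSY
import Pool.Agent.Work.MP_9999b5_sp.B_KN2
import Pool.Agent.Work.MP_9999b5_sp.B_RF1
import Pool.Agent.Work.MP_9999b5_sp.B_RF2
import Pool.Agent.Work.MP_9999b5_sp.B_RFS
import Pool.Agent.Work.MP_9999b5_sp.B_REF4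
import Pool.Agent.Work.MP_9999b5_sp.B_ALP
import Pool.Agent.Work.MP_9999b5_sp.B_NR2
import Pool.Agent.Work.MP_9999b5_sp.B_RBZ
import Pool.Agent.Work.MP_9999b5_sp.B_LIG
import Pool.Agent.Work.MP_9999b5_sp.B_EXG
import Pool.Agent.Work.MP_9999b5_sp.B_QET
import Pool.Agent.Work.MP_9999b5_sp.B_HOE
import Pool.Agent.Work.MP_9999b5_sp.B_QOE
import Pool.Agent.Work.MP_9999b5_sp.B_WSO
import Pool.Agent.Work.MP_9999b5_sp.B_WAO
import Pool.Agent.Work.MP_9999b5_sp.B_FLO4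
import Pool.Agent.Work.MP_9999b5_sp.B_RD4
import Pool.Agent.Work.MP_9999b5_sp.B_HOM
import Pool.Agent.Work.MP_9999b5_sp.B_MST

/-!
MP_9999b5_co: assembly of the blocks of `MP_9999b5_sp` which the full conjecture uses.
-/

set_option autoImplicit false

namespace Pool.Agent.Work.MP_9999b5_sp

open Pool.Agent.Work.MP_9999b5_mr (h_PAC)

theorem g_UPD : Stmt_UPD := p_UPD p_UPC p_DNC

theorem g_ZDD : Stmt_ZDD := p_ZDD p_ADJ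

theorem g_ZDU : Stmt_ZDU := p_ZDU p_SUB p_ZD0

theorem g_PO2 : Stmt_PO2 := p_PO2 p_ADJ g_UPD g_ZDD

theorem g_TL2 : Stmt_TL2 := p_TL2 g_PO2 p_SUB g_ZDU

theorem g_DG1 : Stmt_DG1 := p_DG1 p_LSM

theorem g_SQ1 : Stmt_SQ1 := p_SQ1 g_DG1

theorem g_DEC : Stmt_DEC := p_DEC g_DG1

theorem g_KN2 : Stmt_KN2 := p_KN2 g_TL2

theorem g_RF1 : Stmt_RF1 := p_RF1 p_LSM g_SQ1

theorem g_RF2 : Stmt_RF2 := p_RF2 g_TL2 g_KN2

theorem g_RFS : Stmt_RFS := p_RFS p_LSM g_ZDU g_DEC p_ORT p_KSY g_RF1 g_RF2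

theorem g_REF4 : Stmt_REF4 := p_REF4 h_PAC p_SUB g_RFS

theorem g_NR2 : Stmt_NR2 := p_NR2 h_PAC p_ALP g_REF4

theorem g_HOE : Stmt_HOE := p_HOE g_NR2 p_RBZ p_LIG p_EXG

theorem g_QOE : Stmt_QOE := p_QOE g_NR2 p_RBZ p_QET

theorem g_WSO : Stmt_WSO := p_WSO h_PAC p_ALP

theorem g_WAO : Stmt_WAO := p_WAO h_PAC

theorem g_FLO4 : Stmt_FLO4 := p_FLO4 g_WSO g_WAO

theorem g_RD4 : Stmt_RD4 := p_RD4 h_PAC g_FLO4

theorem g_HOM : Stmt_HOM := p_HOM g_QOE g_RD4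

theorem g_MST : Stmt_MST := p_MST g_HOE g_HOM

end Pool.Agent.Work.MP_9999b5_sp
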